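import Mathlib

set_option autoImplicit false

/-!
# The algorithm on lists of natural numbers

`n` is the number of vertices and `a` the adjacency matrix.
-/

namespace Pool.Agent.Spanner3

/-- membership test -/
def mm (x : ℕ) (l : List ℕ) : Bool := l.any (fun y => decide (y = x))

/-- keys of the table: `(u, w, p, q, x, y)` -/
abbrev Key := ℕ × ℕ × ℕ × ℕ × ℕ × ℕ

/-- table look-up -/
def look (T : List Key) (k : Key) : Bool := T.any (fun y => decide (y = k))

/-- one step of the search -/
def stepL (n : ℕ) (D : ℕ → ℕ → Bool) (S : List ℕ) : List ℕ :=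
  (List.range n).filter (fun b => mm b S || S.any (fun a => D a b))

/-- the vertices reachable from `S` -/
def reachL (n : ℕ) (D : ℕ → ℕ → Bool) (S : List ℕ) : List ℕ := (stepL n D)^[n] S

/-- the component of `w` in the graph minus `X` -/
def compL (n : ℕ) (a : ℕ → ℕ → Bool) (X : List ℕ) (w : ℕ) : List ℕ :=
  reachL n (fun x y => a x y && !mm y X) [w]

/-- the neighbourhood of `C` -/
def nbL (n : ℕ) (a : ℕ → ℕ → Bool) (C : List ℕ) : List ℕ :=
  (List.range n).filter (fun s => !mm s C && C.any (fun c => a c s))

/-- the closed neighbourhood of `u` -/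
def NL (n : ℕ) (a : ℕ → ℕ → Bool) (u : ℕ) : List ℕ :=
  (List.range n).filter (fun x => decide (x = u) || a u x)

/-- the component of the node `(u, w)` -/
def CL (n : ℕ) (a : ℕ → ℕ → Bool) (u w : ℕ) : List ℕ := compL n a (NL n a u) w

/-- the separator of the node `(u, w)` -/
def SL (n : ℕ) (a : ℕ → ℕ → Bool) (u w : ℕ) : List ℕ := nbL n a (CL n a u w)

/-- greedy extension of `Q` to a maximal clique -/
def growL (n : ℕ) (a : ℕ → ℕ → Bool) (Q : List ℕ) : List ℕ :=
  (List.range n).foldl (fun Q v => if Q.all (fun x => a x v) then v :: Q else Q) Q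

/-- first element, or `0` -/
def fstL (l : List ℕ) : ℕ := l[0]?.getD 0

/-- an element of the component adjacent to the whole separator -/
def w0L (n : ℕ) (a : ℕ → ℕ → Bool) (u w : ℕ) : ℕ :=
  fstL ((CL n a u w).filter (fun x => (SL n a u w).all (fun s => a s x)))

/-- the clique of the node `(u, w)` -/
def KL (n : ℕ) (a : ℕ → ℕ → Bool) (u w : ℕ) : List ℕ :=
  growL n a (w0L n a u w :: SL n a u w)

/-- the outer centre of the component of `v` in the graph minus `K` -/
def oL (n : ℕ) (a : ℕ → ℕ → Bool) (K : List ℕ) (v : ℕ) : ℕ :=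
  fstL (K.filter (fun x => !mm x (nbL n a (compL n a K v))))

/-- the implications at a node -/
def DrB (n : ℕ) (a : ℕ → ℕ → Bool) (T : List Key) (C K : List ℕ) (p q x y : ℕ) : Bool :=
  (decide (x = q) && (mm y K && (!decide (y = p) && (!decide (y = q) && !a p y)))) ||
  ((mm x K && (!decide (x = p) && (!decide (x = q) && (!a q x && decide (y = p))))) ||
  C.any (fun v => !mm v K &&
    ((decide (x = p) || (decide (x = q) || mm x (SL n a (oL n a K v) v))) &&
    ((decide (y = p) || (decide (y = q) || mm y (SL n a (oL n a K v) v))) &&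
      look T (oL n a K v, v, p, q, x, y)))))

/-- satisfiability -/
def SatB (n : ℕ) (a : ℕ → ℕ → Bool) (T : List Key) (C K : List ℕ) (p q : ℕ)
    (one zero : List ℕ) : Bool :=
  (p :: zero).all (fun y => !mm y (reachL n (DrB n a T C K p q) (q :: one)))

/-- the set `one` in `StarIn` (for `zero` exchange `p` and `q`) -/
def oneL (n : ℕ) (S : List ℕ) (c p q : ℕ) : List ℕ :=
  (List.range n).filter (fun x =>
    (decide (c = q) && (mm x S && (!decide (x = p) && !decide (x = q)))) ||
    (!decide (c = p) && (!decide (c = q) && (decide (x = c) && mm q S))))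

/-- the star test inside `S ∪ C` -/
def StarInB (n : ℕ) (a : ℕ → ℕ → Bool) (T : List Key) (C S K : List ℕ) (c : ℕ) : Bool :=
  (List.range n).any (fun p => (List.range n).any (fun q =>
    a p q && ((mm p S || mm p C) && ((mm q S || mm q C) && ((mm p K || mm q K) &&
    ((decide (c = p) || (decide (c = q) ||
      (mm c K && S.all (fun s => decide (s = c) || (decide (s = p) || decide (s = q)))))) &&
    SatB n a T C K p q (oneL n S c p q) (oneL n S c q p)))))))

/-- the star test -/
def StarB (n : ℕ) (a : ℕ → ℕ → Bool) (T : List Key) (C S K : List ℕ) (c : ℕ) : Bool :=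
  ((mm c S || mm c C) && StarInB n a T C S K c) ||
  ((!mm c S && !mm c C) &&
    (S.any (fun s => S.all (fun s' => decide (s' = s)) && StarInB n a T C S K s) ||
     S.any (fun z => SatB n a T C K z c (S.filter (fun x => !decide (x = z)))
      (K.filter (fun x => !mm x S)))))

/-- the new implications -/
def RB (n : ℕ) (a : ℕ → ℕ → Bool) (T : List Key) (C S K : List ℕ) (p q x y : ℕ) : Bool :=
  ([q, x].any (fun a' => [p, y].any (fun b => mm b (reachL n (DrB n a T C K p q) [a'])))) &&
  (!(!mm q C && (decide (x = q) && (!decide (y = q) && StarB n a T C S K p))) &&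
   !(!mm p C && (decide (y = p) && (!decide (x = p) && StarB n a T C S K q))))

/-- list of pairs -/
def pairsL {A B : Type} (l : List A) (m : List B) : List (A × B) :=
  l.flatMap (fun x => m.map (fun y => (x, y)))

/-- all keys -/
def allKeys (n : ℕ) : List Key :=
  pairsL (List.range n) (pairsL (List.range n) (pairsL (List.range n) (pairsL (List.range n)
    (pairsL (List.range n) (List.range n)))))

/-- one step of the dynamic program -/
def stepB (n : ℕ) (a : ℕ → ℕ → Bool) (T : List Key) : List Key :=
  (allKeys n).filter (fun k => RB n a T (CL n a k.1 k.2.1) (SL n a k.1 k.2.1) (KL n a k.1 k.2.1)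
    k.2.2.1 k.2.2.2.1 k.2.2.2.2.1 k.2.2.2.2.2)

/-- the tables -/
def valB (n : ℕ) (a : ℕ → ℕ → Bool) (k : ℕ) : List Key := (stepB n a)^[k] []

/-- the algorithm -/
def algB (n : ℕ) (a : ℕ → ℕ → Bool) : Bool :=
  decide (n = 1) || (List.range n).any (fun p => (List.range n).any (fun q =>
    a p q && ((mm p (growL n a []) || mm q (growL n a [])) &&
    SatB n a (valB n a n) (List.range n) (growL n a []) p q [] [])))

end Pool.Agent.Spanner3
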