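import Pool.Agent.Lib_MP_8cd8c6_lc.FPExtra
import Pool.Agent.Lib_MP_b5064f_t3.AlgDefs

set_option autoImplicit false

/-!
# Piece FPBASIC: closure properties of polynomial time functions
-/

namespace Pool.Agent.Spanner3

open Pool.Agent.PartSep.TM Pool.Agent.PartSep.TM.Rep Pool.Agent.Lib_MP_8cd8c6_lc

set_option synthInstance.maxSize 2000

variable {E F H : Type} [Rep E] [Rep F] [Rep H]

theorem fp_anyE [Inhabited F] {l : E → List F} (hl : FP l) {p : E × F → Bool} (hp : FP p) :
    FP (fun x => (l x).any (fun y => p (x, y))) :=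
  (FP.not (fp_allE hl (p := fun y => !p y) (FP.not hp))).congr (fun x => by
    simp [List.any_eq_not_all_not])

/-- PROOF: `FP.flatMapE` with `g y = if p y then [y.2] else []`. -/
theorem fp_filter [Inhabited F] {l : E → List F} (hl : FP l) {p : E × F → Bool} (hp : FP p) :
    FP (fun x => (l x).filter (fun y => p (x, y))) := by
  refine (FP.flatMapE hl (g := fun y : E × F => if p y then [y.2] else [])
    (FP.ite hp (FP.consE FP.snd (FP.const [])) (FP.const []))).congr (fun x => ?_)
  induction l x with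
  | nil => rfl
  | cons a l ih =>
    rw [List.flatMap_cons, ih, List.filter_cons]
    by_cases h : p (x, a) = true
    · simp [h]
    · simp [h]

theorem fp_mm {x : E → ℕ} (hx : FP x) {l : E → List ℕ} (hl : FP l) :
    FP (fun z => mm (x z) (l z)) :=
  fp_anyE hl (p := fun y : E × ℕ => decide (y.2 = x y.1))
    (FP.natEq FP.snd (FP.comp hx FP.fst))

/-- equality of keys -/
theorem fp_basic_keyEq {a b : E → Key} (ha : FP a) (hb : FP b) :
    FP (fun z => decide (a z = b z)) := by
  have a1 := FP.comp FP.fst ha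
  have a2 := FP.comp FP.fst (FP.comp FP.snd ha)
  have a3 := FP.comp FP.fst (FP.comp FP.snd (FP.comp FP.snd ha))
  have a4 := FP.comp FP.fst (FP.comp FP.snd (FP.comp FP.snd (FP.comp FP.snd ha)))
  have a5 := FP.comp FP.fst (FP.comp FP.snd (FP.comp FP.snd (FP.comp FP.snd
    (FP.comp FP.snd ha))))
  have a6 := FP.comp FP.snd (FP.comp FP.snd (FP.comp FP.snd (FP.comp FP.snd
    (FP.comp FP.snd ha))))
  have b1 := FP.comp FP.fst hb
  have b2 := FP.comp FP.fst (FP.comp FP.snd hb)
  have b3 := FP.comp FP.fst (FP.comp FP.snd (FP.comp FP.snd hb))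
  have b4 := FP.comp FP.fst (FP.comp FP.snd (FP.comp FP.snd (FP.comp FP.snd hb)))
  have b5 := FP.comp FP.fst (FP.comp FP.snd (FP.comp FP.snd (FP.comp FP.snd
    (FP.comp FP.snd hb))))
  have b6 := FP.comp FP.snd (FP.comp FP.snd (FP.comp FP.snd (FP.comp FP.snd
    (FP.comp FP.snd hb))))
  refine (FP.and (FP.natEq a1 b1) (FP.and (FP.natEq a2 b2) (FP.and (FP.natEq a3 b3)
    (FP.and (FP.natEq a4 b4) (FP.and (FP.natEq a5 b5) (FP.natEq a6 b6)))))).congr (fun z => ?_)
  rw [Bool.eq_iff_iff]
  simp [Prod.ext_iff]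

theorem fp_look {T : E → List Key} (hT : FP T) {k : E → Key} (hk : FP k) :
    FP (fun z => look (T z) (k z)) :=
  fp_anyE hT (p := fun y : E × Key => decide (y.2 = k y.1))
    (fp_basic_keyEq FP.snd (FP.comp hk FP.fst))

/-- PROOF: `FP.flatMapE` and `FP.mapE` (`List.map` written as a `flatMap`, or directly
`l.flatMap (fun y => m.map ..)`). -/
theorem fp_pairsL [Inhabited F] [Inhabited H] {l : E → List F} (hl : FP l) {m : E → List H}
    (hm : FP m) : FP (fun x => pairsL (l x) (m x)) :=
  FP.flatMapE hl (g := fun y : E × F => (m y.1).map (fun z => (y.2, z)))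
    (FP.mapE (FP.comp hm FP.fst) (g := fun w : (E × F) × H => (w.1.2, w.2))
      (FP.pair (FP.comp FP.snd FP.fst) FP.snd))

theorem fp_allKeys {n : E → ℕ} (hn : FP n) : FP (fun x => allKeys (n x)) :=
  fp_pairsL (FP.range hn) (fp_pairsL (FP.range hn) (fp_pairsL (FP.range hn)
    (fp_pairsL (FP.range hn) (fp_pairsL (FP.range hn) (FP.range hn)))))

end Pool.Agent.Spanner3
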