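import Pool.Agent.Lib_MP_b5064f_t3.Defs

set_option autoImplicit false

/-!
# Piece ATTACH: attaching edges
-/

namespace Pool.Agent.Spanner3

open Relation

variable {V : Type} {G : SimpleGraph V}

/-- The edges which attach the elements of `A` according to `B`. PROOF: take the image of the
finite set `A` under `v ↦ if B v then s(v, q) else s(v, p)`. The adjacencies are the hypotheses. -/
theorem attach [Finite V] {p q : V} {B : V → Prop} (A : Set V)
    (h1 : ∀ v ∈ A, B v → G.Adj v q) (h2 : ∀ v ∈ A, ¬ B v → G.Adj v p) :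
    ∃ Y : Finset (Sym2 V), (∀ e ∈ Y, e ∈ G.edgeSet) ∧ Y.card ≤ A.ncard ∧
      ∀ T : SimpleGraph V, (∀ e ∈ Y, e ∈ T.edgeSet) →
        ∀ v ∈ A, (B v → T.Adj v q) ∧ (¬ B v → T.Adj v p) := by
  classical
  have hA : A.Finite := Set.toFinite A
  refine ⟨hA.toFinset.image (fun v => if B v then s(v, q) else s(v, p)), ?_, ?_, ?_⟩
  · intro e he
    rw [Finset.mem_image] at he
    obtain ⟨v, hv, rfl⟩ := he
    rw [hA.mem_toFinset] at hv
    by_cases hB : B v
    · rw [if_pos hB]; exact h1 v hv hB
    · rw [if_neg hB]; exact h2 v hv hB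
  · rw [Set.ncard_eq_toFinset_card A hA]
    exact Finset.card_image_le
  · intro T hT v hv
    constructor
    · intro hB
      exact hT s(v, q) (Finset.mem_image.2 ⟨v, hA.mem_toFinset.2 hv, by rw [if_pos hB]⟩)
    · intro hB
      exact hT s(v, p) (Finset.mem_image.2 ⟨v, hA.mem_toFinset.2 hv, by rw [if_neg hB]⟩)

/-- A labelling closed under `Dr` respects the adjacencies. PROOF: let `v ∈ K`, `v ≠ p, q`. If
`B v` and `v` is not adjacent to `q` then `Dr v p` (second clause), so `B p`, contradiction. If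
`¬ B v` and `v` is not adjacent to `p` then `Dr q v` (first clause), so `B v`. -/
theorem dr_adj {t : Tab V} {N : Node V} {p q : V} {B : V → Prop} (hq : B q) (hp : ¬ B p)
    (hB : ∀ x y, Dr G t N p q x y → B x → B y) {v : V} (hv : v ∈ N.K) (hvp : v ≠ p)
    (hvq : v ≠ q) : (B v → G.Adj v q) ∧ (¬ B v → G.Adj v p) := by
  constructor
  · intro h
    by_contra hc
    exact hp (hB v p (Or.inr (Or.inl ⟨hv, hvp, hvq, fun h' => hc h'.symm, rfl⟩)) h)
  · intro h
    by_contra hc
    exact h (hB q v (Or.inl ⟨rfl, hv, hvp, hvq, fun h' => hc h'.symm⟩) hq)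

end Pool.Agent.Spanner3
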