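import Pool.Agent.Lib_MP_b5064f_t3.Nodes

set_option autoImplicit false

/-!
# Piece CHILD: the children of a node
-/

namespace Pool.Agent.Spanner3

open Relation

variable {V : Type} {G : SimpleGraph V} {r : V → ℕ}

/-- PROOF: some `c ∈ K` is in `C` (`meet`); the other elements are adjacent to `c`, use `clos`. -/
theorem K_sub {N : Node V} (hN : GoodNode G N) {x : V} (hx : x ∈ N.K) : x ∈ N.S ∨ x ∈ N.C := by
  obtain ⟨c, hcK, hcC⟩ := hN.meet
  by_cases h : c = x
  · right; rw [← h]; exact hcC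
  · exact (hN.clos c hcC x (hN.maxcl.1 c hcK x hx h)).symm

/-- PROOF: induction on the chain: a step from `c ∈ C` leads to `x ∉ K`, and `x ∈ C ∪ S` by
`clos`, `S ⊆ K`, so `x ∈ C`. -/
theorem child_sub {N : Node V} (hN : GoodNode G N) {v x : V} (hv : v ∈ N.C) (hvK : v ∉ N.K)
    (hx : x ∈ comp G N.K v) : x ∈ N.C ∧ x ∉ N.K := by
  have hx' : ReflTransGen (fun a b => G.Adj a b ∧ b ∉ N.K) v x := hx
  induction hx' with
  | refl => exact ⟨hv, hvK⟩
  | tail h1 h2 ih =>
    refine ⟨?_, h2.2⟩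
    rcases hN.clos _ (ih h1).1 _ h2.1 with h | h
    · exact h
    · exact absurd (hN.SK _ h) h2.2

/-- `o` is not in the closed neighbourhood of the child -/
theorem child_out {N : Node V} (hN : GoodNode G N) {v x : V} (hv : v ∈ N.C) (hvK : v ∉ N.K)
    (hx : x ∈ comp G N.K v) : ¬ (x = N.o v ∨ G.Adj (N.o v) x) := by
  obtain ⟨ho, ho'⟩ := hN.out v hv hvK
  have hoD : N.o v ∉ comp G N.K v := fun h => (child_sub hN hv hvK h).2 ho
  rintro (h | h)
  · exact hoD (h ▸ hx)
  · exact ho' ⟨hoD, x, hx, h.symm⟩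

/-- The component of `v` in `G - N[o]` is that in `G - K`, for `o = N.o v`. PROOF: `K ⊆ N[o]`
since `o ∈ K` and `K` is a clique, so `⊆` (a chain avoiding `N[o]` avoids `K`). Conversely `o` is
not in `D = comp G K v` (since `o ∈ K`) and has no neighbour in `D` (`o ∉ nb G D`), so a chain in
`D` avoids `N[o]`; prove by induction that every vertex `x` of a chain from `v` avoiding `K` is in
`CC G o v`, using that `x ∈ D`. -/
theorem child_eq {N : Node V} (hN : GoodNode G N) {v : V} (hv : v ∈ N.C) (hvK : v ∉ N.K) :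
    CC G (N.o v) v = comp G N.K v := by
  obtain ⟨ho, ho'⟩ := hN.out v hv hvK
  have hsub : ∀ x ∈ N.K, x = N.o v ∨ G.Adj (N.o v) x := by
    intro x hx
    by_cases h : x = N.o v
    · exact Or.inl h
    · exact Or.inr (hN.maxcl.1 _ ho x hx (Ne.symm h))
  apply Set.Subset.antisymm
  · intro x hx
    have hx' : ReflTransGen (fun a b => G.Adj a b ∧ b ∉ {x | x = N.o v ∨ G.Adj (N.o v) x}) v x := hx
    exact ReflTransGen.mono (p := fun a b => G.Adj a b ∧ b ∉ N.K)
      (fun a b h => ⟨h.1, fun hb => h.2 (hsub b hb)⟩) _ _ hx'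
  · intro x hx
    have hx' : ReflTransGen (fun a b => G.Adj a b ∧ b ∉ N.K) v x := hx
    induction hx' with
    | refl => exact ReflTransGen.refl
    | tail h1 h2 ih =>
      exact ReflTransGen.tail (ih h1) ⟨h2.1, fun hb => child_out hN hv hvK hx hb⟩

/-- PROOF: `x ∉ D` has a neighbour in `D = comp G K v`; if `x ∉ K` then `x ∈ D` by `comp_step`. -/
theorem child_nb {N : Node V} (hN : GoodNode G N) {v x : V} (hv : v ∈ N.C) (hvK : v ∉ N.K)
    (hx : x ∈ SS G (N.o v) v) : x ∈ N.K := by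
  obtain ⟨h1, c, hc, hcx⟩ := hx
  rw [child_eq hN hv hvK] at h1 hc
  by_contra h
  exact h1 (comp_step hc hcx h)

/-- PROOF: `o ∈ K`, `v ∉ K`, and `o` is not adjacent to `v ∈ D`, since `o ∉ nb G D` and
`o ∉ D` (`not_mem_of_comp`). -/
theorem child_valid {N : Node V} (hN : GoodNode G N) {v : V} (hv : v ∈ N.C) (hvK : v ∉ N.K) :
    N.o v ≠ v ∧ ¬ G.Adj (N.o v) v := by
  have h := child_out hN hv hvK (self_mem_comp N.K v)
  push Not at h
  exact ⟨h.1.symm, h.2⟩

/-- PROOF: the child is contained in `C \ K` and misses the element of `K ∩ C`, so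
`Set.ncard_lt_ncard`. -/
theorem child_small [Finite V] {N : Node V} (hN : GoodNode G N) {v : V} (hv : v ∈ N.C)
    (hvK : v ∉ N.K) {k : ℕ} (hk : N.C.ncard ≤ k + 1) : Small G k (N.o v) v := by
  obtain ⟨h1, h2⟩ := child_valid hN hv hvK
  refine ⟨h1, h2, ?_⟩
  rw [child_eq hN hv hvK]
  obtain ⟨c, hcK, hcC⟩ := hN.meet
  have hlt : (comp G N.K v).ncard < N.C.ncard := by
    apply Set.ncard_lt_ncard _ (Set.toFinite _)
    refine ⟨fun x hx => (child_sub hN hv hvK hx).1, fun h => ?_⟩
    exact (child_sub hN hv hvK (h hcC)).2 hcK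
  omega

/-- PROOF: `G` is connected, `w ∈ CC G u w`, `u ∉ CC G u w`: on a walk from `w` to `u` there is a
first vertex outside `CC G u w` (induction on `Reachable`/`ReflTransGen` of `G.Adj`). -/
theorem SS_nonempty (hG : G.Connected) {u w : V} (huw : u ≠ w) (h : ¬ G.Adj u w) :
    ∃ s, s ∈ SS G u w := by
  by_contra hc
  push Not at hc
  have hcl : ∀ x, x ∈ CC G u w → ∀ y, G.Adj x y → y ∈ CC G u w := by
    intro x hx y hxy
    by_contra hy
    exact hc y ⟨hy, x, hx, hxy⟩
  have hall : ∀ x, ReflTransGen G.Adj w x → x ∈ CC G u w := by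
    intro x hx
    induction hx with
    | refl => exact self_mem_comp _ _
    | tail _ h2 ih => exact hcl _ ih _ h2
  have hreach : ReflTransGen G.Adj w u := by
    rw [← SimpleGraph.reachable_iff_reflTransGen]
    exact hG.preconnected w u
  have hw : w ∉ {x | x = u ∨ G.Adj u x} := by
    rintro (h' | h')
    · exact huw h'.symm
    · exact h h'
  exact not_mem_of_comp hw (hall u hreach) (Or.inl rfl)

end Pool.Agent.Spanner3
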