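import Pool.Agent.Lib_MP_b5064f_t3.ChordalSep

set_option autoImplicit false

/-!
# Piece DIRAC: chordal graphs have a perfect elimination ordering (Dirac)
-/

namespace Pool.Agent.Spanner3

open Relation

variable {V : Type} {G : SimpleGraph V}

/-- `z` is simplicial in the set `A`. -/
def Simp (G : SimpleGraph V) (A : Set V) (z : V) : Prop :=
  ∀ x ∈ A, ∀ y ∈ A, G.Adj z x → G.Adj z y → x ≠ y → G.Adj x y

/-- Dirac's lemma. PROOF: strong induction on `A.ncard`. Let
`C = comp G {x | x ∉ A ∨ x = b ∨ G.Adj b x} a` (so `C ⊆ A`, `C` is connected in itself, `b ∉ C`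
has no neighbour in `C`, and a neighbour in `A` of an element of `C` is in `C` or is
adjacent to `b`), `S = {s ∈ A | s ∉ C, s has a neighbour in C}`. Every `s ∈ S` is adjacent to `b`,
and `S` is a clique by `chordal_sep` (`u = b`). Let `A' = C ∪ S ⊆ A`, `b ∉ A'`, so it is
smaller. (N) All neighbours in `A` of an element of `C` are in `A'`; so an element of `C` which is
simplicial in `A'` is simplicial in `A`, and it is `≠ b` and not adjacent to `b`: we are done if
we find one. If `A'` is a clique, `a` is one. Otherwise let `x ≠ y` in `A'` be not adjacent. The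
induction hypothesis for `A'`, `x`, `y` gives a simplicial `z₁ ∈ A'` of `A'`, `z₁ ≠ x`, not
adjacent to `x`. If `z₁ ∈ C` done. If `z₁ ∈ S`: the induction hypothesis for `A'`, `z₁`, `x` gives
a simplicial `z₂ ∈ A'`, `z₂ ≠ z₁`, not adjacent to `z₁`; `z₂ ∉ S` since `S` is a clique, so
`z₂ ∈ C`: done. -/
theorem dirac [Finite V] (h : IsChordal G) (A : Set V) {a b : V} (ha : a ∈ A) (hb : b ∈ A)
    (hab : a ≠ b) (hn : ¬ G.Adj b a) :
    ∃ z ∈ A, z ≠ b ∧ ¬ G.Adj b z ∧ Simp G A z := by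
  classical
  obtain ⟨n, hnc⟩ : ∃ n, A.ncard = n := ⟨_, rfl⟩
  induction n using Nat.strong_induction_on generalizing A a b with
  | _ n ih =>
  set X : Set V := {x | x ∉ A ∨ x = b ∨ G.Adj b x} with hX
  set C : Set V := comp G X a with hCdef
  have haX : a ∉ X := by
    rintro (h1 | h1 | h1)
    · exact h1 ha
    · exact hab h1
    · exact hn h1
  have hCX : ∀ x ∈ C, x ∉ X := by
    intro x hx
    rcases ReflTransGen.cases_tail hx with h1 | ⟨_, _, h1⟩
    · exact h1 ▸ haX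
    · exact h1.2
  have hCA : ∀ x ∈ C, x ∈ A := fun x hx => by
    by_contra hc
    exact hCX x hx (Or.inl hc)
  have hCb : ∀ x ∈ C, ¬ G.Adj b x := fun x hx hc => hCX x hx (Or.inr (Or.inr hc))
  have hbC : b ∉ C := fun hc => hCX b hc (Or.inr (Or.inl rfl))
  have haC : a ∈ C := ReflTransGen.refl
  have hconn0 : ∀ z, ReflTransGen (fun p q => G.Adj p q ∧ q ∉ X) a z → z ∈ C ∧
      ReflTransGen (fun p q => G.Adj p q ∧ q ∈ C) a z ∧
      ReflTransGen (fun p q => G.Adj p q ∧ q ∈ C) z a := by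
    intro z hz
    induction hz with
    | refl => exact ⟨haC, ReflTransGen.refl, ReflTransGen.refl⟩
    | tail h1 h2 ih2 =>
      have hq := ReflTransGen.tail h1 h2
      exact ⟨hq, ih2.2.1.tail ⟨h2.1, hq⟩, ReflTransGen.head ⟨h2.1.symm, ih2.1⟩ ih2.2.2⟩
  have hconn : ConnIn G C := fun x hx y hy => (hconn0 x hx).2.2.trans (hconn0 y hy).2.1
  have hclos : ∀ x ∈ C, ∀ y ∈ A, G.Adj x y → y ∈ C ∨ G.Adj b y := by
    intro x hx y hy hxy
    by_cases hyX : y ∈ X
    · rcases hyX with h1 | h1 | h1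
      · exact absurd hy h1
      · rw [h1] at hxy
        exact absurd hxy.symm (hCb x hx)
      · exact Or.inr h1
    · exact Or.inl (ReflTransGen.tail hx ⟨hxy, hyX⟩)
  set S : Set V := {s | s ∈ A ∧ s ∉ C ∧ ∃ c ∈ C, G.Adj c s} with hS
  have hSb : ∀ s ∈ S, G.Adj b s := by
    rintro s ⟨hsA, hsC, c, hc, hcs⟩
    exact (hclos c hc s hsA hcs).resolve_left hsC
  have hScl : ∀ s ∈ S, ∀ s' ∈ S, s ≠ s' → G.Adj s s' := by
    intro s hs s' hs' hss
    refine chordal_sep h C hconn hbC hs.2.1 hs'.2.1 hss (hSb s hs) (hSb s' hs') hCb ?_ ?_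
    · obtain ⟨c, hc, hcs⟩ := hs.2.2
      exact ⟨c, hc, hcs.symm⟩
    · obtain ⟨c, hc, hcs⟩ := hs'.2.2
      exact ⟨c, hc, hcs.symm⟩
  have hlt : (C ∪ S).ncard < n := by
    rw [← hnc]
    apply Set.ncard_lt_ncard _ (Set.toFinite A)
    refine ⟨?_, ?_⟩
    · rintro x (hx | hx)
      · exact hCA x hx
      · exact hx.1
    · intro hc
      rcases hc hb with h1 | h1
      · exact hbC h1
      · exact G.irrefl (hSb b h1)
  have hfin : ∀ z ∈ C, Simp G (C ∪ S) z → ∃ z ∈ A, z ≠ b ∧ ¬ G.Adj b z ∧ Simp G A z := by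
    intro z hz hsz
    refine ⟨z, hCA z hz, fun hc => hbC (hc ▸ hz), hCb z hz, ?_⟩
    have hin : ∀ x ∈ A, G.Adj z x → x ∈ C ∪ S := by
      intro x hx hzx
      by_cases hxC : x ∈ C
      · exact Or.inl hxC
      · exact Or.inr ⟨hx, hxC, z, hz, hzx⟩
    intro x hx y hy hzx hzy hxy
    exact hsz x (hin x hx hzx) y (hin y hy hzy) hzx hzy hxy
  by_cases hcl : ∀ x ∈ C ∪ S, ∀ y ∈ C ∪ S, x ≠ y → G.Adj x y
  · exact hfin a haC (fun x hx y hy _ _ hxy => hcl x hx y hy hxy)
  · push Not at hcl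
    obtain ⟨x, hx, y, hy, hxy, hnxy⟩ := hcl
    obtain ⟨z₁, hz₁, hz₁x, hz₁n, hz₁s⟩ := ih _ hlt (C ∪ S) hy hx (Ne.symm hxy) hnxy rfl
    rcases hz₁ with hz₁ | hz₁
    · exact hfin z₁ hz₁ hz₁s
    · obtain ⟨z₂, hz₂, hz₂x, hz₂n, hz₂s⟩ := ih _ hlt (C ∪ S) hx (Or.inr hz₁) (Ne.symm hz₁x)
        (fun hc => hz₁n hc.symm) rfl
      rcases hz₂ with hz₂ | hz₂
      · exact hfin z₂ hz₂ hz₂s
      · exact absurd (hScl z₁ hz₁ z₂ hz₂ (Ne.symm hz₂x)) hz₂n

/-- A nonempty finite set of vertices of a chordal graph has a simplicial element. -/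
lemma dirac_simp [Finite V] (h : IsChordal G) (A : Set V) (hA : A.Nonempty) :
    ∃ z ∈ A, Simp G A z := by
  by_cases hcl : ∀ x ∈ A, ∀ y ∈ A, x ≠ y → G.Adj x y
  · obtain ⟨a, ha⟩ := hA
    exact ⟨a, ha, fun x hx y hy _ _ hxy => hcl x hx y hy hxy⟩
  · push Not at hcl
    obtain ⟨x, hx, y, hy, hxy, hnxy⟩ := hcl
    obtain ⟨z, hz, _, _, hzs⟩ := dirac h A hy hx (Ne.symm hxy) hnxy
    exact ⟨z, hz, hzs⟩

lemma dirac_peo_aux [Finite V] (h : IsChordal G) (n : ℕ) : ∀ A : Set V, A.ncard = n →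
    ∃ r : V → ℕ, Set.InjOn r A ∧ ∀ v ∈ A, ∀ x ∈ A, ∀ y ∈ A, G.Adj v x → G.Adj v y → r v < r x →
      r v < r y → x ≠ y → G.Adj x y := by
  classical
  induction n with
  | zero =>
    intro A hA
    rw [Set.ncard_eq_zero (Set.toFinite A)] at hA
    subst hA
    exact ⟨fun _ => 0, Set.injOn_empty _, fun v hv => absurd hv (Set.notMem_empty v)⟩
  | succ n ih =>
    intro A hA
    have hne : A.Nonempty := by
      rw [← Set.ncard_pos (Set.toFinite A)]
      omega
    obtain ⟨z, hz, hzs⟩ := dirac_simp h A hne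
    obtain ⟨r', hinj, hr'⟩ := ih (A \ {z}) (by
      have := Set.ncard_sdiff_singleton_add_one hz (Set.toFinite A)
      omega)
    refine ⟨fun v => if v = z then 0 else r' v + 1, ?_, ?_⟩
    · intro v hv w hw hvw
      by_cases h1 : v = z <;> by_cases h2 : w = z
      · rw [h1, h2]
      · simp [h1, h2] at hvw
      · simp [h1, h2] at hvw
      · simp only [if_neg h1, if_neg h2] at hvw
        exact hinj ⟨hv, h1⟩ ⟨hw, h2⟩ (by omega)
    · intro v hv x hx y hy hvx hvy h1 h2 hxy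
      by_cases hvz : v = z
      · subst hvz
        exact hzs x hx y hy hvx hvy hxy
      · have hxz : x ≠ z := by
          intro hc
          simp [hc] at h1
        have hyz : y ≠ z := by
          intro hc
          simp [hc] at h2
        simp only [if_neg hvz, if_neg hxz] at h1
        simp only [if_neg hvz, if_neg hyz] at h2
        exact hr' v ⟨hv, hvz⟩ x ⟨hx, hxz⟩ y ⟨hy, hyz⟩ hvx hvy (by omega) (by omega) hxy

/-- PROOF. For every finite set `A` there is `r : V → ℕ`, injective on `A`, such that for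
`v, x, y ∈ A` with `x, y` neighbours of `v`, `r v < r x`, `r v < r y`, `x ≠ y`: `x`, `y` are
adjacent. Induction on `A.ncard`: `A` not empty has a simplicial element `z` (if `A` is a clique
any element, otherwise `dirac`); let `r'` be good for `A \ {z}` and `r v = if v = z then 0 else
r' v + 1`. Take `A = univ`. -/
theorem chordal_peo [Finite V] (h : IsChordal G) : ∃ r, IsPEO G r := by
  obtain ⟨r, hinj, hr⟩ := dirac_peo_aux h _ (Set.univ : Set V) rfl
  exact ⟨r, fun x y hxy => hinj (Set.mem_univ x) (Set.mem_univ y) hxy,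
    fun v x y => hr v (Set.mem_univ v) x (Set.mem_univ x) y (Set.mem_univ y)⟩

end Pool.Agent.Spanner3
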