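import Pool.Agent.Lib_MP_b5064f_t3.Peo

set_option autoImplicit false

/-!
# Piece CHORDALSEP: separators of chordal graphs are cliques
-/

namespace Pool.Agent.Spanner3

open Relation

variable {V : Type} {G : SimpleGraph V}

/-- In a shortest walk a chord is an edge of the walk (ordered version). -/
lemma chordalsep_aux {H : SimpleGraph V} {x y : V} (W : H.Walk x y) (hW : W.length = H.dist x y)
    {i j : ℕ} (hij : i < j) (hj : j ≤ W.length) (h : H.Adj (W.getVert i) (W.getVert j)) :
    s(W.getVert i, W.getVert j) ∈ W.edges := by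
  have h1 := SimpleGraph.dist_le
    ((W.take i).append (SimpleGraph.Walk.cons h (W.drop j)))
  rw [SimpleGraph.Walk.length_append, SimpleGraph.Walk.length_cons, SimpleGraph.Walk.take_length,
    SimpleGraph.Walk.drop_length, Nat.min_eq_left (by omega)] at h1
  have h2 : j = i + 1 := by omega
  subst h2
  rw [SimpleGraph.Walk.mk_mem_edges_iff_exists]
  exact ⟨i, by omega, rfl⟩

/-- In a shortest walk a chord is an edge of the walk. -/
lemma chordalsep_chord {H : SimpleGraph V} {x y : V} (W : H.Walk x y)
    (hW : W.length = H.dist x y) {a b : V} (ha : a ∈ W.support) (hb : b ∈ W.support)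
    (hab : H.Adj a b) : s(a, b) ∈ W.edges := by
  rw [SimpleGraph.Walk.mem_support_iff_exists_getVert] at ha hb
  obtain ⟨i, rfl, hi⟩ := ha
  obtain ⟨j, rfl, hj⟩ := hb
  rcases Nat.lt_trichotomy i j with h | h | h
  · exact chordalsep_aux W hW h hj hab
  · subst h
    exact absurd hab (H.irrefl)
  · rw [Sym2.eq_swap]
    exact chordalsep_aux W hW h hi hab.symm

/-- The walks of a graph with all edges inside `M` stay inside `M`. -/
lemma chordalsep_inside {H : SimpleGraph V} {M : Set V} (hM : ∀ a b, H.Adj a b → a ∈ M ∧ b ∈ M)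
    {x y : V} (W : H.Walk x y) (hx : x ∈ M) : ∀ z ∈ W.support, z ∈ M := by
  induction W with
  | nil => simpa using hx
  | cons h W ih =>
    intro z hz
    rw [SimpleGraph.Walk.support_cons, List.mem_cons] at hz
    rcases hz with rfl | hz
    · exact hx
    · exact ih (hM _ _ h).2 z hz

/-- PROOF. Suppose `x`, `y` are not adjacent. Let `M = C ∪ {x, y}` and `G'` the graph on `V` with
`G'.Adj a b ↔ G.Adj a b ∧ a ∈ M ∧ b ∈ M`. `x` and `y` are connected in `G'` (`x` to its neighbour
in `C`, chain in `C`, to the neighbour of `y`). Let `W` be a shortest `G'`-walk from `x` to `y`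
(`Reachable.exists_path_of_dist` or `exists_walk_length_eq_dist`): a path, all its vertices are in
`M` (length positive), of length at least 2. Let `W'` be its image in `G` (`Walk.mapLe`), and let
`c` be the closed walk `cons (u x) (W'.concat (y u))` of length `W.length + 2 ≥ 4`; it is a cycle:
`Walk.cons_isCycle_iff`, `W'.concat (y u)` is a path since `u ∉ M`, and `s(u, x)` is not an edge of
it (its only edge containing `u` is `s(y, u)`, `x ≠ y`). A chord `ab` given by `IsChordal`: if
`a = u` then `b ∈ W.support`, so `b ∈ M`, and `b = x` or `b = y` (`u` has no neighbour in `C`), and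
`ab` is an edge of `c`; the same if `b = u`. So `a = W.getVert i`, `b = W.getVert j` with `i < j`
(by symmetry; `a ≠ b`); `j = i + 1` would be an edge of the cycle; so `j ≥ i + 2` and the walk
`W.take i`, the edge `ab` (an edge of `G'`), `W.drop j` is a shorter `G'`-walk from `x` to `y`. -/
theorem chordal_sep (h : IsChordal G) (C : Set V) (hC : ConnIn G C) {u x y : V}
    (hu : u ∉ C) (hx : x ∉ C) (hy : y ∉ C) (hxy : x ≠ y) (hux : G.Adj u x) (huy : G.Adj u y)
    (huC : ∀ c ∈ C, ¬ G.Adj u c) (hxC : ∃ c ∈ C, G.Adj x c) (hyC : ∃ c ∈ C, G.Adj y c) :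
    G.Adj x y := by
  by_contra hnxy
  have hux' : u ≠ x := G.ne_of_adj hux
  have huy' : u ≠ y := G.ne_of_adj huy
  set M : Set V := C ∪ {x, y} with hMdef
  have hxM : x ∈ M := Or.inr (Or.inl rfl)
  have hyM : y ∈ M := Or.inr (Or.inr rfl)
  have huM : u ∉ M := by
    rintro (h | h | h)
    · exact hu h
    · exact hux' h
    · exact huy' h
  let H : SimpleGraph V :=
    { Adj := fun a b => G.Adj a b ∧ a ∈ M ∧ b ∈ M
      symm := ⟨fun a b h => ⟨h.1.symm, h.2.2, h.2.1⟩⟩
      loopless := ⟨fun a h => G.irrefl h.1⟩ }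
  have hle : H ≤ G := fun a b h => h.1
  have hHM : ∀ a b, H.Adj a b → a ∈ M ∧ b ∈ M := fun a b h => h.2
  obtain ⟨c1, hc1, hxc1⟩ := hxC
  obtain ⟨c2, hc2, hyc2⟩ := hyC
  have hchain : ∀ z, ReflTransGen (fun a b => G.Adj a b ∧ b ∈ C) c1 z → z ∈ C ∧ H.Reachable c1 z := by
    intro z hz
    induction hz with
    | refl => exact ⟨hc1, SimpleGraph.Reachable.refl _⟩
    | tail _ h2 ih =>
      refine ⟨h2.2, ih.2.trans ?_⟩
      exact SimpleGraph.Adj.reachable (show H.Adj _ _ from ⟨h2.1, Or.inl ih.1, Or.inl h2.2⟩)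
  have hreach : H.Reachable x y := by
    have h1 : H.Reachable x c1 :=
      SimpleGraph.Adj.reachable (show H.Adj _ _ from ⟨hxc1, hxM, Or.inl hc1⟩)
    have h2 : H.Reachable c2 y :=
      SimpleGraph.Adj.reachable (show H.Adj _ _ from ⟨hyc2.symm, Or.inl hc2, hyM⟩)
    exact (h1.trans (hchain c2 (hC c1 hc1 c2 hc2)).2).trans h2
  obtain ⟨W, hWp, hWl⟩ := hreach.exists_path_of_dist
  have hlen : 2 ≤ W.length := by
    rcases Nat.lt_or_ge W.length 2 with hlt | hge
    · exfalso
      interval_cases hk : W.length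
      · exact hxy (SimpleGraph.Walk.eq_of_length_eq_zero hk)
      · exact hnxy (hle (SimpleGraph.Walk.adj_of_length_eq_one hk))
    · exact hge
  have hWM := chordalsep_inside hHM W hxM
  set W' : G.Walk x y := W.mapLe hle with hW'
  have hW'p : W'.IsPath := (SimpleGraph.Walk.isPath_mapLe hle).2 hWp
  have hW's : W'.support = W.support := SimpleGraph.Walk.support_mapLe_eq_support _ _
  have hW'e : W'.edges = W.edges := SimpleGraph.Walk.edges_mapLe_eq_edges _ _
  have hW'l : W'.length = W.length := SimpleGraph.Walk.length_mapLe _ _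
  have huW' : u ∉ W'.support := by
    rw [hW's]
    exact fun h => huM (hWM u h)
  set c : G.Walk u u := SimpleGraph.Walk.cons hux (W'.concat huy.symm) with hc
  have hcyc : c.IsCycle := by
    rw [hc, SimpleGraph.Walk.cons_isCycle_iff]
    refine ⟨hW'p.concat huW' huy.symm, ?_⟩
    rw [SimpleGraph.Walk.edges_concat, List.concat_eq_append, List.mem_append, List.mem_singleton]
    rintro (h1 | h1)
    · exact huW' (SimpleGraph.Walk.fst_mem_support_of_mem_edges _ h1)
    · rw [Sym2.eq_iff] at h1
      rcases h1 with ⟨h1, _⟩ | ⟨_, h1⟩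
      · exact huy' h1
      · exact hxy h1
  have hcl : 4 ≤ c.length := by
    rw [hc, SimpleGraph.Walk.length_cons, SimpleGraph.Walk.length_concat, hW'l]
    omega
  have hcs : ∀ z ∈ c.support, z = u ∨ z ∈ W.support := by
    intro z hz
    rw [hc, SimpleGraph.Walk.support_cons, SimpleGraph.Walk.support_concat, List.mem_cons,
      List.mem_append, List.mem_singleton, hW's] at hz
    tauto
  have hce : ∀ e, (e = s(u, x) ∨ e = s(y, u) ∨ e ∈ W.edges) → e ∈ c.edges := by
    intro e he
    rw [hc, SimpleGraph.Walk.edges_cons, SimpleGraph.Walk.edges_concat, List.concat_eq_append,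
      List.mem_cons, List.mem_append, List.mem_singleton, hW'e]
    tauto
  obtain ⟨a, ha, b, hb, hab, hne⟩ := h u c hcyc hcl
  have key : ∀ b, b ∈ W.support → G.Adj u b → s(u, b) ∈ c.edges := by
    intro b hb hub
    rcases hWM b hb with h1 | h1 | h1
    · exact absurd hub (huC b h1)
    · rw [show b = x from h1]
      exact hce _ (Or.inl rfl)
    · rw [show b = y from h1, Sym2.eq_swap]
      exact hce _ (Or.inr (Or.inl rfl))
  apply hne
  rcases hcs a ha with ha1 | ha1
  · rcases hcs b hb with hb1 | hb1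
    · rw [ha1, hb1] at hab
      exact absurd hab G.irrefl
    · rw [ha1] at hab ⊢
      exact key b hb1 hab
  · rcases hcs b hb with hb1 | hb1
    · rw [hb1] at hab ⊢
      rw [Sym2.eq_swap]
      exact key a ha1 hab.symm
    · apply hce
      right; right
      exact chordalsep_chord W hWl ha1 hb1 ⟨hab, hWM a ha1, hWM b hb1⟩

end Pool.Agent.Spanner3
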