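import Pool.Agent.Lib_MP_b5064f_t3.Grow

set_option autoImplicit false

/-!
# Piece DECL: the choices of the algorithm are good
-/

namespace Pool.Agent.Spanner3

open Relation

variable {n : ℕ} {a : ℕ → ℕ → Bool} {G : SimpleGraph (Fin n)}

/-- The element `m` of `Fin n`, or `v` if `m` is too large. -/
def toF (v : Fin n) (m : ℕ) : Fin n := if h : m < n then ⟨m, h⟩ else v

theorem coe_toF (v : Fin n) {m : ℕ} (h : m < n) : ((toF v m : Fin n) : ℕ) = m := by
  simp [toF, h]

theorem oL_lt (hn : 0 < n) {K : List ℕ} (hK : ∀ x ∈ K, x < n) (v : ℕ) : oL n a K v < n := by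
  unfold oL
  exact fstL_lt hn (fun x hx => hK x (List.mem_filter.1 hx).1)

/-- The choices of the algorithm. -/
def decL (n : ℕ) (a : ℕ → ℕ → Bool) : Dec (Fin n) where
  K0 := setL (growL n a [])
  o0 v := toF v (oL n a (growL n a []) v)
  K u w := setL (KL n a u w)
  o u w v := toF v (oL n a (KL n a u w) v)

theorem decL_out (ha : Mat a G) {r : Fin n → ℕ} (hr : IsPEO G r) {K : List ℕ}
    (hK : ∀ x ∈ K, x < n) (hmax : MaxCl G (setL K : Set (Fin n))) {v : Fin n}
    (hv : v ∉ (setL K : Set (Fin n))) :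
    toF v (oL n a K v) ∈ (setL K : Set (Fin n)) ∧
      toF v (oL n a K v) ∉ nb G (comp G (setL K) v) := by
  have hn : 0 < n := lt_of_le_of_lt (Nat.zero_le _) v.isLt
  obtain ⟨o, ho, ho'⟩ := exists_out hr hmax hv
  have hnb : LRep (nbL n a (compL n a K v)) (nb G (comp G (setL K : Set (Fin n)) v)) :=
    lrep_nb ha (lrep_comp ha (lrep_setL hK) v)
  have hmem : (o : ℕ) ∈ K.filter (fun x => !mm x (nbL n a (compL n a K v))) := by
    rw [List.mem_filter, Bool.not_eq_true', Bool.eq_false_iff, Ne, mm_iff, hnb.2 o]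
    exact ⟨ho, ho'⟩
  have hlt := oL_lt (a := a) hn hK (v : ℕ)
  have hc : ((toF v (oL n a K v) : Fin n) : ℕ) = oL n a K v := coe_toF v hlt
  have hf := fstL_mem hmem
  rw [List.mem_filter, Bool.not_eq_true', Bool.eq_false_iff, Ne, mm_iff] at hf
  constructor
  · change ((toF v (oL n a K v) : Fin n) : ℕ) ∈ K
    rw [hc]
    exact hf.1
  · rw [← hnb.2, hc]
    exact hf.2

theorem decL_w0 (ha : Mat a G) {r : Fin n → ℕ} (hr : IsPEO G r) {u w : Fin n} (huw : u ≠ w)
    (h : ¬ G.Adj u w) : ∃ z : Fin n, (z : ℕ) = w0L n a u w ∧ z ∈ CC G u w ∧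
      ∀ s ∈ SS G u w, G.Adj s z := by
  obtain ⟨z0, hz0, hz0'⟩ := exists_full hr huw h
  have hC := lrep_C ha u w
  have hS := lrep_S ha u w
  have hmem : (z0 : ℕ) ∈ (CL n a u w).filter (fun x => (SL n a u w).all (fun s => a s x)) := by
    rw [List.mem_filter, List.all_eq_true]
    refine ⟨(hC.2 z0).2 hz0, fun s hs => ?_⟩
    have hs' := hS.1 s hs
    exact (ha ⟨s, hs'⟩ z0).2 (hz0' ⟨s, hs'⟩ ((hS.2 ⟨s, hs'⟩).1 hs))
  have hf := fstL_mem hmem
  rw [List.mem_filter, List.all_eq_true] at hf
  have hlt := hC.1 _ hf.1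
  refine ⟨⟨_, hlt⟩, rfl, (hC.2 ⟨_, hlt⟩).1 hf.1, fun s hs => ?_⟩
  exact (ha s ⟨_, hlt⟩).1 (hf.2 s ((hS.2 s).2 hs))

/-- PROOF. `out` (root and nodes): `v ∉ K`; by `exists_out` there is `o ∈ K` outside
`nb G (comp G K v)`, so the filtered list in `oL` is not empty (`lrep_comp`, `lrep_nb`), and its
first element (`fstL_mem`) is an element of `K` outside the neighbourhood.
Root: `K` is a maximal clique by `growL_max` with `Q = []`; it is not empty: otherwise every
`z : Fin n` (`0 < n`) contradicts the maximality. `S = ∅`, `C = univ`.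
Node `(u, w)`, `u ≠ w`, not adjacent: `SS G u w` is a clique (`SS_clique`); by `exists_full` there
is an element of `CC G u w` adjacent to all of it, so the filtered list in `w0L` is not empty and
`w0L` is such an element; so `w0L :: SL` is a clique, contained in `KL` (`subset_growL`), and `KL`
is a maximal clique (`growL_max`) which contains `w0L ∈ CC G u w`. `disj`: by definition of `nb`.
`clos`: by definition of `nb`. -/
theorem goodDec (ha : Mat a G) {r : Fin n → ℕ} (hr : IsPEO G r) (hn : 0 < n) :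
    GoodDec G (decL n a) := by
  constructor
  · have hlt : ∀ x ∈ growL n a [], x < n := growL_lt (by simp)
    have hmax : MaxCl G (setL (growL n a []) : Set (Fin n)) :=
      growL_max ha (by simp) (by
        intro x hx
        exact absurd (show (x : ℕ) ∈ [] from hx) (by simp))
    refine ⟨hmax, ?_, ?_, ?_, ?_, ?_⟩
    · intro x hx
      exact absurd hx (Set.notMem_empty x)
    · intro x hx
      exact absurd hx (Set.notMem_empty x)
    · intro c _ x _
      exact Or.inl (Set.mem_univ x)
    · by_contra hcon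
      have hz : (⟨0, hn⟩ : Fin n) ∉ (setL (growL n a []) : Set (Fin n)) := fun hz =>
        hcon ⟨_, hz, Set.mem_univ _⟩
      obtain ⟨x, hx, _⟩ := hmax.2 _ hz
      exact hcon ⟨x, hx, Set.mem_univ _⟩
    · intro v _ hv
      exact decL_out ha hr hlt hmax hv
  · intro u w huw h
    obtain ⟨z, hz, hzC, hzS⟩ := decL_w0 ha hr huw h
    have hS := lrep_S ha u w
    have hC := lrep_C ha u w
    have hQ : ∀ x ∈ w0L n a u w :: SL n a u w, x < n := by
      intro x hx
      rcases List.mem_cons.1 hx with h1 | h1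
      · rw [h1, ← hz]
        exact z.isLt
      · exact hS.1 x h1
    have hcl : ∀ x ∈ (setL (w0L n a u w :: SL n a u w) : Set (Fin n)),
        ∀ y ∈ (setL (w0L n a u w :: SL n a u w) : Set (Fin n)), x ≠ y → G.Adj x y := by
      intro x hx y hy hxy
      have hx' : (x : ℕ) ∈ w0L n a u w :: SL n a u w := hx
      have hy' : (y : ℕ) ∈ w0L n a u w :: SL n a u w := hy
      rcases List.mem_cons.1 hx' with h1 | h1 <;> rcases List.mem_cons.1 hy' with h2 | h2
      · exact absurd (Fin.ext (h1.trans h2.symm)) hxy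
      · have : x = z := Fin.ext (h1.trans hz.symm)
        rw [this]
        exact (hzS y ((hS.2 y).1 h2)).symm
      · have : y = z := Fin.ext (h2.trans hz.symm)
        rw [this]
        exact hzS x ((hS.2 x).1 h1)
      · exact SS_clique hr huw h x ((hS.2 x).1 h1) y ((hS.2 y).1 h2) hxy
    have hmax : MaxCl G (setL (KL n a u w) : Set (Fin n)) := growL_max ha hQ hcl
    refine ⟨hmax, ?_, ?_, ?_, ?_, ?_⟩
    · intro x hx
      change (x : ℕ) ∈ KL n a u w
      exact subset_growL _ (List.mem_cons_of_mem _ ((hS.2 x).2 hx))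
    · intro x hx
      exact hx.1
    · intro c hc x hcx
      by_cases hxC : x ∈ CC G u w
      · exact Or.inl hxC
      · exact Or.inr ⟨hxC, c, hc, hcx⟩
    · refine ⟨z, ?_, hzC⟩
      change (z : ℕ) ∈ KL n a u w
      refine subset_growL _ ?_
      rw [hz]
      exact List.mem_cons_self
    · intro v _ hv
      exact decL_out ha hr (KL_lt ha u w) hmax hv

end Pool.Agent.Spanner3
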