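import Mathlib

set_option autoImplicit false

/-!
# TREE 3-SPANNER on chordal graphs: the dynamic program, definitions

`G` is a connected chordal graph on the finite type `V` (given by a perfect elimination
ordering). A spanning tree `T ≤ G` is a tree 3-spanner iff every maximal clique `K` of `G` is
COVERED by an edge `pq` of `T`: every vertex of `K` is `p`, or `q`, or attached in `T` to `p` or
to `q`.

Nodes of the recursion: the root (`C = V`, `S = ∅`) and the pairs `(u, w)` with `w` not in the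
closed neighbourhood of `u`: `C = CC u w` is the component of `w` in `G - N[u]`,
`S = SS u w = N(C)`, a clique. Each node has a maximal clique `K` with `S ⊆ K`, which meets `C`
(then `K ⊆ S ∪ C`). The children of a node are the components `D` of `G - K` which lie in `C`;
`D = CC o v`, `N(D) = SS o v` for `v ∈ D` and for every `o ∈ K` without neighbours in `D`.

Table: `R u w p q x y` (for `x, y ∈ S ∪ {p, q}`): every good labelling `B` of `S` (`B s` true:
`s` attached to `q`, `B s` false: `s` attached to `p`; `B q` is true and `B p` is false) with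
`B x` has `B y`. The good labellings are exactly those which respect all these implications.
-/

namespace Pool.Agent.Spanner3

open Relation

variable {V : Type}

/-- `K` is a maximal clique of `G`. -/
def MaxCl (G : SimpleGraph V) (K : Set V) : Prop :=
  (∀ x ∈ K, ∀ y ∈ K, x ≠ y → G.Adj x y) ∧ ∀ z, z ∉ K → ∃ x ∈ K, ¬ G.Adj z x

/-- Every element of `K` is `a` or `b` or a neighbour of `a` or of `b` in `T`. -/
def Cov (T : SimpleGraph V) (a b : V) (K : Set V) : Prop :=
  ∀ x ∈ K, x = a ∨ x = b ∨ T.Adj x a ∨ T.Adj x b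

/-- `T` covers all the maximal cliques of `G` which meet `C`. -/
def CovAll (G T : SimpleGraph V) (C : Set V) : Prop :=
  ∀ K, MaxCl G K → (∃ x ∈ K, x ∈ C) → ∃ a b, T.Adj a b ∧ Cov T a b K

/-- `T` is a good tree: a spanning tree of `G` which covers all maximal cliques of `G`. -/
def Good (G T : SimpleGraph V) : Prop := T ≤ G ∧ T.IsTree ∧ CovAll G T Set.univ

/-- `G` is chordal: every cycle of length at least 4 has a chord. -/
def IsChordal (G : SimpleGraph V) : Prop :=
  ∀ (v : V) (c : G.Walk v v), c.IsCycle → 4 ≤ c.length →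
    ∃ x ∈ c.support, ∃ y ∈ c.support, G.Adj x y ∧ s(x, y) ∉ c.edges

/-- `r` is (the rank function of) a perfect elimination ordering of `G`. -/
def IsPEO (G : SimpleGraph V) (r : V → ℕ) : Prop :=
  Function.Injective r ∧
    ∀ v x y, G.Adj v x → G.Adj v y → r v < r x → r v < r y → x ≠ y → G.Adj x y

/-- The vertices reachable from `w` by edges of `G` whose end is not in `X`: for `w ∉ X` this is
the component of `w` in `G - X`. -/
def comp (G : SimpleGraph V) (X : Set V) (w : V) : Set V :=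
  {x | ReflTransGen (fun a b => G.Adj a b ∧ b ∉ X) w x}

/-- The neighbourhood of a set of vertices. -/
def nb (G : SimpleGraph V) (C : Set V) : Set V := {s | s ∉ C ∧ ∃ c ∈ C, G.Adj c s}

/-- The component of `w` in `G` minus the closed neighbourhood of `u`. -/
def CC (G : SimpleGraph V) (u w : V) : Set V := comp G {x | x = u ∨ G.Adj u x} w

/-- The neighbourhood of `CC G u w`. -/
def SS (G : SimpleGraph V) (u w : V) : Set V := nb G (CC G u w)

/-- A node of the recursion. -/
structure Node (V : Type) where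
  /-- the component -/
  C : Set V
  /-- the separator -/
  S : Set V
  /-- the chosen maximal clique -/
  K : Set V
  /-- for `v ∈ C \ K`: a vertex of `K` without neighbours in the component of `v` in `G - K` -/
  o : V → V

/-- The choices of the algorithm. -/
structure Dec (V : Type) where
  /-- the clique of the root -/
  K0 : Set V
  /-- outer centres at the root -/
  o0 : V → V
  /-- the clique of the node `(u, w)` -/
  K : V → V → Set V
  /-- outer centres at the node `(u, w)` -/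
  o : V → V → V → V

/-- The root node. -/
def root (d : Dec V) : Node V := ⟨Set.univ, ∅, d.K0, d.o0⟩

/-- The node `(u, w)`. -/
def node (G : SimpleGraph V) (d : Dec V) (u w : V) : Node V :=
  ⟨CC G u w, SS G u w, d.K u w, d.o u w⟩

/-- The conditions on a node. -/
structure GoodNode (G : SimpleGraph V) (N : Node V) : Prop where
  maxcl : MaxCl G N.K
  SK : ∀ x ∈ N.S, x ∈ N.K
  disj : ∀ x ∈ N.S, x ∉ N.C
  clos : ∀ c ∈ N.C, ∀ x, G.Adj c x → x ∈ N.C ∨ x ∈ N.S
  meet : ∃ x ∈ N.K, x ∈ N.C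
  out : ∀ v ∈ N.C, v ∉ N.K → N.o v ∈ N.K ∧ N.o v ∉ nb G (comp G N.K v)

/-- The conditions on the choices. -/
def GoodDec (G : SimpleGraph V) (d : Dec V) : Prop :=
  GoodNode G (root d) ∧ ∀ u w, u ≠ w → ¬ G.Adj u w → GoodNode G (node G d u w)

/-- The tables of the dynamic program. -/
abbrev Tab (V : Type) := V → V → V → V → V → V → Prop

/-- The implications at a node, for the covering edge `pq` of its clique. -/
def Dr (G : SimpleGraph V) (t : Tab V) (N : Node V) (p q x y : V) : Prop :=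
  (x = q ∧ y ∈ N.K ∧ y ≠ p ∧ y ≠ q ∧ ¬ G.Adj p y) ∨
  (x ∈ N.K ∧ x ≠ p ∧ x ≠ q ∧ ¬ G.Adj q x ∧ y = p) ∨
  ∃ v, v ∈ N.C ∧ v ∉ N.K ∧ (x = p ∨ x = q ∨ x ∈ SS G (N.o v) v) ∧
    (y = p ∨ y = q ∨ y ∈ SS G (N.o v) v) ∧ t (N.o v) v p q x y

/-- There is a labelling closed under the implications, true on `one`, false on `zero`. -/
def Sat (G : SimpleGraph V) (t : Tab V) (N : Node V) (p q : V) (one zero : Set V) : Prop :=
  ∀ x y, (x = q ∨ x ∈ one) → (y = p ∨ y ∈ zero) → ¬ ReflTransGen (Dr G t N p q) x y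

/-- All of `S` can be attached to `c ∈ S ∪ C`. -/
def StarIn (G : SimpleGraph V) (t : Tab V) (N : Node V) (c : V) : Prop :=
  ∃ p q, G.Adj p q ∧ (p ∈ N.S ∨ p ∈ N.C) ∧ (q ∈ N.S ∨ q ∈ N.C) ∧ (p ∈ N.K ∨ q ∈ N.K) ∧
    (c = p ∨ c = q ∨ (c ∈ N.K ∧ ∀ s ∈ N.S, s ≠ c → s = p ∨ s = q)) ∧
    Sat G t N p q
      {x | (c = q ∧ x ∈ N.S ∧ x ≠ p ∧ x ≠ q) ∨ (c ≠ p ∧ c ≠ q ∧ x = c ∧ q ∈ N.S)}
      {x | (c = p ∧ x ∈ N.S ∧ x ≠ p ∧ x ≠ q) ∨ (c ≠ p ∧ c ≠ q ∧ x = c ∧ p ∈ N.S)}

/-- All of `S` can be attached to `c`. -/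
def StarS (G : SimpleGraph V) (t : Tab V) (N : Node V) (c : V) : Prop :=
  ((c ∈ N.S ∨ c ∈ N.C) ∧ StarIn G t N c) ∨
  (c ∉ N.S ∧ c ∉ N.C ∧ ((∃ s ∈ N.S, (∀ s' ∈ N.S, s' = s) ∧ StarIn G t N s) ∨
    ∃ z ∈ N.S, Sat G t N z c {x | x ∈ N.S ∧ x ≠ z} {x | x ∈ N.K ∧ x ∉ N.S}))

/-- The new implications. -/
def RS (G : SimpleGraph V) (t : Tab V) (N : Node V) (p q x y : V) : Prop :=
  (∃ a b, (a = q ∨ a = x) ∧ (b = p ∨ b = y) ∧ ReflTransGen (Dr G t N p q) a b) ∧
  ¬ (q ∉ N.C ∧ StarS G t N p ∧ x = q ∧ y ≠ q) ∧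
  ¬ (p ∉ N.C ∧ StarS G t N q ∧ y = p ∧ x ≠ p)

/-- One step of the dynamic program. -/
def step (G : SimpleGraph V) (d : Dec V) (t : Tab V) : Tab V :=
  fun u w p q x y => RS G t (node G d u w) p q x y

/-- The tables. -/
def val (G : SimpleGraph V) (d : Dec V) : ℕ → Tab V
  | 0 => fun _ _ _ _ _ _ => False
  | k + 1 => step G d (val G d k)

/-- The answer of the dynamic program for the table `t`. -/
def Feas (G : SimpleGraph V) (d : Dec V) (t : Tab V) : Prop :=
  ∃ p q, G.Adj p q ∧ (p ∈ d.K0 ∨ q ∈ d.K0) ∧ Sat G t (root d) p q ∅ ∅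

/-! ### Specifications -/

/-- `(u, w)` is a node whose component has at most `k` elements. -/
def Small (G : SimpleGraph V) (k : ℕ) (u w : V) : Prop :=
  u ≠ w ∧ ¬ G.Adj u w ∧ (CC G u w).ncard ≤ k

/-- The labelling `B` respects the implications of `t` at `(u, w)`. -/
def Lab (G : SimpleGraph V) (t : Tab V) (u w p q : V) (B : V → Prop) : Prop :=
  ∀ x y, (x = p ∨ x = q ∨ x ∈ SS G u w) → (y = p ∨ y = q ∨ y ∈ SS G u w) →
    t u w p q x y → B x → B y

/-- `pq` is an edge of `T` and the elements of `A` are attached to `q` (label true) or to `p`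
(label false). -/
def Dbl (T : SimpleGraph V) (p q : V) (B : V → Prop) (A : Set V) : Prop :=
  T.Adj p q ∧ ∀ v ∈ A, v ≠ p → v ≠ q → (B v → T.Adj v q) ∧ (¬ B v → T.Adj v p)

/-- There are at most `m` edges of `G` such that every graph `T` satisfying `hyp` and containing
them connects `c` to all the vertices of `C` and covers all maximal cliques meeting `C`. -/
def Ext (G : SimpleGraph V) (C : Set V) (m : ℕ) (hyp : SimpleGraph V → Prop) (c : V) : Prop :=
  ∃ Y : Finset (Sym2 V), (∀ e ∈ Y, e ∈ G.edgeSet) ∧ Y.card ≤ m ∧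
    ∀ T : SimpleGraph V, hyp T → (∀ e ∈ Y, e ∈ T.edgeSet) →
      (∀ x ∈ C, T.Reachable c x) ∧ CovAll G T C

/-- The table `t` is sound for components with at most `k` elements: the labellings which
respect it can be realised. -/
def SoundTab (G : SimpleGraph V) (k : ℕ) (t : Tab V) : Prop :=
  ∀ u w, Small G k u w → ∀ (p q : V) (B : V → Prop), p ≠ q → (p ∉ CC G u w ∨ q ∉ CC G u w) →
    (G.Adj p q ∨ (p ∉ CC G u w ∧ q ∉ CC G u w)) → B q → ¬ B p → Lab G t u w p q B →
    Ext G (CC G u w) ((CC G u w \ {p, q}).ncard) (fun T => Dbl T p q B (SS G u w)) p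

/-- The labelling of a tree. -/
def BT (T : SimpleGraph V) (p q : V) (x : V) : Prop := x = q ∨ (x ≠ p ∧ T.Adj x q)

/-- The table `t` is complete for components with at most `k` elements and for the tree `T`: the
labellings given by `T` respect it. -/
def CompTab (G T : SimpleGraph V) (k : ℕ) (t : Tab V) : Prop :=
  ∀ u w, Small G k u w → ∀ p q : V, T.Adj p q → Cov T p q (SS G u w) →
    (p ∉ CC G u w ∨ q ∉ CC G u w) →
    (q ∈ CC G u w → ∃ s ∈ SS G u w, s ≠ p ∧ T.Adj s q) →
    (p ∈ CC G u w → ∃ s ∈ SS G u w, s ≠ q ∧ T.Adj s p) →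
    Lab G t u w p q (BT T p q)

end Pool.Agent.Spanner3
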