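import Pool.Agent.Lib_MP_b5064f_t3.ListSets

set_option autoImplicit false

/-!
# Recognition of chordal graphs by elimination of simplicial vertices, and connectivity
-/

namespace Pool.Agent.Spanner3

open Relation

/-- is `z` simplicial in `L`? -/
def simpB (a : ℕ → ℕ → Bool) (L : List ℕ) (z : ℕ) : Bool :=
  L.all (fun x => L.all (fun y => !a z x || (!a z y || (decide (x = y) || a x y))))

/-- remove the first simplicial element -/
def elimStep (a : ℕ → ℕ → Bool) (L : List ℕ) : List ℕ :=
  L.filter (fun x => !(simpB a L x && decide (x = fstL (L.filter (simpB a L)))))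

/-- the elimination succeeds -/
def chordB (n : ℕ) (a : ℕ → ℕ → Bool) : Bool := ((elimStep a)^[n] (List.range n)).isEmpty

/-- all vertices are reachable from `0` -/
def connB (n : ℕ) (a : ℕ → ℕ → Bool) : Bool :=
  (List.range n).all (fun v => mm v (reachL n a [0]))

variable {n : ℕ} {a : ℕ → ℕ → Bool} {G : SimpleGraph (Fin n)}

theorem simpB_iff (ha : Mat a G) {L : List ℕ} (hL : ∀ x ∈ L, x < n) (z : Fin n) :
    simpB a L z = true ↔ ∀ x y : Fin n, (x : ℕ) ∈ L → (y : ℕ) ∈ L → G.Adj z x → G.Adj z y →
      x ≠ y → G.Adj x y := by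
  unfold simpB
  simp only [List.all_eq_true, Bool.or_eq_true, Bool.not_eq_true', decide_eq_true_eq]
  constructor
  · intro h x y hx hy h1 h2 hxy
    rcases h x hx y hy with h3 | h3 | h3 | h3
    · rw [(ha z x).2 h1] at h3; exact absurd h3 (by simp)
    · rw [(ha z y).2 h2] at h3; exact absurd h3 (by simp)
    · exact absurd (Fin.ext h3) hxy
    · exact (ha x y).1 h3
  · intro h x hx y hy
    have hxn := hL x hx
    have hyn := hL y hy
    by_cases h1 : a z x = true
    · by_cases h2 : a z y = true
      · by_cases h3 : x = y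
        · exact Or.inr (Or.inr (Or.inl h3))
        · exact Or.inr (Or.inr (Or.inr ((ha ⟨x, hxn⟩ ⟨y, hyn⟩).2 (h ⟨x, hxn⟩ ⟨y, hyn⟩ hx hy
            ((ha z ⟨x, hxn⟩).1 h1) ((ha z ⟨y, hyn⟩).1 h2) (by simpa [Fin.ext_iff] using h3)))))
      · exact Or.inr (Or.inl (by simpa using h2))
    · exact Or.inl (by simpa using h1)

theorem mem_elimStep {L : List ℕ} {x : ℕ} : x ∈ elimStep a L ↔
    x ∈ L ∧ ¬ (simpB a L x = true ∧ x = fstL (L.filter (simpB a L))) := by
  unfold elimStep
  rw [List.mem_filter, Bool.not_eq_true', ← Bool.not_eq_true, Bool.and_eq_true,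
    decide_eq_true_eq]

theorem elim_peo (ha : Mat a G) (m : ℕ) : ∀ L : List ℕ, (∀ x ∈ L, x < n) →
    (elimStep a)^[m] L = [] → ∃ r : Fin n → ℕ,
      (∀ x y : Fin n, (x : ℕ) ∈ L → (y : ℕ) ∈ L → r x = r y → x = y) ∧
      ∀ v x y : Fin n, (v : ℕ) ∈ L → (x : ℕ) ∈ L → (y : ℕ) ∈ L → G.Adj v x → G.Adj v y →
        r v < r x → r v < r y → x ≠ y → G.Adj x y := by
  classical
  induction m with
  | zero =>
    intro L _ h
    have hL : L = [] := h
    subst hL
    exact ⟨fun _ => 0, fun x y hx => by simp at hx, fun v x y hv => by simp at hv⟩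
  | succ m ih =>
    intro L hL h
    rw [Function.iterate_succ_apply] at h
    have hL' : ∀ x ∈ elimStep a L, x < n := fun x hx => hL x (mem_elimStep.1 hx).1
    obtain ⟨r, h1, h2⟩ := ih _ hL' h
    by_cases hz : ∃ z : Fin n, (z : ℕ) ∈ L ∧ (z : ℕ) ∉ elimStep a L
    · obtain ⟨z, hzL, hz'⟩ := hz
      rw [mem_elimStep] at hz'
      push Not at hz'
      obtain ⟨hzs, hzf⟩ := hz' hzL
      have hrest : ∀ x : Fin n, (x : ℕ) ∈ L → x ≠ z → (x : ℕ) ∈ elimStep a L := by
        intro x hx hxz
        refine mem_elimStep.2 ⟨hx, fun h => hxz (Fin.ext ?_)⟩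
        rw [h.2, ← hzf]
      refine ⟨fun v => if v = z then 0 else r v + 1, ?_, ?_⟩
      · intro x y hx hy hxy
        by_cases e1 : x = z
        · by_cases e2 : y = z
          · rw [e1, e2]
          · simp [e1, e2] at hxy
        · by_cases e2 : y = z
          · simp [e1, e2] at hxy
          · simp only [e1, e2, if_false, Nat.add_right_cancel_iff] at hxy
            exact h1 x y (hrest x hx e1) (hrest y hy e2) hxy
      · intro v x y hv hx hy hvx hvy r1 r2 hxy
        by_cases e0 : v = z
        · subst e0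
          exact (simpB_iff ha hL v).1 hzs x y hx hy hvx hvy hxy
        · have e1 : x ≠ z := by
            rintro rfl
            simp at r1
          have e2 : y ≠ z := by
            rintro rfl
            simp at r2
          simp only [e0, e1, e2, if_false, Nat.add_lt_add_iff_right] at r1 r2
          exact h2 v x y (hrest v hv e0) (hrest x hx e1) (hrest y hy e2) hvx hvy r1 r2 hxy
    · push Not at hz
      exact ⟨r, fun x y hx hy => h1 x y (hz x hx) (hz y hy),
        fun v x y hv hx hy => h2 v x y (hz v hv) (hz x hx) (hz y hy)⟩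

theorem elim_empty (ha : Mat a G) {r : Fin n → ℕ} (hr : IsPEO G r) (m : ℕ) :
    ∀ L : List ℕ, (∀ x ∈ L, x < n) → L.length ≤ m → (elimStep a)^[m] L = [] := by
  classical
  induction m with
  | zero =>
    intro L _ h
    exact List.eq_nil_of_length_eq_zero (by simpa using h)
  | succ m ih =>
    intro L hL h
    rw [Function.iterate_succ_apply]
    have hL' : ∀ x ∈ elimStep a L, x < n := fun x hx => hL x (mem_elimStep.1 hx).1
    refine ih _ hL' ?_
    by_cases hne : L = []
    · subst hne
      simp [elimStep]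
    · have hlt : (elimStep a L).length < L.length := by
        obtain ⟨x0, hx0⟩ := List.exists_mem_of_ne_nil L hne
        obtain ⟨z, hz, hmin⟩ := Finset.exists_min_image
          (Finset.univ.filter (fun z : Fin n => (z : ℕ) ∈ L)) r
          ⟨⟨x0, hL x0 hx0⟩, by simpa using hx0⟩
        have hzL : (z : ℕ) ∈ L := by simpa using hz
        have hs : simpB a L z = true := by
          rw [simpB_iff ha hL]
          intro x y hx hy hzx hzy hxy
          have k1 : r z < r x := lt_of_le_of_ne (hmin x (by simpa using hx))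
            (fun h => hzx.ne (hr.1 h))
          have k2 : r z < r y := lt_of_le_of_ne (hmin y (by simpa using hy))
            (fun h => hzy.ne (hr.1 h))
          exact hr.2 z x y hzx hzy k1 k2 hxy
        have hmem : fstL (L.filter (simpB a L)) ∈ L.filter (simpB a L) :=
          fstL_mem (List.mem_filter.2 ⟨hzL, hs⟩)
        rw [List.mem_filter] at hmem
        unfold elimStep
        rw [List.length_filter_lt_length_iff_exists]
        exact ⟨_, hmem.1, by simp [hmem.2]⟩
      omega

theorem chordB_iff (ha : Mat a G) : chordB n a = true ↔ ∃ r : Fin n → ℕ, IsPEO G r := by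
  unfold chordB
  rw [List.isEmpty_iff]
  constructor
  · intro h
    obtain ⟨r, h1, h2⟩ := elim_peo ha n _ (fun x hx => List.mem_range.1 hx) h
    exact ⟨r, fun x y hxy => h1 x y (by simp) (by simp) hxy,
      fun v x y => h2 v x y (by simp) (by simp) (by simp)⟩
  · rintro ⟨r, hr⟩
    exact elim_empty ha hr n _ (fun x hx => List.mem_range.1 hx) (by simp)

theorem connB_iff (ha : Mat a G) (hn : 0 < n) : connB n a = true ↔ G.Connected := by
  have key : ∀ j : Fin n, (j : ℕ) ∈ reachL n a [0] ↔ G.Reachable ⟨0, hn⟩ j := by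
    intro j
    rw [mem_reachL_fin (R := G.Adj) (fun i j => ha i j) (by simpa using hn),
      SimpleGraph.reachable_iff_reflTransGen]
    constructor
    · rintro ⟨i, hi, h⟩
      have : i = ⟨0, hn⟩ := Fin.ext (by simpa using hi)
      rwa [this] at h
    · exact fun h => ⟨⟨0, hn⟩, by simp, h⟩
  unfold connB
  rw [List.all_eq_true]
  constructor
  · intro h
    have h0 : ∀ j : Fin n, G.Reachable ⟨0, hn⟩ j := fun j =>
      (key j).1 (mm_iff.1 (h j (List.mem_range.2 j.2)))
    have : Nonempty (Fin n) := ⟨⟨0, hn⟩⟩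
    exact ⟨fun x y => (h0 x).symm.trans (h0 y)⟩
  · intro h v hv
    exact mm_iff.2 ((key ⟨v, List.mem_range.1 hv⟩).2 (h.preconnected _ _))

end Pool.Agent.Spanner3
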