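import Pool.Agent.Lib_MP_b5064f_t3.DecL

set_option autoImplicit false

/-!
# Piece EQUIVDR: implications and satisfiability
-/

namespace Pool.Agent.Spanner3

open Relation

variable {n : ℕ} {a : ℕ → ℕ → Bool} {G : SimpleGraph (Fin n)}

/-- The lists `C, S, K` represent the node `N`. -/
structure NRep (n : ℕ) (a : ℕ → ℕ → Bool) (C S K : List ℕ) (N : Node (Fin n)) : Prop where
  hC : LRep C N.C
  hS : LRep S N.S
  hK : LRep K N.K
  ho : ∀ v : Fin n, N.o v = toF v (oL n a K v)

/-- The list `T` represents the table `t`. -/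
def TRep (T : List Key) (t : Tab (Fin n)) : Prop :=
  ∀ u w p q x y : Fin n, look T ((u : ℕ), (w : ℕ), (p : ℕ), (q : ℕ), (x : ℕ), (y : ℕ)) = true ↔
    t u w p q x y

theorem nrep_root (a : ℕ → ℕ → Bool) :
    NRep n a (List.range n) [] (growL n a []) (root (decL n a)) where
  hC := ⟨fun x hx => List.mem_range.1 hx, fun i => by simp [root]⟩
  hS := ⟨fun x hx => by simp at hx, fun i => by simp [root]⟩
  hK := lrep_setL (growL_lt (fun x hx => by simp at hx))
  ho := fun v => rfl

theorem nrep_node (ha : Mat a G) (u w : Fin n) :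
    NRep n a (CL n a u w) (SL n a u w) (KL n a u w) (node G (decL n a) u w) where
  hC := lrep_C ha u w
  hS := lrep_S ha u w
  hK := lrep_setL (KL_lt ha u w)
  ho := fun v => rfl

/-- PROOF: unfold both sides; `mm_iff`, `decide_eq_true_eq`, `List.any_eq_true`; natural numbers
`v ∈ C` are `< n` (`hC.1`), and then `oL n a K v = N.o v` by `coe_toF`, `oL_lt`; `lrep_S` for the
separators of the children; `Fin.ext_iff`. -/
theorem DrB_iff (ha : Mat a G) {T : List Key} {t : Tab (Fin n)} (hT : TRep T t)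
    {C S K : List ℕ} {N : Node (Fin n)} (hN : NRep n a C S K N) (p q x y : Fin n) :
    DrB n a T C K p q x y = true ↔ Dr G t N p q x y := by
  have hpos : 0 < n := p.pos
  have hap : ∀ i j : Fin n, a i j = false ↔ ¬ G.Adj i j := by
    intro i j
    rw [← ha i j]
    simp
  have e3 : (∃ v ∈ C, mm v K = false ∧
      ((x : ℕ) = p ∨ (x : ℕ) = q ∨ (x : ℕ) ∈ SL n a (oL n a K v) v) ∧
      ((y : ℕ) = p ∨ (y : ℕ) = q ∨ (y : ℕ) ∈ SL n a (oL n a K v) v) ∧
        look T (oL n a K v, v, p, q, x, y) = true) ↔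
      ∃ v, v ∈ N.C ∧ v ∉ N.K ∧ (x = p ∨ x = q ∨ x ∈ SS G (N.o v) v) ∧
        (y = p ∨ y = q ∨ y ∈ SS G (N.o v) v) ∧ t (N.o v) v p q x y := by
    constructor
    · rintro ⟨v, hvC, hvK, h1, h2, h3⟩
      have hvn := hN.hC.1 v hvC
      set v' : Fin n := ⟨v, hvn⟩ with hv'
      have ho : ((N.o v' : Fin n) : ℕ) = oL n a K v := by
        rw [hN.ho, coe_toF _ (oL_lt hpos hN.hK.1 _)]
      have hvv : (v' : ℕ) = v := rfl
      rw [← ho, ← hvv] at h1 h2 h3
      refine ⟨v', (hN.hC.2 v').1 hvC, ?_, ?_, ?_, (hT _ _ _ _ _ _).1 h3⟩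
      · intro h
        have := (hN.hK.2 v').2 h
        rw [← mm_iff, hvv, hvK] at this
        exact absurd this (by simp)
      · rw [(lrep_S ha (N.o v') v').2 x] at h1
        simpa [Fin.ext_iff] using h1
      · rw [(lrep_S ha (N.o v') v').2 y] at h2
        simpa [Fin.ext_iff] using h2
    · rintro ⟨v, hvC, hvK, h1, h2, h3⟩
      have ho : ((N.o v : Fin n) : ℕ) = oL n a K v := by
        rw [hN.ho, coe_toF _ (oL_lt hpos hN.hK.1 _)]
      refine ⟨v, (hN.hC.2 v).2 hvC, ?_, ?_, ?_, ?_⟩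
      · rw [← Bool.not_eq_true, mm_iff, hN.hK.2 v]
        exact hvK
      · rw [← ho, (lrep_S ha (N.o v) v).2 x]
        simpa [Fin.ext_iff] using h1
      · rw [← ho, (lrep_S ha (N.o v) v).2 y]
        simpa [Fin.ext_iff] using h2
      · rw [← ho]
        exact (hT _ _ _ _ _ _).2 h3
  unfold DrB Dr
  simp only [Bool.or_eq_true, Bool.and_eq_true, decide_eq_true_eq, Bool.not_eq_true',
    decide_eq_false_iff_not, List.any_eq_true, mm_iff, hN.hK.2, ← Fin.ext_iff]
  refine or_congr ?_ (or_congr ?_ ?_)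
  · rw [hap]
  · rw [hap]
  · rw [← e3]
    simp only [← Fin.ext_iff]

theorem SatB_iff (ha : Mat a G) {T : List Key} {t : Tab (Fin n)} (hT : TRep T t)
    {C S K : List ℕ} {N : Node (Fin n)} (hN : NRep n a C S K N) (p q : Fin n)
    {one zero : List ℕ} {A B : Set (Fin n)} (hA : LRep one A) (hB : LRep zero B) :
    SatB n a T C K p q one zero = true ↔ Sat G t N p q A B := by
  have hS : ∀ x ∈ ((q : ℕ) :: one), x < n := by
    intro x hx
    rcases List.mem_cons.1 hx with h | h
    · rw [h]; exact q.2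
    · exact hA.1 x h
  have key : ∀ j : Fin n, (j : ℕ) ∈ reachL n (DrB n a T C K p q) ((q : ℕ) :: one) ↔
      ∃ i : Fin n, (i = q ∨ i ∈ A) ∧ ReflTransGen (Dr G t N p q) i j := by
    intro j
    rw [mem_reachL_fin (fun i j => DrB_iff ha hT hN p q i j) hS]
    refine exists_congr fun i => and_congr ?_ Iff.rfl
    rw [List.mem_cons, hA.2 i, ← Fin.ext_iff]
  unfold SatB Sat
  rw [List.all_eq_true]
  constructor
  · intro h x y hx hy hc
    have hy' : (y : ℕ) ∈ ((p : ℕ) :: zero) := by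
      rw [List.mem_cons, hB.2 y, ← Fin.ext_iff]
      exact hy
    have h1 := h y hy'
    rw [Bool.not_eq_true', ← Bool.not_eq_true, mm_iff, key] at h1
    exact h1 ⟨x, hx, hc⟩
  · intro h y hy
    have hyn : y < n := by
      rcases List.mem_cons.1 hy with h' | h'
      · rw [h']; exact p.2
      · exact hB.1 y h'
    rw [Bool.not_eq_true', ← Bool.not_eq_true, mm_iff]
    intro h1
    obtain ⟨x, hx, hc⟩ := (key ⟨y, hyn⟩).1 h1
    refine h x ⟨y, hyn⟩ hx ?_ hc
    have := (List.mem_cons.1 hy)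
    rw [Fin.ext_iff]
    rcases this with h' | h'
    · exact Or.inl h'
    · exact Or.inr ((hB.2 ⟨y, hyn⟩).1 h')

end Pool.Agent.Spanner3
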