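import Pool.Agent.Lib_MP_b5064f_t3.EquivDr

set_option autoImplicit false

/-!
# Piece EQUIVSTAR: the star tests
-/

namespace Pool.Agent.Spanner3

open Relation

variable {n : ℕ} {a : ℕ → ℕ → Bool} {G : SimpleGraph (Fin n)}

theorem lrep_oneL {S : List ℕ} {A : Set (Fin n)} (hS : LRep S A) (c p q : Fin n) :
    LRep (oneL n S c p q)
      {x | (c = q ∧ x ∈ A ∧ x ≠ p ∧ x ≠ q) ∨ (c ≠ p ∧ c ≠ q ∧ x = c ∧ q ∈ A)} := by
  refine ⟨fun x hx => List.mem_range.1 (List.mem_filter.1 hx).1, fun i => ?_⟩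
  unfold oneL
  simp only [List.mem_filter, List.mem_range, i.2, true_and, Bool.or_eq_true, Bool.and_eq_true,
    decide_eq_true_eq, Bool.not_eq_true', decide_eq_false_iff_not, mm_iff, hS.2, ← Fin.ext_iff,
    Set.mem_ofPred_eq, ne_eq]

theorem StarInB_iff (ha : Mat a G) {T : List Key} {t : Tab (Fin n)} (hT : TRep T t)
    {C S K : List ℕ} {N : Node (Fin n)} (hN : NRep n a C S K N) (c : Fin n) :
    StarInB n a T C S K c = true ↔ StarIn G t N c := by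
  have e1 : ∀ p q : Fin n, (S.all (fun s => decide (s = (c : ℕ)) ||
      (decide (s = (p : ℕ)) || decide (s = (q : ℕ)))) = true) ↔
      ∀ s ∈ N.S, s ≠ c → s = p ∨ s = q := by
    intro p q
    rw [List.all_eq_true]
    constructor
    · intro h s hs hsc
      have := h s ((hN.hS.2 s).2 hs)
      simp only [Bool.or_eq_true, decide_eq_true_eq, ← Fin.ext_iff] at this
      rcases this with h' | h'
      · exact absurd h' hsc
      · exact h'
    · intro h s hs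
      have hsn := hN.hS.1 s hs
      have := h ⟨s, hsn⟩ ((hN.hS.2 ⟨s, hsn⟩).1 hs)
      simp only [Bool.or_eq_true, decide_eq_true_eq]
      simp only [Fin.ext_iff, ne_eq] at this
      tauto
  have hz : ∀ p q : Fin n,
      ({x | (c = p ∧ x ∈ N.S ∧ x ≠ q ∧ x ≠ p) ∨ (c ≠ q ∧ c ≠ p ∧ x = c ∧ p ∈ N.S)} :
        Set (Fin n)) =
      {x | (c = p ∧ x ∈ N.S ∧ x ≠ p ∧ x ≠ q) ∨ (c ≠ p ∧ c ≠ q ∧ x = c ∧ p ∈ N.S)} := by
    intro p q
    ext x
    constructor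
    · rintro (⟨h1, h2, h3, h4⟩ | ⟨h1, h2, h3, h4⟩)
      · exact Or.inl ⟨h1, h2, h4, h3⟩
      · exact Or.inr ⟨h2, h1, h3, h4⟩
    · rintro (⟨h1, h2, h3, h4⟩ | ⟨h1, h2, h3, h4⟩)
      · exact Or.inl ⟨h1, h2, h4, h3⟩
      · exact Or.inr ⟨h2, h1, h3, h4⟩
  unfold StarInB StarIn
  simp only [List.any_eq_true, List.mem_range]
  constructor
  · rintro ⟨p, hp, q, hq, h⟩
    refine ⟨⟨p, hp⟩, ⟨q, hq⟩, ?_⟩
    have hp' : ((⟨p, hp⟩ : Fin n) : ℕ) = p := rfl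
    have hq' : ((⟨q, hq⟩ : Fin n) : ℕ) = q := rfl
    rw [← hp', ← hq'] at h
    generalize (⟨p, hp⟩ : Fin n) = p' at *
    generalize (⟨q, hq⟩ : Fin n) = q' at *
    simp only [Bool.and_eq_true, Bool.or_eq_true, decide_eq_true_eq, mm_iff, hN.hS.2, hN.hC.2,
      hN.hK.2, ← Fin.ext_iff, e1] at h
    obtain ⟨h1, h2, h3, h4, h5, h6⟩ := h
    refine ⟨(ha _ _).1 h1, h2, h3, h4, h5, ?_⟩
    have h7 := (SatB_iff ha hT hN p' q' (lrep_oneL hN.hS c p' q') (lrep_oneL hN.hS c q' p')).1 h6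
    rw [hz p' q'] at h7
    exact h7
  · rintro ⟨p, q, h1, h2, h3, h4, h5, h6⟩
    refine ⟨p, p.2, q, q.2, ?_⟩
    simp only [Bool.and_eq_true, Bool.or_eq_true, decide_eq_true_eq, mm_iff, hN.hS.2, hN.hC.2,
      hN.hK.2, ← Fin.ext_iff, e1]
    refine ⟨(ha _ _).2 h1, h2, h3, h4, h5, ?_⟩
    refine (SatB_iff ha hT hN p q (lrep_oneL hN.hS c p q) (lrep_oneL hN.hS c q p)).2 ?_
    rw [hz p q]
    exact h6

theorem StarB_iff (ha : Mat a G) {T : List Key} {t : Tab (Fin n)} (hT : TRep T t)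
    {C S K : List ℕ} {N : Node (Fin n)} (hN : NRep n a C S K N) (c : Fin n) :
    StarB n a T C S K c = true ↔ StarS G t N c := by
  have e1 : (S.any (fun s => S.all (fun s' => decide (s' = s)) && StarInB n a T C S K s) = true) ↔
      ∃ s ∈ N.S, (∀ s' ∈ N.S, s' = s) ∧ StarIn G t N s := by
    rw [List.any_eq_true]
    constructor
    · rintro ⟨s, hs, h⟩
      have hsn := hN.hS.1 s hs
      rw [Bool.and_eq_true, List.all_eq_true] at h
      refine ⟨⟨s, hsn⟩, (hN.hS.2 ⟨s, hsn⟩).1 hs, fun s' hs' => ?_,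
        (StarInB_iff ha hT hN ⟨s, hsn⟩).1 h.2⟩
      have := h.1 s' ((hN.hS.2 s').2 hs')
      rw [decide_eq_true_eq] at this
      exact Fin.ext this
    · rintro ⟨s, hs, h1, h2⟩
      refine ⟨s, (hN.hS.2 s).2 hs, ?_⟩
      rw [Bool.and_eq_true, List.all_eq_true]
      refine ⟨fun s' hs' => ?_, (StarInB_iff ha hT hN s).2 h2⟩
      have hsn := hN.hS.1 s' hs'
      have := h1 ⟨s', hsn⟩ ((hN.hS.2 ⟨s', hsn⟩).1 hs')
      rw [decide_eq_true_eq, ← this]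
  have e2 : ∀ z : Fin n, (SatB n a T C K z c (S.filter (fun x => !decide (x = (z : ℕ))))
      (K.filter (fun x => !mm x S)) = true) ↔
      Sat G t N z c {x | x ∈ N.S ∧ x ≠ z} {x | x ∈ N.K ∧ x ∉ N.S} := by
    intro z
    refine SatB_iff ha hT hN z c ⟨fun x hx => hN.hS.1 x (List.mem_filter.1 hx).1, fun i => ?_⟩
      ⟨fun x hx => hN.hK.1 x (List.mem_filter.1 hx).1, fun i => ?_⟩
    · simp only [List.mem_filter, hN.hS.2, Bool.not_eq_true', decide_eq_false_iff_not,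
        ← Fin.ext_iff, Set.mem_ofPred_eq, ne_eq]
    · rw [List.mem_filter, hN.hK.2, Bool.not_eq_true', ← Bool.not_eq_true, mm_iff, hN.hS.2]
      rfl
  have e3 : (S.any (fun z => SatB n a T C K z c (S.filter (fun x => !decide (x = z)))
      (K.filter (fun x => !mm x S))) = true) ↔
      ∃ z ∈ N.S, Sat G t N z c {x | x ∈ N.S ∧ x ≠ z} {x | x ∈ N.K ∧ x ∉ N.S} := by
    rw [List.any_eq_true]
    constructor
    · rintro ⟨z, hz, h⟩
      have hzn := hN.hS.1 z hz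
      exact ⟨⟨z, hzn⟩, (hN.hS.2 ⟨z, hzn⟩).1 hz, (e2 ⟨z, hzn⟩).1 h⟩
    · rintro ⟨z, hz, h⟩
      exact ⟨z, (hN.hS.2 z).2 hz, (e2 z).2 h⟩
  have e4 : ∀ A : Set (Fin n), ∀ l : List ℕ, LRep l A → (mm (c : ℕ) l = false ↔ c ∉ A) := by
    intro A l hl
    rw [← Bool.not_eq_true, mm_iff, hl.2]
  unfold StarB StarS
  rw [Bool.or_eq_true, Bool.and_eq_true, Bool.and_eq_true, Bool.or_eq_true, Bool.or_eq_true,
    Bool.and_eq_true, e1, e3, StarInB_iff ha hT hN, mm_iff, mm_iff, hN.hS.2, hN.hC.2,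
    Bool.not_eq_true', Bool.not_eq_true', e4 _ _ hN.hS, e4 _ _ hN.hC, and_assoc]

end Pool.Agent.Spanner3
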