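import Pool.Agent.Lib_MP_b5064f_t3.EquivStar

set_option autoImplicit false

/-!
# Piece EQUIVSTEP: the tables
-/

namespace Pool.Agent.Spanner3

open Relation

variable {n : ℕ} {a : ℕ → ℕ → Bool} {G : SimpleGraph (Fin n)}

theorem equivstep_reach (ha : Mat a G) {T : List Key} {t : Tab (Fin n)} (hT : TRep T t)
    {C S K : List ℕ} {N : Node (Fin n)} (hN : NRep n a C S K N) (p q i j : Fin n) :
    (mm (j : ℕ) (reachL n (DrB n a T C K p q) [(i : ℕ)]) = true) ↔
      ReflTransGen (Dr G t N p q) i j := by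
  have hS : ∀ x ∈ [(i : ℕ)], x < n := by
    intro x hx
    rw [List.mem_singleton] at hx
    rw [hx]
    exact i.2
  rw [mm_iff, mem_reachL_fin (fun i j => DrB_iff ha hT hN p q i j) hS]
  constructor
  · rintro ⟨i', hi', h⟩
    rw [List.mem_singleton, ← Fin.ext_iff] at hi'
    rw [← hi']
    exact h
  · intro h
    exact ⟨i, List.mem_singleton.2 rfl, h⟩

theorem RB_iff (ha : Mat a G) {T : List Key} {t : Tab (Fin n)} (hT : TRep T t)
    {C S K : List ℕ} {N : Node (Fin n)} (hN : NRep n a C S K N) (p q x y : Fin n) :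
    RB n a T C S K p q x y = true ↔ RS G t N p q x y := by
  have e1 : (([(q : ℕ), (x : ℕ)].any (fun a' => [(p : ℕ), (y : ℕ)].any
      (fun b => mm b (reachL n (DrB n a T C K p q) [a'])))) = true) ↔
      ∃ a b, (a = q ∨ a = x) ∧ (b = p ∨ b = y) ∧ ReflTransGen (Dr G t N p q) a b := by
    simp only [List.any_cons, List.any_nil, Bool.or_false, Bool.or_eq_true,
      equivstep_reach ha hT hN]
    constructor
    · rintro ((h | h) | (h | h))
      · exact ⟨q, p, Or.inl rfl, Or.inl rfl, h⟩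
      · exact ⟨q, y, Or.inl rfl, Or.inr rfl, h⟩
      · exact ⟨x, p, Or.inr rfl, Or.inl rfl, h⟩
      · exact ⟨x, y, Or.inr rfl, Or.inr rfl, h⟩
    · rintro ⟨a', b', rfl | rfl, rfl | rfl, h⟩
      · exact Or.inl (Or.inl h)
      · exact Or.inl (Or.inr h)
      · exact Or.inr (Or.inl h)
      · exact Or.inr (Or.inr h)
  have hm : ∀ c : Fin n, (mm (c : ℕ) C = false) ↔ c ∉ N.C := by
    intro c
    rw [← Bool.not_eq_true, mm_iff, hN.hC.2]
  have e2 : ∀ c c' : Fin n, ∀ x y : Fin n, ((!(!mm (c : ℕ) C && (decide ((x : ℕ) = c) &&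
      (!decide ((y : ℕ) = c) && StarB n a T C S K c')))) = true) ↔
      ¬ (c ∉ N.C ∧ StarS G t N c' ∧ x = c ∧ y ≠ c) := by
    intro c c' x y
    rw [Bool.not_eq_true', ← Bool.not_eq_true, Bool.and_eq_true, Bool.and_eq_true,
      Bool.and_eq_true, StarB_iff ha hT hN, Bool.not_eq_true', Bool.not_eq_true', hm,
      decide_eq_true_eq, decide_eq_false_iff_not, ← Fin.ext_iff, ← Fin.ext_iff]
    tauto
  unfold RB RS
  rw [Bool.and_eq_true, Bool.and_eq_true, e1, e2 q p x y, e2 p q y x]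

theorem mem_allKeys {u w p q x y : ℕ} : (u, w, p, q, x, y) ∈ allKeys n ↔
    u < n ∧ w < n ∧ p < n ∧ q < n ∧ x < n ∧ y < n := by
  simp [allKeys, pairsL, List.mem_flatMap, List.mem_map]

theorem stepB_rep (ha : Mat a G) {T : List Key} {t : Tab (Fin n)} (hT : TRep T t) :
    TRep (stepB n a T) (step G (decL n a) t) := by
  intro u w p q x y
  have h1 : look (stepB n a T) ((u : ℕ), (w : ℕ), (p : ℕ), (q : ℕ), (x : ℕ), (y : ℕ)) = true ↔
      ((u : ℕ), (w : ℕ), (p : ℕ), (q : ℕ), (x : ℕ), (y : ℕ)) ∈ stepB n a T := by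
    unfold look
    rw [List.any_eq_true]
    constructor
    · rintro ⟨k, hk, h⟩
      rw [decide_eq_true_eq] at h
      rw [← h]
      exact hk
    · intro h
      exact ⟨_, h, by rw [decide_eq_true_eq]⟩
  rw [h1]
  unfold stepB
  rw [List.mem_filter, mem_allKeys]
  have h2 : ((u : ℕ) < n ∧ (w : ℕ) < n ∧ (p : ℕ) < n ∧ (q : ℕ) < n ∧ (x : ℕ) < n ∧ (y : ℕ) < n) :=
    ⟨u.2, w.2, p.2, q.2, x.2, y.2⟩
  rw [and_iff_right h2]
  exact RB_iff ha hT (nrep_node ha u w) p q x y

theorem valB_rep (ha : Mat a G) (k : ℕ) : TRep (valB n a k) (val G (decL n a) k) := by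
  induction k with
  | zero =>
    intro u w p q x y
    simp [valB, look, val]
  | succ k ih =>
    have h : valB n a (k + 1) = stepB n a (valB n a k) := by
      unfold valB
      rw [Function.iterate_succ_apply']
    rw [h]
    exact stepB_rep ha ih

theorem algB_iff (ha : Mat a G) :
    algB n a = true ↔ n = 1 ∨ Feas G (decL n a) (val G (decL n a) n) := by
  have hnil : LRep ([] : List ℕ) (∅ : Set (Fin n)) :=
    ⟨fun x hx => by simp at hx, fun i => by simp⟩
  have hN := nrep_root (n := n) a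
  have hK : ∀ i : Fin n, (mm (i : ℕ) (growL n a []) = true) ↔ i ∈ (decL n a).K0 := by
    intro i
    rw [mm_iff]
    exact hN.hK.2 i
  unfold algB
  rw [Bool.or_eq_true, decide_eq_true_eq]
  refine or_congr Iff.rfl ?_
  unfold Feas
  simp only [List.any_eq_true, List.mem_range]
  constructor
  · rintro ⟨p, hp, q, hq, h⟩
    refine ⟨⟨p, hp⟩, ⟨q, hq⟩, ?_⟩
    have hp' : ((⟨p, hp⟩ : Fin n) : ℕ) = p := rfl
    have hq' : ((⟨q, hq⟩ : Fin n) : ℕ) = q := rfl
    rw [← hp', ← hq'] at h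
    rw [Bool.and_eq_true, Bool.and_eq_true, Bool.or_eq_true, hK, hK,
      SatB_iff ha (valB_rep ha n) hN _ _ hnil hnil] at h
    exact ⟨(ha _ _).1 h.1, h.2.1, h.2.2⟩
  · rintro ⟨p, q, h1, h2, h3⟩
    refine ⟨p, p.2, q, q.2, ?_⟩
    rw [Bool.and_eq_true, Bool.and_eq_true, Bool.or_eq_true, hK, hK,
      SatB_iff ha (valB_rep ha n) hN _ _ hnil hnil]
    exact ⟨(ha _ _).2 h1, h2, h3⟩

end Pool.Agent.Spanner3
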