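import Pool.Agent.Lib_MP_b5064f_t3.FPNodes

set_option autoImplicit false

/-!
# Piece FPDR: implications and satisfiability in polynomial time
-/

namespace Pool.Agent.Spanner3

open Pool.Agent.PartSep.TM Pool.Agent.PartSep.TM.Rep Pool.Agent.Lib_MP_8cd8c6_lc

variable {E : Type} [Rep E] {s : E → List Sym} {T : E → List Key} {C S K : E → List ℕ}
  {p q x y c : E → ℕ}

theorem fp_DrB (hs : FP s) (hT : FP T) (hC : FP C) (hK : FP K) (hp : FP p) (hq : FP q)
    (hx : FP x) (hy : FP y) :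
    FP (fun z => DrB (rows (s z)) (ent (s z)) (T z) (C z) (K z) (p z) (q z) (x z) (y z)) := by
  unfold DrB
  have h1 : FP (fun z => decide (x z = q z) && (mm (y z) (K z) && (!decide (y z = p z) &&
      (!decide (y z = q z) && !ent (s z) (p z) (y z))))) :=
    FP.and (FP.natEq hx hq) (FP.and (fp_mm hy hK) (FP.and (FP.not (FP.natEq hy hp))
      (FP.and (FP.not (FP.natEq hy hq)) (FP.not (fp_ent hs hp hy)))))
  have h2 : FP (fun z => mm (x z) (K z) && (!decide (x z = p z) && (!decide (x z = q z) &&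
      (!ent (s z) (q z) (x z) && decide (y z = p z))))) :=
    FP.and (fp_mm hx hK) (FP.and (FP.not (FP.natEq hx hp)) (FP.and (FP.not (FP.natEq hx hq))
      (FP.and (FP.not (fp_ent hs hq hx)) (FP.natEq hy hp))))
  refine FP.or h1 (FP.or h2 ?_)
  refine fp_anyE hC (p := fun w : E × ℕ => !mm w.2 (K w.1) &&
    ((decide (x w.1 = p w.1) || (decide (x w.1 = q w.1) ||
        mm (x w.1) (SL (rows (s w.1)) (ent (s w.1))
          (oL (rows (s w.1)) (ent (s w.1)) (K w.1) w.2) w.2))) &&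
    ((decide (y w.1 = p w.1) || (decide (y w.1 = q w.1) ||
        mm (y w.1) (SL (rows (s w.1)) (ent (s w.1))
          (oL (rows (s w.1)) (ent (s w.1)) (K w.1) w.2) w.2))) &&
      look (T w.1) (oL (rows (s w.1)) (ent (s w.1)) (K w.1) w.2, w.2, p w.1, q w.1,
        x w.1, y w.1)))) ?_
  have hs1 : FP (fun w : E × ℕ => s w.1) := FP.comp hs FP.fst
  have hT1 : FP (fun w : E × ℕ => T w.1) := FP.comp hT FP.fst
  have hK1 : FP (fun w : E × ℕ => K w.1) := FP.comp hK FP.fst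
  have hp1 : FP (fun w : E × ℕ => p w.1) := FP.comp hp FP.fst
  have hq1 : FP (fun w : E × ℕ => q w.1) := FP.comp hq FP.fst
  have hx1 : FP (fun w : E × ℕ => x w.1) := FP.comp hx FP.fst
  have hy1 : FP (fun w : E × ℕ => y w.1) := FP.comp hy FP.fst
  have hv : FP (fun w : E × ℕ => w.2) := FP.snd
  have ho := fp_oL hs1 hK1 hv
  have hS := fp_SL hs1 ho hv
  exact FP.and (FP.not (fp_mm hv hK1))
    (FP.and (FP.or (FP.natEq hx1 hp1) (FP.or (FP.natEq hx1 hq1) (fp_mm hx1 hS)))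
      (FP.and (FP.or (FP.natEq hy1 hp1) (FP.or (FP.natEq hy1 hq1) (fp_mm hy1 hS)))
        (fp_look hT1 (FP.pair ho (FP.pair hv (FP.pair hp1 (FP.pair hq1
          (FP.pair hx1 hy1))))))))

/-- the reachability set used in `SatB` and `RB` -/
theorem fp_reachDr (hs : FP s) (hT : FP T) (hC : FP C) (hK : FP K) (hp : FP p) (hq : FP q)
    {l : E → List ℕ} (hl : FP l) :
    FP (fun z => reachL (rows (s z)) (DrB (rows (s z)) (ent (s z)) (T z) (C z) (K z) (p z) (q z))
      (l z)) := by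
  have hs1 : FP (fun w : E × (ℕ × ℕ) => s w.1) := FP.comp hs FP.fst
  have hT1 : FP (fun w : E × (ℕ × ℕ) => T w.1) := FP.comp hT FP.fst
  have hC1 : FP (fun w : E × (ℕ × ℕ) => C w.1) := FP.comp hC FP.fst
  have hK1 : FP (fun w : E × (ℕ × ℕ) => K w.1) := FP.comp hK FP.fst
  have hp1 : FP (fun w : E × (ℕ × ℕ) => p w.1) := FP.comp hp FP.fst
  have hq1 : FP (fun w : E × (ℕ × ℕ) => q w.1) := FP.comp hq FP.fst
  have hi : FP (fun w : E × (ℕ × ℕ) => w.2.1) := FP.comp FP.fst FP.snd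
  have hj : FP (fun w : E × (ℕ × ℕ) => w.2.2) := FP.comp FP.snd FP.snd
  exact fp_reachL (fp_rows hs) (fp_DrB hs1 hT1 hC1 hK1 hp1 hq1 hi hj) hl

theorem fp_SatB (hs : FP s) (hT : FP T) (hC : FP C) (hK : FP K) (hp : FP p) (hq : FP q)
    {one zero : E → List ℕ} (h1 : FP one) (h0 : FP zero) :
    FP (fun z => SatB (rows (s z)) (ent (s z)) (T z) (C z) (K z) (p z) (q z) (one z)
      (zero z)) := by
  unfold SatB
  refine fp_allE (FP.consE hp h0) (p := fun w : E × ℕ => !mm w.2 (reachL (rows (s w.1))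
    (DrB (rows (s w.1)) (ent (s w.1)) (T w.1) (C w.1) (K w.1) (p w.1) (q w.1))
      (q w.1 :: one w.1))) ?_
  have hs1 : FP (fun w : E × ℕ => s w.1) := FP.comp hs FP.fst
  have hT1 : FP (fun w : E × ℕ => T w.1) := FP.comp hT FP.fst
  have hC1 : FP (fun w : E × ℕ => C w.1) := FP.comp hC FP.fst
  have hK1 : FP (fun w : E × ℕ => K w.1) := FP.comp hK FP.fst
  have hp1 : FP (fun w : E × ℕ => p w.1) := FP.comp hp FP.fst
  have hq1 : FP (fun w : E × ℕ => q w.1) := FP.comp hq FP.fst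
  have ho1 : FP (fun w : E × ℕ => one w.1) := FP.comp h1 FP.fst
  exact FP.not (fp_mm FP.snd (fp_reachDr hs1 hT1 hC1 hK1 hp1 hq1 (FP.consE hq1 ho1)))

theorem fp_oneL {n : E → ℕ} (hn : FP n) (hS : FP S) (hc : FP c) (hp : FP p) (hq : FP q) :
    FP (fun z => oneL (n z) (S z) (c z) (p z) (q z)) := by
  unfold oneL
  refine fp_filter (FP.range hn) (p := fun w : E × ℕ =>
    (decide (c w.1 = q w.1) && (mm w.2 (S w.1) && (!decide (w.2 = p w.1) &&
      !decide (w.2 = q w.1)))) ||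
    (!decide (c w.1 = p w.1) && (!decide (c w.1 = q w.1) && (decide (w.2 = c w.1) &&
      mm (q w.1) (S w.1))))) ?_
  have hS1 : FP (fun w : E × ℕ => S w.1) := FP.comp hS FP.fst
  have hc1 : FP (fun w : E × ℕ => c w.1) := FP.comp hc FP.fst
  have hp1 : FP (fun w : E × ℕ => p w.1) := FP.comp hp FP.fst
  have hq1 : FP (fun w : E × ℕ => q w.1) := FP.comp hq FP.fst
  have hv : FP (fun w : E × ℕ => w.2) := FP.snd
  exact FP.or (FP.and (FP.natEq hc1 hq1) (FP.and (fp_mm hv hS1)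
      (FP.and (FP.not (FP.natEq hv hp1)) (FP.not (FP.natEq hv hq1)))))
    (FP.and (FP.not (FP.natEq hc1 hp1)) (FP.and (FP.not (FP.natEq hc1 hq1))
      (FP.and (FP.natEq hv hc1) (fp_mm hq1 hS1))))

end Pool.Agent.Spanner3
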