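import Pool.Agent.Lib_MP_b5064f_t3.FPNodes
import Pool.Agent.Lib_MP_b5064f_t3.Elim

set_option autoImplicit false

/-!
# Recognition of chordal graphs and of connected graphs in polynomial time
-/

namespace Pool.Agent.Spanner3

open Pool.Agent.PartSep.TM Pool.Agent.PartSep.TM.Rep Pool.Agent.Lib_MP_8cd8c6_lc

variable {E : Type} [Rep E] {s : E → List Sym}

theorem fp_simpB (hs : FP s) {L : E → List ℕ} (hL : FP L) {z : E → ℕ} (hz : FP z) :
    FP (fun x => simpB (ent (s x)) (L x) (z x)) := by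
  have hs2 : FP (fun y : (E × ℕ) × ℕ => s y.1.1) := FP.comp hs (FP.comp FP.fst FP.fst)
  have hz2 : FP (fun y : (E × ℕ) × ℕ => z y.1.1) := FP.comp hz (FP.comp FP.fst FP.fst)
  have h1 : FP (fun y : (E × ℕ) × ℕ => y.1.2) := FP.comp FP.snd FP.fst
  have hL1 : FP (fun y : E × ℕ => L y.1) := FP.comp hL FP.fst
  have h2 : FP (fun y : (E × ℕ) × ℕ => !ent (s y.1.1) (z y.1.1) y.1.2 ||
      (!ent (s y.1.1) (z y.1.1) y.2 || (decide (y.1.2 = y.2) || ent (s y.1.1) y.1.2 y.2))) :=
    FP.or (FP.not (fp_ent hs2 hz2 h1)) (FP.or (FP.not (fp_ent hs2 hz2 FP.snd))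
      (FP.or (FP.natEq h1 FP.snd) (fp_ent hs2 h1 FP.snd)))
  exact fp_allE hL (fp_allE hL1 h2)

theorem fp_elimStep (hs : FP s) {L : E → List ℕ} (hL : FP L) :
    FP (fun x => elimStep (ent (s x)) (L x)) := by
  have hs1 : FP (fun y : E × ℕ => s y.1) := FP.comp hs FP.fst
  have hL1 : FP (fun y : E × ℕ => L y.1) := FP.comp hL FP.fst
  have h1 : FP (fun y : E × ℕ => simpB (ent (s y.1)) (L y.1) y.2) := fp_simpB hs1 hL1 FP.snd
  have h2 : FP (fun x => fstL ((L x).filter (simpB (ent (s x)) (L x)))) :=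
    fp_fstL (fp_filter hL h1)
  have h3 : FP (fun y : E × ℕ => fstL ((L y.1).filter (simpB (ent (s y.1)) (L y.1)))) :=
    FP.comp (g := fun x => fstL ((L x).filter (simpB (ent (s x)) (L x)))) h2 FP.fst
  exact fp_filter hL (p := fun y : E × ℕ => !(simpB (ent (s y.1)) (L y.1) y.2 &&
    decide (y.2 = fstL ((L y.1).filter (simpB (ent (s y.1)) (L y.1))))))
    (FP.not (FP.and h1 (FP.natEq FP.snd h3)))

theorem fp_chordB (hs : FP s) : FP (fun x => chordB (rows (s x)) (ent (s x))) := by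
  have hstep : FP (fun y : E × List ℕ => elimStep (ent (s y.1)) y.2) :=
    fp_elimStep (FP.comp hs FP.fst) FP.snd
  have hR := FP.range (fp_rows hs)
  obtain ⟨p, hp⟩ := hR.size_le
  refine FP.isEmptyE (fp_iter (fp_rows hs) hR hstep ⟨p, fun x k _ => ?_⟩)
  refine le_trans ?_ (hp x)
  induction k with
  | zero => exact le_rfl
  | succ k ih =>
    rw [Function.iterate_succ_apply']
    exact (size_filter_le _ _).trans (ih (by omega))

theorem fp_connB (hs : FP s) : FP (fun x => connB (rows (s x)) (ent (s x))) := by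
  have hs1 : FP (fun y : E × (ℕ × ℕ) => s y.1) := FP.comp hs FP.fst
  have h1 : FP (fun x => reachL (rows (s x)) (ent (s x)) [0]) :=
    fp_reachL (fp_rows hs) (D := fun y => ent (s y.1) y.2.1 y.2.2)
      (fp_ent hs1 (FP.comp FP.fst FP.snd) (FP.comp FP.snd FP.snd)) (FP.const _)
  exact fp_allE (FP.range (fp_rows hs)) (p := fun y : E × ℕ =>
    mm y.2 (reachL (rows (s y.1)) (ent (s y.1)) [0])) (fp_mm FP.snd (FP.comp h1 FP.fst))

end Pool.Agent.Spanner3
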