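import Pool.Agent.Lib_MP_b5064f_t3.FPBasic

set_option autoImplicit false

/-!
# Piece FPITER: bounded iteration and reachability in polynomial time
-/

namespace Pool.Agent.Spanner3

open Pool.Agent.PartSep.TM Pool.Agent.PartSep.TM.Rep Pool.Agent.Lib_MP_8cd8c6_lc

variable {E F H : Type} [Rep E] [Rep F] [Rep H]

/-- Iteration with polynomially bounded states. PROOF: `FP.foldl` along the unary code of `n x`
(`FP.unary`), as in the proof of `FP.natRec_growth`: a prefix of `replicate (n x) i` is
`replicate k i` with `k ≤ n x`, and the fold along it is the `k`-th iterate. -/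
theorem fp_iter {n : E → ℕ} (hn : FP n) {init : E → F} (h0 : FP init) {step : E × F → F}
    (hs : FP step) (hB : ∃ q : Polynomial ℕ, ∀ x, ∀ k ≤ n x,
      size ((fun s => step (x, s))^[k] (init x)) ≤ q.eval (size x)) :
    FP (fun x => (fun s => step (x, s))^[n x] (init x)) := by
  have key : ∀ (x : E) (k : ℕ) (s : F),
      List.foldl (fun s (_ : Sym) => step (x, s)) s (List.replicate k Sym.i) =
        (fun s => step (x, s))^[k] s := by
    intro x k
    induction k with
    | zero => intro s; rfl
    | succ k ih =>
      intro s
      rw [List.replicate_succ, List.foldl_cons, ih, Function.iterate_succ_apply]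
  obtain ⟨q, hq⟩ := hB
  have := FP.foldl hn.unary h0 (step := fun _ => step) (fun _ => hs) ⟨q, fun x l' hl' => by
    have h1 : l' = List.replicate l'.length Sym.i :=
      List.eq_replicate_of_mem (fun b hb => List.eq_of_mem_replicate (hl'.subset hb))
    have h2 : l'.length ≤ n x := by
      have := hl'.length_le
      rwa [List.length_replicate] at this
    rw [h1, key]
    exact hq x _ h2⟩
  exact this.congr (fun x => key x (n x) (init x))

/-- PROOF: each element is deleted from the list: the size of `l.filter p` is at most that of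
`l`. -/
theorem size_filter_le (l : List F) (p : F → Bool) : size (l.filter p) ≤ size l := by
  induction l with
  | nil => simp
  | cons a l ih =>
    rw [List.filter_cons]
    split_ifs
    · rw [size_cons, size_cons]; omega
    · rw [size_cons]; omega

/-- PROOF: `fp_iter`; the step is `fp_filter` over `FP.range` with `fp_mm` and `fp_anyE`. Every
iterate is `S x` (0 steps) or a filter of `List.range (n x)`, so its size is at most
`size (S x) + size (List.range (n x))`, polynomially bounded by `FP.size_le`. -/
theorem fp_reachL {n : E → ℕ} (hn : FP n) {D : E × (ℕ × ℕ) → Bool} (hD : FP D)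
    {S : E → List ℕ} (hS : FP S) :
    FP (fun x => reachL (n x) (fun i j => D (x, (i, j))) (S x)) := by
  have hstep : FP (fun y : E × List ℕ => stepL (n y.1) (fun i j => D (y.1, (i, j))) y.2) := by
    refine fp_filter (l := fun y : E × List ℕ => List.range (n y.1))
      (FP.range (FP.comp hn FP.fst))
      (p := fun z : (E × List ℕ) × ℕ => mm z.2 z.1.2 || z.1.2.any (fun a => D (z.1.1, (a, z.2))))
      (FP.or (fp_mm FP.snd (FP.comp FP.snd FP.fst)) ?_)
    refine fp_anyE (l := fun z : (E × List ℕ) × ℕ => z.1.2) (FP.comp FP.snd FP.fst)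
      (p := fun w : ((E × List ℕ) × ℕ) × ℕ => D (w.1.1.1, (w.2, w.1.2))) ?_
    exact FP.comp hD (FP.pair (FP.comp FP.fst (FP.comp FP.fst FP.fst))
      (FP.pair FP.snd (FP.comp FP.snd FP.fst)))
  obtain ⟨pS, hpS⟩ := hS.size_le
  obtain ⟨pR, hpR⟩ := (FP.range hn).size_le
  refine fp_iter hn hS (step := fun y => stepL (n y.1) (fun i j => D (y.1, (i, j))) y.2) hstep
    ⟨pS + pR, fun x k _ => ?_⟩
  rw [Polynomial.eval_add]
  cases k with
  | zero => exact (hpS x).trans (Nat.le_add_right _ _)
  | succ k =>
    rw [Function.iterate_succ_apply']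
    exact ((size_filter_le _ _).trans (hpR x)).trans (Nat.le_add_left _ _)

end Pool.Agent.Spanner3
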