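import Pool.Agent.Lib_MP_b5064f_t3.FPIter

set_option autoImplicit false

/-!
# Piece FPNODES: the geometry is computed in polynomial time

`rows s` and `ent s` are the number of rows and the entries of the matrix coded by the string
`s`, see `Pool.Agent.Lib_MP_8cd8c6_lc` (Lib_MP_8cd8c6_lc/Complete.lean): `fp_rows`, `fp_ent`.
-/

namespace Pool.Agent.Spanner3

open Pool.Agent.PartSep.TM Pool.Agent.PartSep.TM.Rep Pool.Agent.Lib_MP_8cd8c6_lc

variable {E : Type} [Rep E] {s : E → List Sym}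

/-- PROOF: `fp_reachL` with `D y = ent (s y.1) y.2.1 y.2.2 && !mm y.2.2 (X y.1)`. -/
theorem fp_compL (hs : FP s) {X : E → List ℕ} (hX : FP X) {w : E → ℕ} (hw : FP w) :
    FP (fun x => compL (rows (s x)) (ent (s x)) (X x) (w x)) := by
  have hs1 : FP (fun y : E × (ℕ × ℕ) => s y.1) := FP.comp hs FP.fst
  have hX1 : FP (fun y : E × (ℕ × ℕ) => X y.1) := FP.comp hX FP.fst
  have h1 : FP (fun y : E × (ℕ × ℕ) => y.2.1) := FP.comp FP.fst FP.snd
  have h2 : FP (fun y : E × (ℕ × ℕ) => y.2.2) := FP.comp FP.snd FP.snd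
  have hD : FP (fun y : E × (ℕ × ℕ) => ent (s y.1) y.2.1 y.2.2 && !mm y.2.2 (X y.1)) :=
    FP.and (fp_ent hs1 h1 h2) (FP.not (fp_mm h2 hX1))
  exact fp_reachL (fp_rows hs) hD (FP.consE hw FP.nilE)

theorem fp_nbL (hs : FP s) {C : E → List ℕ} (hC : FP C) :
    FP (fun x => nbL (rows (s x)) (ent (s x)) (C x)) := by
  have hC1 : FP (fun y : E × ℕ => C y.1) := FP.comp hC FP.fst
  have hs2 : FP (fun y : (E × ℕ) × ℕ => s y.1.1) := FP.comp hs (FP.comp FP.fst FP.fst)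
  have h1 : FP (fun y : (E × ℕ) × ℕ => y.1.2) := FP.comp FP.snd FP.fst
  have hin : FP (fun y : (E × ℕ) × ℕ => ent (s y.1.1) y.2 y.1.2) := fp_ent hs2 FP.snd h1
  have hp : FP (fun y : E × ℕ => !mm y.2 (C y.1) && (C y.1).any (fun c => ent (s y.1) c y.2)) :=
    FP.and (FP.not (fp_mm FP.snd hC1)) (fp_anyE hC1 hin)
  exact fp_filter (FP.range (fp_rows hs)) hp

theorem fp_NL (hs : FP s) {u : E → ℕ} (hu : FP u) :
    FP (fun x => NL (rows (s x)) (ent (s x)) (u x)) := by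
  have hs1 : FP (fun y : E × ℕ => s y.1) := FP.comp hs FP.fst
  have hu1 : FP (fun y : E × ℕ => u y.1) := FP.comp hu FP.fst
  have hp : FP (fun y : E × ℕ => decide (y.2 = u y.1) || ent (s y.1) (u y.1) y.2) :=
    FP.or (FP.natEq FP.snd hu1) (fp_ent hs1 hu1 FP.snd)
  exact fp_filter (FP.range (fp_rows hs)) hp

theorem fp_CL (hs : FP s) {u w : E → ℕ} (hu : FP u) (hw : FP w) :
    FP (fun x => CL (rows (s x)) (ent (s x)) (u x) (w x)) :=
  fp_compL hs (fp_NL hs hu) hw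

theorem fp_SL (hs : FP s) {u w : E → ℕ} (hu : FP u) (hw : FP w) :
    FP (fun x => SL (rows (s x)) (ent (s x)) (u x) (w x)) :=
  fp_nbL hs (fp_CL hs hu hw)

/-- PROOF: `FP.foldlE_growth`: each step adds at most one number `v ∈ List.range (rows (s x))`,
`size_cons`, `size_le_of_mem`. -/
theorem fp_growL (hs : FP s) {Q : E → List ℕ} (hQ : FP Q) :
    FP (fun x => growL (rows (s x)) (ent (s x)) (Q x)) := by
  obtain ⟨pl, hpl⟩ := (FP.range (fp_rows hs)).size_le
  have hQ1 : FP (fun y : E × (List ℕ × ℕ) => y.2.1) := FP.comp FP.fst FP.snd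
  have hv1 : FP (fun y : E × (List ℕ × ℕ) => y.2.2) := FP.comp FP.snd FP.snd
  have hs2 : FP (fun z : (E × (List ℕ × ℕ)) × ℕ => s z.1.1) := FP.comp hs (FP.comp FP.fst FP.fst)
  have hv2 : FP (fun z : (E × (List ℕ × ℕ)) × ℕ => z.1.2.2) :=
    FP.comp FP.snd (FP.comp FP.snd FP.fst)
  have hin : FP (fun z : (E × (List ℕ × ℕ)) × ℕ => ent (s z.1.1) z.2 z.1.2.2) :=
    fp_ent hs2 FP.snd hv2
  have hall : FP (fun y : E × (List ℕ × ℕ) => y.2.1.all (fun x => ent (s y.1) x y.2.2)) :=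
    fp_allE hQ1 hin
  have hstep : FP (fun y : E × (List ℕ × ℕ) =>
      if y.2.1.all (fun x => ent (s y.1) x y.2.2) then y.2.2 :: y.2.1 else y.2.1) :=
    FP.ite hall (FP.consE hv1 hQ1) hQ1
  exact FP.foldlE_growth (FP.range (fp_rows hs)) hQ hstep
    (Polynomial.C (1 + Fintype.card (ix ℕ)) + 2 * pl) (by
      intro x Q' a ha
      have h1 := (size_le_of_mem ha).trans (hpl x)
      simp only [Polynomial.eval_add, Polynomial.eval_C, Polynomial.eval_mul,
        Polynomial.eval_ofNat]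
      split_ifs
      · rw [size_cons]
        omega
      · omega)

theorem fp_fstL {l : E → List ℕ} (hl : FP l) : FP (fun x => fstL (l x)) :=
  FP.getE hl (FP.const 0) 0

theorem fp_w0L (hs : FP s) {u w : E → ℕ} (hu : FP u) (hw : FP w) :
    FP (fun x => w0L (rows (s x)) (ent (s x)) (u x) (w x)) := by
  have hs1 : FP (fun y : E × ℕ => s y.1) := FP.comp hs FP.fst
  have hu1 : FP (fun y : E × ℕ => u y.1) := FP.comp hu FP.fst
  have hw1 : FP (fun y : E × ℕ => w y.1) := FP.comp hw FP.fst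
  have hs2 : FP (fun y : (E × ℕ) × ℕ => s y.1.1) := FP.comp hs (FP.comp FP.fst FP.fst)
  have h1 : FP (fun y : (E × ℕ) × ℕ => y.1.2) := FP.comp FP.snd FP.fst
  have hin : FP (fun y : (E × ℕ) × ℕ => ent (s y.1.1) y.2 y.1.2) := fp_ent hs2 FP.snd h1
  have hp : FP (fun y : E × ℕ => (SL (rows (s y.1)) (ent (s y.1)) (u y.1) (w y.1)).all
      (fun t => ent (s y.1) t y.2)) := fp_allE (fp_SL hs1 hu1 hw1) hin
  exact fp_fstL (fp_filter (fp_CL hs hu hw) hp)

theorem fp_KL (hs : FP s) {u w : E → ℕ} (hu : FP u) (hw : FP w) :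
    FP (fun x => KL (rows (s x)) (ent (s x)) (u x) (w x)) :=
  fp_growL hs (FP.consE (fp_w0L hs hu hw) (fp_SL hs hu hw))

theorem fp_oL (hs : FP s) {K : E → List ℕ} (hK : FP K) {v : E → ℕ} (hv : FP v) :
    FP (fun x => oL (rows (s x)) (ent (s x)) (K x) (v x)) := by
  have hs1 : FP (fun y : E × ℕ => s y.1) := FP.comp hs FP.fst
  have hK1 : FP (fun y : E × ℕ => K y.1) := FP.comp hK FP.fst
  have hv1 : FP (fun y : E × ℕ => v y.1) := FP.comp hv FP.fst
  have hp : FP (fun y : E × ℕ => !mm y.2 (nbL (rows (s y.1)) (ent (s y.1))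
      (compL (rows (s y.1)) (ent (s y.1)) (K y.1) (v y.1)))) :=
    FP.not (fp_mm FP.snd (fp_nbL hs1 (fp_compL hs1 hK1 hv1)))
  exact fp_fstL (fp_filter hK hp)

end Pool.Agent.Spanner3
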