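import Pool.Agent.Lib_MP_b5064f_t3.FPDr

set_option autoImplicit false

/-!
# Piece FPSTAR: star tests and new implications in polynomial time
-/

namespace Pool.Agent.Spanner3

open Pool.Agent.PartSep.TM Pool.Agent.PartSep.TM.Rep Pool.Agent.Lib_MP_8cd8c6_lc

variable {E : Type} [Rep E] {s : E → List Sym} {T : E → List Key} {C S K : E → List ℕ}
  {p q x y c : E → ℕ}

theorem fp_StarInB (hs : FP s) (hT : FP T) (hC : FP C) (hS : FP S) (hK : FP K) (hc : FP c) :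
    FP (fun z => StarInB (rows (s z)) (ent (s z)) (T z) (C z) (S z) (K z) (c z)) := by
  unfold StarInB
  refine fp_anyE (FP.range (fp_rows hs)) (p := fun w : E × ℕ =>
    (List.range (rows (s w.1))).any (fun q =>
    ent (s w.1) w.2 q && ((mm w.2 (S w.1) || mm w.2 (C w.1)) && ((mm q (S w.1) ||
    mm q (C w.1)) && ((mm w.2 (K w.1) || mm q (K w.1)) &&
    ((decide (c w.1 = w.2) || (decide (c w.1 = q) ||
      (mm (c w.1) (K w.1) && (S w.1).all (fun s => decide (s = c w.1) ||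
        (decide (s = w.2) || decide (s = q)))))) &&
    SatB (rows (s w.1)) (ent (s w.1)) (T w.1) (C w.1) (K w.1) w.2 q
      (oneL (rows (s w.1)) (S w.1) (c w.1) w.2 q)
      (oneL (rows (s w.1)) (S w.1) (c w.1) q w.2))))))) ?_
  have hs1 : FP (fun w : E × ℕ => s w.1) := FP.comp hs FP.fst
  refine fp_anyE (FP.range (fp_rows hs1)) (p := fun w : (E × ℕ) × ℕ =>
    ent (s w.1.1) w.1.2 w.2 && ((mm w.1.2 (S w.1.1) || mm w.1.2 (C w.1.1)) &&
    ((mm w.2 (S w.1.1) || mm w.2 (C w.1.1)) && ((mm w.1.2 (K w.1.1) || mm w.2 (K w.1.1)) &&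
    ((decide (c w.1.1 = w.1.2) || (decide (c w.1.1 = w.2) ||
      (mm (c w.1.1) (K w.1.1) && (S w.1.1).all (fun s => decide (s = c w.1.1) ||
        (decide (s = w.1.2) || decide (s = w.2)))))) &&
    SatB (rows (s w.1.1)) (ent (s w.1.1)) (T w.1.1) (C w.1.1) (K w.1.1) w.1.2 w.2
      (oneL (rows (s w.1.1)) (S w.1.1) (c w.1.1) w.1.2 w.2)
      (oneL (rows (s w.1.1)) (S w.1.1) (c w.1.1) w.2 w.1.2)))))) ?_
  have h11 : FP (fun w : (E × ℕ) × ℕ => w.1.1) := FP.comp FP.fst FP.fst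
  have hs2 : FP (fun w : (E × ℕ) × ℕ => s w.1.1) := FP.comp hs h11
  have hT2 : FP (fun w : (E × ℕ) × ℕ => T w.1.1) := FP.comp hT h11
  have hC2 : FP (fun w : (E × ℕ) × ℕ => C w.1.1) := FP.comp hC h11
  have hS2 : FP (fun w : (E × ℕ) × ℕ => S w.1.1) := FP.comp hS h11
  have hK2 : FP (fun w : (E × ℕ) × ℕ => K w.1.1) := FP.comp hK h11
  have hc2 : FP (fun w : (E × ℕ) × ℕ => c w.1.1) := FP.comp hc h11
  have hp2 : FP (fun w : (E × ℕ) × ℕ => w.1.2) := FP.comp FP.snd FP.fst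
  have hq2 : FP (fun w : (E × ℕ) × ℕ => w.2) := FP.snd
  have hr2 := fp_rows hs2
  have hall : FP (fun w : (E × ℕ) × ℕ => (S w.1.1).all (fun s => decide (s = c w.1.1) ||
        (decide (s = w.1.2) || decide (s = w.2)))) := by
    refine fp_allE hS2 (p := fun v : ((E × ℕ) × ℕ) × ℕ => decide (v.2 = c v.1.1.1) ||
        (decide (v.2 = v.1.1.2) || decide (v.2 = v.1.2))) ?_
    have hv : FP (fun v : ((E × ℕ) × ℕ) × ℕ => v.2) := FP.snd
    have h1 : FP (fun v : ((E × ℕ) × ℕ) × ℕ => c v.1.1.1) :=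
      FP.comp hc (FP.comp FP.fst (FP.comp FP.fst FP.fst))
    have h2 : FP (fun v : ((E × ℕ) × ℕ) × ℕ => v.1.1.2) :=
      FP.comp FP.snd (FP.comp FP.fst FP.fst)
    have h3 : FP (fun v : ((E × ℕ) × ℕ) × ℕ => v.1.2) := FP.comp FP.snd FP.fst
    exact FP.or (FP.natEq hv h1) (FP.or (FP.natEq hv h2) (FP.natEq hv h3))
  exact FP.and (fp_ent hs2 hp2 hq2) (FP.and (FP.or (fp_mm hp2 hS2) (fp_mm hp2 hC2))
    (FP.and (FP.or (fp_mm hq2 hS2) (fp_mm hq2 hC2))
    (FP.and (FP.or (fp_mm hp2 hK2) (fp_mm hq2 hK2))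
    (FP.and (FP.or (FP.natEq hc2 hp2) (FP.or (FP.natEq hc2 hq2) (FP.and (fp_mm hc2 hK2) hall)))
      (fp_SatB hs2 hT2 hC2 hK2 hp2 hq2 (fp_oneL hr2 hS2 hc2 hp2 hq2)
        (fp_oneL hr2 hS2 hc2 hq2 hp2))))))

theorem fp_StarB (hs : FP s) (hT : FP T) (hC : FP C) (hS : FP S) (hK : FP K) (hc : FP c) :
    FP (fun z => StarB (rows (s z)) (ent (s z)) (T z) (C z) (S z) (K z) (c z)) := by
  unfold StarB
  have h11 : FP (fun w : E × ℕ => w.1) := FP.fst
  have hs1 : FP (fun w : E × ℕ => s w.1) := FP.comp hs h11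
  have hT1 : FP (fun w : E × ℕ => T w.1) := FP.comp hT h11
  have hC1 : FP (fun w : E × ℕ => C w.1) := FP.comp hC h11
  have hS1 : FP (fun w : E × ℕ => S w.1) := FP.comp hS h11
  have hK1 : FP (fun w : E × ℕ => K w.1) := FP.comp hK h11
  have hc1 : FP (fun w : E × ℕ => c w.1) := FP.comp hc h11
  have hv1 : FP (fun w : E × ℕ => w.2) := FP.snd
  have hS2 : FP (fun w : (E × ℕ) × ℕ => S w.1.1) := FP.comp hS (FP.comp FP.fst FP.fst)
  have hv2 : FP (fun w : (E × ℕ) × ℕ => w.1.2) := FP.comp FP.snd FP.fst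
  have hu2 : FP (fun w : (E × ℕ) × ℕ => w.2) := FP.snd
  have hA := FP.and (FP.or (fp_mm hc hS) (fp_mm hc hC)) (fp_StarInB hs hT hC hS hK hc)
  have hB := FP.and (FP.not (fp_mm hc hS)) (FP.not (fp_mm hc hC))
  have hall : FP (fun w : E × ℕ => (S w.1).all (fun s' => decide (s' = w.2))) :=
    fp_allE hS1 (p := fun v : (E × ℕ) × ℕ => decide (v.2 = v.1.2)) (FP.natEq hu2 hv2)
  have hC3 : FP (fun z => (S z).any (fun s' => (S z).all (fun s'' => decide (s'' = s')) &&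
      StarInB (rows (s z)) (ent (s z)) (T z) (C z) (S z) (K z) s')) :=
    fp_anyE hS (p := fun w : E × ℕ => (S w.1).all (fun s'' => decide (s'' = w.2)) &&
      StarInB (rows (s w.1)) (ent (s w.1)) (T w.1) (C w.1) (S w.1) (K w.1) w.2)
      (FP.and hall (fp_StarInB hs1 hT1 hC1 hS1 hK1 hv1))
  have hf1 : FP (fun w : E × ℕ => (S w.1).filter (fun x => !decide (x = w.2))) :=
    fp_filter hS1 (p := fun v : (E × ℕ) × ℕ => !decide (v.2 = v.1.2))
      (FP.not (FP.natEq hu2 hv2))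
  have hf2 : FP (fun w : E × ℕ => (K w.1).filter (fun x => !mm x (S w.1))) :=
    fp_filter hK1 (p := fun v : (E × ℕ) × ℕ => !mm v.2 (S v.1.1)) (FP.not (fp_mm hu2 hS2))
  have hD : FP (fun z => (S z).any (fun z' => SatB (rows (s z)) (ent (s z)) (T z) (C z) (K z)
      z' (c z) ((S z).filter (fun x => !decide (x = z')))
      ((K z).filter (fun x => !mm x (S z))))) :=
    fp_anyE hS (p := fun w : E × ℕ => SatB (rows (s w.1)) (ent (s w.1)) (T w.1) (C w.1) (K w.1)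
      w.2 (c w.1) ((S w.1).filter (fun x => !decide (x = w.2)))
      ((K w.1).filter (fun x => !mm x (S w.1))))
      (fp_SatB hs1 hT1 hC1 hK1 hv1 hc1 hf1 hf2)
  exact FP.or hA (FP.and hB (FP.or hC3 hD))

theorem fp_RB (hs : FP s) (hT : FP T) (hC : FP C) (hS : FP S) (hK : FP K) (hp : FP p)
    (hq : FP q) (hx : FP x) (hy : FP y) :
    FP (fun z => RB (rows (s z)) (ent (s z)) (T z) (C z) (S z) (K z) (p z) (q z) (x z)
      (y z)) := by
  unfold RB
  have hr1 := fp_reachDr hs hT hC hK hp hq (FP.consE hq FP.nilE)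
  have hr2 := fp_reachDr hs hT hC hK hp hq (FP.consE hx FP.nilE)
  have h1 := FP.or (fp_mm hp hr1) (fp_mm hy hr1)
  have h2 := FP.or (fp_mm hp hr2) (fp_mm hy hr2)
  have h3 := FP.not (FP.and (FP.not (fp_mm hq hC)) (FP.and (FP.natEq hx hq)
    (FP.and (FP.not (FP.natEq hy hq)) (fp_StarB hs hT hC hS hK hp))))
  have h4 := FP.not (FP.and (FP.not (fp_mm hp hC)) (FP.and (FP.natEq hy hp)
    (FP.and (FP.not (FP.natEq hx hp)) (fp_StarB hs hT hC hS hK hq))))
  refine (FP.and (FP.or h1 h2) (FP.and h3 h4)).congr (fun z => ?_)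
  simp only [List.any_cons, List.any_nil, Bool.or_false]

end Pool.Agent.Spanner3
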