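import Pool.Agent.Lib_MP_b5064f_t3.FPStar

set_option autoImplicit false

/-!
# Piece FPSTEP: the dynamic program in polynomial time
-/

namespace Pool.Agent.Spanner3

open Pool.Agent.PartSep.TM Pool.Agent.PartSep.TM.Rep Pool.Agent.Lib_MP_8cd8c6_lc

variable {E : Type} [Rep E] {s : E → List Sym} {T : E → List Key} {C S K : E → List ℕ}
  {p q x y c : E → ℕ}

theorem fp_stepB (hs : FP s) (hT : FP T) :
    FP (fun z => stepB (rows (s z)) (ent (s z)) (T z)) := by
  have hs1 : FP (fun y : E × Key => s y.1) := FP.comp hs FP.fst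
  have hT1 : FP (fun y : E × Key => T y.1) := FP.comp hT FP.fst
  have k0 : FP (fun y : E × Key => y.2) := FP.snd
  have k1 : FP (fun y : E × Key => y.2.1) := FP.comp FP.fst k0
  have r1 : FP (fun y : E × Key => y.2.2) := FP.comp FP.snd k0
  have k2 : FP (fun y : E × Key => y.2.2.1) := FP.comp FP.fst r1
  have r2 : FP (fun y : E × Key => y.2.2.2) := FP.comp FP.snd r1
  have k3 : FP (fun y : E × Key => y.2.2.2.1) := FP.comp FP.fst r2
  have r3 : FP (fun y : E × Key => y.2.2.2.2) := FP.comp FP.snd r2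
  have k4 : FP (fun y : E × Key => y.2.2.2.2.1) := FP.comp FP.fst r3
  have r4 : FP (fun y : E × Key => y.2.2.2.2.2) := FP.comp FP.snd r3
  have k5 : FP (fun y : E × Key => y.2.2.2.2.2.1) := FP.comp FP.fst r4
  have k6 : FP (fun y : E × Key => y.2.2.2.2.2.2) := FP.comp FP.snd r4
  exact fp_filter (fp_allKeys (fp_rows hs))
    (p := fun y : E × Key => RB (rows (s y.1)) (ent (s y.1)) (T y.1)
      (CL (rows (s y.1)) (ent (s y.1)) y.2.1 y.2.2.1)
      (SL (rows (s y.1)) (ent (s y.1)) y.2.1 y.2.2.1)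
      (KL (rows (s y.1)) (ent (s y.1)) y.2.1 y.2.2.1)
      y.2.2.2.1 y.2.2.2.2.1 y.2.2.2.2.2.1 y.2.2.2.2.2.2)
    (fp_RB hs1 hT1 (fp_CL hs1 k1 k2) (fp_SL hs1 k1 k2) (fp_KL hs1 k1 k2) k3 k4 k5 k6)

/-- PROOF: `fp_iter`; every iterate is `[]` or a filter of `allKeys (rows (s z))`. -/
theorem fp_valB (hs : FP s) {k : E → ℕ} (hk : FP k) :
    FP (fun z => valB (rows (s z)) (ent (s z)) (k z)) := by
  have hs1 : FP (fun y : E × List Key => s y.1) := FP.comp hs FP.fst
  have h := fp_iter hk (init := fun _ : E => ([] : List Key)) (FP.const _)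
    (step := fun y : E × List Key => stepB (rows (s y.1)) (ent (s y.1)) y.2)
    (fp_stepB hs1 FP.snd) (by
      obtain ⟨q, hq⟩ := (fp_allKeys (fp_rows hs)).size_le
      refine ⟨q, fun x k _ => ?_⟩
      cases k with
      | zero =>
        rw [Function.iterate_zero, id_eq, size_nilE]
        exact Nat.zero_le _
      | succ k =>
        rw [Function.iterate_succ_apply']
        exact (size_filter_le _ _).trans (hq x))
  exact h

theorem fp_algB (hs : FP s) : FP (fun z => algB (rows (s z)) (ent (s z))) := by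
  have hn := fp_rows hs
  have hs1 : FP (fun y : E × ℕ => s y.1) := FP.comp hs FP.fst
  have hs2 : FP (fun y : (E × ℕ) × ℕ => s y.1.1) := FP.comp hs (FP.comp FP.fst FP.fst)
  have hp : FP (fun y : (E × ℕ) × ℕ => y.1.2) := FP.comp FP.snd FP.fst
  have hq : FP (fun y : (E × ℕ) × ℕ => y.2) := FP.snd
  have hg : FP (fun y : (E × ℕ) × ℕ => growL (rows (s y.1.1)) (ent (s y.1.1)) []) :=
    fp_growL hs2 (FP.const _)
  have hin : FP (fun y : (E × ℕ) × ℕ => ent (s y.1.1) y.1.2 y.2 &&
      ((mm y.1.2 (growL (rows (s y.1.1)) (ent (s y.1.1)) []) ||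
        mm y.2 (growL (rows (s y.1.1)) (ent (s y.1.1)) [])) &&
      SatB (rows (s y.1.1)) (ent (s y.1.1)) (valB (rows (s y.1.1)) (ent (s y.1.1))
        (rows (s y.1.1))) (List.range (rows (s y.1.1)))
        (growL (rows (s y.1.1)) (ent (s y.1.1)) []) y.1.2 y.2 [] [])) :=
    FP.and (fp_ent hs2 hp hq) (FP.and (FP.or (fp_mm hp hg) (fp_mm hq hg))
      (fp_SatB hs2 (fp_valB hs2 (fp_rows hs2)) (FP.range (fp_rows hs2)) hg hp hq
        (FP.const _) (FP.const _)))
  have hmid : FP (fun y : E × ℕ => (List.range (rows (s y.1))).any (fun q =>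
      ent (s y.1) y.2 q &&
      ((mm y.2 (growL (rows (s y.1)) (ent (s y.1)) []) ||
        mm q (growL (rows (s y.1)) (ent (s y.1)) [])) &&
      SatB (rows (s y.1)) (ent (s y.1)) (valB (rows (s y.1)) (ent (s y.1))
        (rows (s y.1))) (List.range (rows (s y.1)))
        (growL (rows (s y.1)) (ent (s y.1)) []) y.2 q [] []))) :=
    fp_anyE (FP.range (fp_rows hs1)) hin
  exact FP.or (FP.natEq hn (FP.const 1)) (fp_anyE (FP.range hn) hmid)

end Pool.Agent.Spanner3
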