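import Pool.Agent.Lib_MP_b5064f_t3.StepComp

set_option autoImplicit false

/-!
# Piece FINALCOMP: the answer no is correct
-/

namespace Pool.Agent.Spanner3

open Relation

variable {V : Type} {G T : SimpleGraph V} {r : V → ℕ}

/-- PROOF: induction on `k` with `step_comp`; for `k = 0` the table is empty. -/
theorem val_comp [Finite V] (hr : IsPEO G r) (hG : G.Connected) (h2 : ∃ x y : V, x ≠ y)
    {d : Dec V} (hd : GoodDec G d) (hT : Good G T) (k : ℕ) : CompTab G T k (val G d k) := by
  induction k with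
  | zero =>
    intro u w _ p q _ _ _ _ _ x y _ _ h
    exact absurd h (fun h => h)
  | succ k ih => exact step_comp hr hG h2 hd hT ih

/-- PROOF: take a canonical covering edge `pq` (`canon`, `maxCl_two`) of the clique of the root;
`Sat` by `sat_iff` with `B = BT T p q`, closed under `Dr` by `node_comp` for the root
(`Set.ncard_univ`). -/
theorem feas_comp [Finite V] (hr : IsPEO G r) (hG : G.Connected) (h2 : ∃ x y : V, x ≠ y)
    {d : Dec V} (hd : GoodNode G (root d)) (hT : Good G T) {k : ℕ} (hk : Nat.card V ≤ k + 1)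
    {t : Tab V} (ht : CompTab G T k t) : Feas G d t := by
  obtain ⟨hTG, hTt, hcov⟩ := hT
  have hK := hd.maxcl
  have h2K := maxCl_two hG h2 hK
  obtain ⟨c0, hc0K, -⟩ := h2K
  obtain ⟨a, b, hab, hcab⟩ := hcov (root d).K hK ⟨c0, hc0K, Set.mem_univ _⟩
  obtain ⟨p, q, hpq, hcpq, hmem, hq, hp⟩ := canon hr hTG hK (maxCl_two hG h2 hK) hab hcab
  refine ⟨p, q, hTG hpq, hmem, sat_iff.2 ⟨BT T p q, Or.inl rfl, ?_, ?_, ?_, ?_⟩⟩
  · rintro (h | ⟨h, -⟩)
    · exact hpq.ne h
    · exact h rfl
  · intro x hx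
    exact absurd hx (Set.notMem_empty x)
  · intro x hx
    exact absurd hx (Set.notMem_empty x)
  · refine node_comp hd hTG (k := k) ?_ ht hpq hcpq ?_ (fun _ h => hq h) (fun _ h => hp h)
    · show (Set.univ : Set V).ncard ≤ k + 1
      rw [Set.ncard_univ]
      exact hk
    · rcases hmem with h | h
      · exact Or.inl h
      · exact Or.inr (Or.inl h)

end Pool.Agent.Spanner3
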