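import Pool.Agent.Lib_MP_b5064f_t3.Defs

set_option autoImplicit false

/-!
# Piece SATLEMMAS: satisfiability of implications
-/

namespace Pool.Agent.Spanner3

open Relation

variable {V : Type} {G : SimpleGraph V} {t : Tab V} {N : Node V}

/-- PROOF. (→) `B z := ∃ x, (x = q ∨ x ∈ one) ∧ ReflTransGen (Dr G t N p q) x z`. (←) `B` is
preserved along chains. -/
theorem sat_iff {p q : V} {one zero : Set V} : Sat G t N p q one zero ↔
    ∃ B : V → Prop, B q ∧ ¬ B p ∧ (∀ x ∈ one, B x) ∧ (∀ x ∈ zero, ¬ B x) ∧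
      ∀ x y, Dr G t N p q x y → B x → B y := by
  constructor
  · intro h
    refine ⟨fun z => ∃ x, (x = q ∨ x ∈ one) ∧ ReflTransGen (Dr G t N p q) x z,
      ⟨q, Or.inl rfl, ReflTransGen.refl⟩, ?_, fun x hx => ⟨x, Or.inr hx, ReflTransGen.refl⟩,
      ?_, ?_⟩
    · rintro ⟨x, hx, hc⟩
      exact h x p hx (Or.inl rfl) hc
    · rintro z hz ⟨x, hx, hc⟩
      exact h x z hx (Or.inr hz) hc
    · rintro y z hyz ⟨x, hx, hc⟩
      exact ⟨x, hx, hc.tail hyz⟩
  · rintro ⟨B, hq, hp, h1, h0, hB⟩ x y hx hy hc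
    have hBx : B x := by
      rcases hx with rfl | hx
      · exact hq
      · exact h1 x hx
    have key : ∀ z, ReflTransGen (Dr G t N p q) x z → B z := by
      intro z hz
      induction hz with
      | refl => exact hBx
      | tail _ hbc ih => exact hB _ _ hbc ih
    have hBy : B y := key y hc
    rcases hy with rfl | hy
    · exact hp hBy
    · exact h0 y hy hBy

/-- The labellings which respect the new implications `RS`: they extend to a labelling closed
under `Dr`, or they are constant on `S` and the corresponding star is feasible.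
PROOF. Let `L = S ∪ {p, q}` and `Rc x y := ∃ a b, (a = q ∨ a = x) ∧ (b = p ∨ b = y) ∧
ReflTransGen (Dr G t N p q) a b` (first clause of `RS`).
(I) Suppose `B` respects `Rc` on `L`: `x, y ∈ L`, `Rc x y`, `B x` imply `B y`. Put
`B' z := ∃ x, (x = p ∨ x = q ∨ x ∈ S) ∧ B x ∧ ReflTransGen (Dr G t N p q) x z`. It is closed
under `Dr`, `B' q` holds; `B' p` would give `Rc x p` with `B x`, so `B p`, contradiction; for
`s ∈ S`: `B s → B' s` clear, and `B' s` gives `Rc x s` with `B x`, so `B s`. First alternative.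
(II) Otherwise there are `x, y ∈ L` with `Rc x y`, `B x`, `¬ B y`. Since `B` respects `RS`, `RS x y`
fails, so one of the two exceptions holds for `x y`.
(IIa) First exception: `q ∉ C`, `StarS p`, `x = q`, `y ≠ q`. So `Rc q y`, hence `Rc z y` for every
`z` (the clause `a = q` is always allowed). If `B` is false on `S \ {q}` we have the second
alternative. Otherwise let `z ∈ S`, `z ≠ q`, `B z` (so `z ≠ p`). `RS z y` must fail since `¬ B y`;
the first exception does not apply to `z ≠ q`, so the second holds: `p ∉ C`, `StarS q`, `y = p`,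
`z ≠ p`. Then `Rc q p`, so `Rc` holds for all pairs: `ReflTransGen (Dr ..) q p` (from `Rc q p` with
`a = q`, `b = p`: note that `Rc q y` with `y = p` gives exactly a chain from `q` to `p`). If `B` is
true on `S \ {p}` we have the third alternative. Otherwise let `z' ∈ S`, `z' ≠ p`, `¬ B z'` (so
`z' ≠ q`): `RS z z'` holds (`Rc z z'`, `z ≠ q`, `z' ≠ p`), so `B z'`, contradiction.
(IIb) Second exception `p ∉ C`, `StarS q`, `y = p`, `x ≠ p`: symmetric. `Rc x p`, so `Rc x z` for
every `z`. If `B` is true on `S \ {p}`: third alternative. Otherwise `z ∈ S`, `z ≠ p`, `¬ B z`;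
`RS x z` must fail (`B x`), the second exception does not apply since `z ≠ p`, so the first holds:
`q ∉ C`, `StarS p`, `x = q`, `z ≠ q`, so there is a chain from `q` to `p` and `Rc` always holds. If
`B` is false on `S \ {q}`: second alternative; otherwise `z' ∈ S`, `z' ≠ q`, `B z'`: `RS z' z`
holds, so `B z`, contradiction. -/
theorem lab_cases {p q : V} {B : V → Prop} (hq : B q) (hp : ¬ B p)
    (h : ∀ x y, (x = p ∨ x = q ∨ x ∈ N.S) → (y = p ∨ y = q ∨ y ∈ N.S) →
      RS G t N p q x y → B x → B y) :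
    (∃ B' : V → Prop, B' q ∧ ¬ B' p ∧ (∀ s ∈ N.S, B' s ↔ B s) ∧
      ∀ x y, Dr G t N p q x y → B' x → B' y) ∨
    (q ∉ N.C ∧ StarS G t N p ∧ ∀ s ∈ N.S, s ≠ q → ¬ B s) ∨
    (p ∉ N.C ∧ StarS G t N q ∧ ∀ s ∈ N.S, s ≠ p → B s) := by
  classical
  set Rc : V → V → Prop := fun x y => ∃ a b, (a = q ∨ a = x) ∧ (b = p ∨ b = y) ∧
    ReflTransGen (Dr G t N p q) a b with hRc
  set L : V → Prop := fun x => x = p ∨ x = q ∨ x ∈ N.S with hL
  by_cases hI : ∀ x y, L x → L y → Rc x y → B x → B y
  · refine Or.inl ⟨fun z => ∃ x, L x ∧ B x ∧ ReflTransGen (Dr G t N p q) x z,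
      ⟨q, Or.inr (Or.inl rfl), hq, ReflTransGen.refl⟩, ?_, ?_, ?_⟩
    · rintro ⟨x, hx, hBx, hc⟩
      exact hp (hI x p hx (Or.inl rfl) ⟨x, p, Or.inr rfl, Or.inl rfl, hc⟩ hBx)
    · intro s hs
      constructor
      · rintro ⟨x, hx, hBx, hc⟩
        exact hI x s hx (Or.inr (Or.inr hs)) ⟨x, s, Or.inr rfl, Or.inr rfl, hc⟩ hBx
      · exact fun hBs => ⟨s, Or.inr (Or.inr hs), hBs, ReflTransGen.refl⟩
    · rintro y z hyz ⟨x, hx, hBx, hc⟩
      exact ⟨x, hx, hBx, hc.tail hyz⟩
  · right
    push Not at hI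
    obtain ⟨x, y, hx, hy, hxy, hBx, hBy⟩ := hI
    have hall : ReflTransGen (Dr G t N p q) q p → ∀ a b, Rc a b :=
      fun hc a b => ⟨q, p, Or.inl rfl, Or.inl rfl, hc⟩
    by_cases e1 : q ∉ N.C ∧ StarS G t N p ∧ x = q ∧ y ≠ q
    · obtain ⟨g1, g2, rfl, g4⟩ := e1
      by_cases hf : ∀ s ∈ N.S, s ≠ x → ¬ B s
      · exact Or.inl ⟨g1, g2, hf⟩
      · push Not at hf
        obtain ⟨z, hz, hzq, hBz⟩ := hf
        have hzy : Rc z y := by
          obtain ⟨a, b, ha, hb, hc⟩ := hxy
          refine ⟨a, b, Or.inl ?_, hb, hc⟩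
          rcases ha with h | h <;> exact h
        have e2 : p ∉ N.C ∧ StarS G t N x ∧ y = p ∧ z ≠ p := by
          by_contra hcon
          exact hBy (h z y (Or.inr (Or.inr hz)) hy ⟨hzy, fun h' => hzq h'.2.2.1, hcon⟩ hBz)
        obtain ⟨k1, k2, rfl, k4⟩ := e2
        refine Or.inr ⟨k1, k2, ?_⟩
        by_contra hcon
        push Not at hcon
        obtain ⟨z', hz', hz'p, hBz'⟩ := hcon
        have hqp : ReflTransGen (Dr G t N y x) x y := by
          obtain ⟨a, b, ha, hb, hc⟩ := hxy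
          have ha' : a = x := by rcases ha with h | h <;> exact h
          have hb' : b = y := by rcases hb with h | h <;> exact h
          rw [ha', hb'] at hc
          exact hc
        exact hBz' (h z z' (Or.inr (Or.inr hz)) (Or.inr (Or.inr hz')) ⟨hall hqp z z',
          fun h' => hzq h'.2.2.1, fun h' => hz'p h'.2.2.1⟩ hBz)
    · by_cases e2 : p ∉ N.C ∧ StarS G t N q ∧ y = p ∧ x ≠ p
      · obtain ⟨k1, k2, rfl, k4⟩ := e2
        by_cases hf : ∀ s ∈ N.S, s ≠ y → B s
        · exact Or.inr ⟨k1, k2, hf⟩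
        · push Not at hf
          obtain ⟨z, hz, hzp, hBz⟩ := hf
          have hxz : Rc x z := by
            obtain ⟨a, b, ha, hb, hc⟩ := hxy
            refine ⟨a, b, ha, Or.inl ?_, hc⟩
            rcases hb with h | h <;> exact h
          have e3 : q ∉ N.C ∧ StarS G t N y ∧ x = q ∧ z ≠ q := by
            by_contra hcon
            exact hBz (h x z hx (Or.inr (Or.inr hz)) ⟨hxz, hcon, fun h' => hzp h'.2.2.1⟩ hBx)
          obtain ⟨g1, g2, rfl, g4⟩ := e3
          refine Or.inl ⟨g1, g2, ?_⟩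
          intro z' hz' hz'q hBz'
          have hqp : ReflTransGen (Dr G t N y x) x y := by
            obtain ⟨a, b, ha, hb, hc⟩ := hxy
            have ha' : a = x := by rcases ha with h | h <;> exact h
            have hb' : b = y := by rcases hb with h | h <;> exact h
            rw [ha', hb'] at hc
            exact hc
          exact hBz (h z' z (Or.inr (Or.inr hz')) (Or.inr (Or.inr hz)) ⟨hall hqp z' z,
            fun h' => hz'q h'.2.2.1, fun h' => hzp h'.2.2.1⟩ hBz')
      · exact absurd (h x y hx hy ⟨hxy, e1, e2⟩ hBx) hBy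

end Pool.Agent.Spanner3
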