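import Pool.Agent.Lib_MP_b5064f_t3.NodeSound
import Pool.Agent.Lib_MP_b5064f_t3.Attach
import Pool.Agent.Lib_MP_b5064f_t3.SatLemmas

set_option autoImplicit false

/-!
# Piece FINALSOUND: the answer yes is correct
-/

namespace Pool.Agent.Spanner3

open Relation

variable {V : Type} {G : SimpleGraph V}

/-- PROOF. `Feas` gives `p, q` and by `sat_iff` a labelling `B` closed under `Dr` at the root
(`C = V`, `S = ∅`). `node_sound` for `N = root d`, whose component `V` has `Nat.card V ≤ k + 1`
elements, gives `Y0`; let `Y` be `Y0`, the edges of `attach` for `A = K \ {p, q}` (`dr_adj`), and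
the edge `pq`: at most `((V \ K) \ {p, q}).ncard + (K \ {p, q}).ncard + 1 = Nat.card V - 1` edges
of `G`. Let `T = SimpleGraph.fromEdgeSet Y` (`T ≤ G`; its edge set is `Y` since `Y ⊆ E(G)` has no
loops). `Dbl T p q B K` holds, so `T` is connected (every vertex is reachable from `p`) and covers
all maximal cliques (`Ext` with `C = univ`; every maximal clique meets `univ`: it is not empty,
since `p` exists). A connected graph with at most `Nat.card V - 1` edges is a tree
(`SimpleGraph.isTree_iff_connected_and_card`, `SimpleGraph.Connected.card_vert_le_card_edgeSet_add_one`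
or similar in Mathlib). -/
theorem feas_sound [Finite V] {d : Dec V} (hd : GoodNode G (root d)) {k : ℕ}
    (hk : Nat.card V ≤ k + 1) {t : Tab V} (ht : SoundTab G k t) (h : Feas G d t) :
    ∃ T, Good G T := by
  classical
  obtain ⟨p, q, hpq, hK, hsat⟩ := h
  obtain ⟨B, hBq, hBp, _, _, hcl⟩ := sat_iff.1 hsat
  have hcard : (root d).C.ncard ≤ k + 1 := by
    change (Set.univ : Set V).ncard ≤ k + 1
    rw [Set.ncard_univ]
    exact hk
  obtain ⟨Y0, hY1, hY2, hY3⟩ := node_sound hd hcard ht (p := p) (q := q) hpq.ne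
    (by rcases hK with h | h
        · exact Or.inl h
        · exact Or.inr (Or.inl h)) (Or.inl hpq) hBq hBp hcl
  obtain ⟨Y1, hZ1, hZ2, hZ3⟩ := attach (G := G) (p := p) (q := q) (B := B)
    ((root d).K \ {p, q})
    (fun v hv hB => (dr_adj hBq hBp hcl hv.1 (fun h => hv.2 (Or.inl h))
      (fun h => hv.2 (Or.inr h))).1 hB)
    (fun v hv hB => (dr_adj hBq hBp hcl hv.1 (fun h => hv.2 (Or.inl h))
      (fun h => hv.2 (Or.inr h))).2 hB)
  set Y : Finset (Sym2 V) := insert s(p, q) (Y0 ∪ Y1) with hY
  have hYG : ∀ e ∈ Y, e ∈ G.edgeSet := by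
    intro e he
    rcases Finset.mem_insert.1 he with rfl | he
    · exact hpq
    · rcases Finset.mem_union.1 he with h | h
      · exact hY1 e h
      · exact hZ1 e h
  set T : SimpleGraph V := SimpleGraph.fromEdgeSet (Y : Set (Sym2 V)) with hT
  have hTE : T.edgeSet = (Y : Set (Sym2 V)) := by
    rw [hT, SimpleGraph.edgeSet_fromEdgeSet]
    ext e
    constructor
    · rintro ⟨h, _⟩
      exact h
    · intro h
      exact ⟨h, fun hd => G.not_isDiag_of_mem_edgeSet (hYG e h) hd⟩
  have hTG : T ≤ G := by
    rw [← SimpleGraph.edgeSet_subset_edgeSet, hTE]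
    intro e he
    exact hYG e he
  have hmem : ∀ e ∈ Y, e ∈ T.edgeSet := fun e he => by rw [hTE]; exact he
  have hTpq : T.Adj p q := hmem s(p, q) (Finset.mem_insert_self _ _)
  have hD : Dbl T p q B (root d).K := by
    refine ⟨hTpq, fun v hv hvp hvq => ?_⟩
    exact hZ3 T (fun e he => hmem e (Finset.mem_insert_of_mem (Finset.mem_union_right _ he))) v
      ⟨hv, by rintro (h | h); exacts [hvp h, hvq h]⟩
  obtain ⟨hreach, hcov⟩ := hY3 T hD
    (fun e he => hmem e (Finset.mem_insert_of_mem (Finset.mem_union_left _ he)))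
  have hconn : T.Connected := by
    have : Nonempty V := ⟨p⟩
    refine SimpleGraph.Connected.mk fun x y => ?_
    exact (hreach x (Set.mem_univ x)).symm.trans (hreach y (Set.mem_univ y))
  have hcount : Y.card + 1 ≤ Nat.card V := by
    have h1 : Y.card ≤ Y0.card + Y1.card + 1 :=
      (Finset.card_insert_le _ _).trans (Nat.succ_le_succ (Finset.card_union_le _ _))
    have h2 : (Set.univ \ {p, q} : Set V).ncard + 2 = Nat.card V := by
      have h3 := Set.ncard_sdiff_add_ncard_of_subset (Set.subset_univ ({p, q} : Set V))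
        (Set.toFinite _)
      rw [Set.ncard_pair hpq.ne, Set.ncard_univ] at h3
      exact h3
    have h4 : (((root d).C \ (root d).K) \ {p, q}).ncard + ((root d).K \ {p, q}).ncard =
        (Set.univ \ {p, q} : Set V).ncard := by
      rw [← Set.ncard_union_eq _ (Set.toFinite _) (Set.toFinite _)]
      · congr 1
        ext x
        simp only [Set.mem_union, Set.mem_sdiff]
        constructor
        · rintro (⟨_, h⟩ | ⟨_, h⟩)
          · exact ⟨Set.mem_univ x, h⟩
          · exact ⟨Set.mem_univ x, h⟩
        · rintro ⟨_, h⟩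
          by_cases hx : x ∈ (root d).K
          · exact Or.inr ⟨hx, h⟩
          · exact Or.inl ⟨⟨Set.mem_univ x, hx⟩, h⟩
      · rw [Set.disjoint_left]
        rintro x ⟨⟨_, h1⟩, _⟩ ⟨h2, _⟩
        exact h1 h2
    omega
  refine ⟨T, hTG, ?_, hcov⟩
  rw [SimpleGraph.isTree_iff_connected_and_card]
  refine ⟨hconn, ?_⟩
  have h1 := hconn.card_vert_le_card_edgeSet_add_one
  have h2 : Nat.card T.edgeSet = Y.card := by
    rw [hTE]
    simp
  omega

end Pool.Agent.Spanner3
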