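import Pool.Agent.Lib_MP_b5064f_t3.StarSound

set_option autoImplicit false

/-!
# Piece STEPSOUND: one step of the dynamic program is sound
-/

namespace Pool.Agent.Spanner3

open Relation

variable {V : Type} {G : SimpleGraph V}

/-- PROOF. Let `Small G (k + 1) u w`, `N = node G d u w`, a good node with `N.C = CC G u w`,
`N.S = SS G u w`, and `p, q, B` as in `SoundTab`. `Lab G (step G d t) u w p q B` is the hypothesis
of `lab_cases`. Three cases.
(i) `B'` closed under `Dr` with `B' = B` on `S`. `node_sound` with `B'` gives `Y0`; `Y` is `Y0`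
and `attach` for `A = (K ∩ C) \ {p, q}` and `B'` (`dr_adj`); at most
`((C \ K) \ {p, q}).ncard + ((K ∩ C) \ {p, q}).ncard = (C \ {p, q}).ncard` edges. If `T` satisfies
`Dbl T p q B S` and contains `Y` then `Dbl T p q B' K`: `v ∈ K`, `v ≠ p, q`: `v ∈ S` or `v ∈ C`
(`K_sub`). `h1` of `node_sound`: `p ∉ C` or `q ∉ C` is given.
(ii) `q ∉ C`, `StarS p`, `B` false on `S \ {q}`: `star_sound` for `p`: `Y` with at most
`(C \ {p}).ncard = (C \ {p, q}).ncard` edges (`q ∉ C`). If `Dbl T p q B S` then every `s ∈ S`,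
`s ≠ p` is adjacent to `p` in `T` (`s = q`: `T.Adj p q`; otherwise `¬ B s`).
(iii) `p ∉ C`, `StarS q`, `B` true on `S \ {p}`: `star_sound` for `q`; `q` is connected to all of
`C`, and `T.Adj p q`, so `p` is. -/
theorem step_sound [Finite V] {d : Dec V} (hd : GoodDec G d) {k : ℕ} {t : Tab V}
    (ht : SoundTab G k t) : SoundTab G (k + 1) (step G d t) := by
  classical
  intro u w hsm p q B hpq h1 h2 hq hp hlab
  have hN : GoodNode G (node G d u w) := hd.2 u w hsm.1 hsm.2.1
  have hk : (node G d u w).C.ncard ≤ k + 1 := hsm.2.2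
  have h1' : p ∉ (node G d u w).C ∨ q ∉ (node G d u w).C := h1
  have h2' : G.Adj p q ∨ (p ∉ (node G d u w).C ∧ q ∉ (node G d u w).C) := h2
  have hlab' : ∀ x y, (x = p ∨ x = q ∨ x ∈ (node G d u w).S) →
      (y = p ∨ y = q ∨ y ∈ (node G d u w).S) → RS G t (node G d u w) p q x y → B x → B y := hlab
  show Ext G (node G d u w).C (((node G d u w).C \ {p, q}).ncard)
    (fun T => Dbl T p q B (node G d u w).S) p
  generalize node G d u w = N at *
  rcases lab_cases hq hp hlab' with ⟨B', hB'q, hB'p, hBS, hcl⟩ | ⟨hqC, hst, hS⟩ | ⟨hpC, hst, hS⟩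
  · obtain ⟨Y0, hY0G, hY0c, hY0⟩ := node_sound hN hk ht hpq (Or.inr (Or.inr h1')) h2' hB'q hB'p hcl
    obtain ⟨Y1, hY1G, hY1c, hY1⟩ := attach (G := G) (p := p) (q := q) (B := B')
      ((N.K ∩ N.C) \ {p, q})
      (fun v hv => (dr_adj hB'q hB'p hcl hv.1.1 (fun h => hv.2 (Or.inl h))
        (fun h => hv.2 (Or.inr h))).1)
      (fun v hv => (dr_adj hB'q hB'p hcl hv.1.1 (fun h => hv.2 (Or.inl h))
        (fun h => hv.2 (Or.inr h))).2)
    refine ⟨Y0 ∪ Y1, ?_, ?_, ?_⟩
    · intro e he
      rcases Finset.mem_union.1 he with h | h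
      · exact hY0G e h
      · exact hY1G e h
    · have hset : N.C \ {p, q} = ((N.C \ N.K) \ {p, q}) ∪ ((N.K ∩ N.C) \ {p, q}) := by
        ext x
        simp only [Set.mem_sdiff, Set.mem_union, Set.mem_inter_iff]
        tauto
      have hdis : Disjoint ((N.C \ N.K) \ {p, q}) ((N.K ∩ N.C) \ {p, q}) := by
        rw [Set.disjoint_left]
        intro x hx hx'
        exact hx.1.2 hx'.1.1
      rw [hset, Set.ncard_union_eq hdis (Set.toFinite _) (Set.toFinite _)]
      exact (Finset.card_union_le _ _).trans (Nat.add_le_add hY0c hY1c)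
    · intro T hT hYT
      have hT' : Dbl T p q B N.S := hT
      have hA := hY1 T (fun e he => hYT e (Finset.mem_union_right _ he))
      apply hY0 T _ (fun e he => hYT e (Finset.mem_union_left _ he))
      refine ⟨hT'.1, ?_⟩
      intro v hv hvp hvq
      rcases K_sub hN hv with hs | hc
      · have := hT'.2 v hs hvp hvq
        exact ⟨fun h => this.1 ((hBS v hs).1 h), fun h => this.2 (fun h' => h ((hBS v hs).2 h'))⟩
      · refine hA v ⟨⟨hv, hc⟩, ?_⟩
        rintro (h | h)
        · exact hvp h
        · exact hvq h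
  · obtain ⟨Y, hYG, hYc, hY⟩ := star_sound hN hk ht hst
    refine ⟨Y, hYG, ?_, ?_⟩
    · have hset : N.C \ {p, q} = N.C \ {p} := by
        ext x
        simp only [Set.mem_sdiff, Set.mem_insert_iff, Set.mem_singleton_iff]
        constructor
        · rintro ⟨h, h'⟩
          exact ⟨h, fun h'' => h' (Or.inl h'')⟩
        · rintro ⟨h, h'⟩
          refine ⟨h, ?_⟩
          rintro (h'' | h'')
          · exact h' h''
          · exact hqC (h'' ▸ h)
      rw [hset]
      exact hYc
    · intro T hT hYT
      have hT' : Dbl T p q B N.S := hT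
      apply hY T _ hYT
      intro s hs hsp
      by_cases hsq : s = q
      · rw [hsq]; exact hT'.1.symm
      · exact (hT'.2 s hs hsp hsq).2 (hS s hs hsq)
  · obtain ⟨Y, hYG, hYc, hY⟩ := star_sound hN hk ht hst
    refine ⟨Y, hYG, ?_, ?_⟩
    · have hset : N.C \ {p, q} = N.C \ {q} := by
        ext x
        simp only [Set.mem_sdiff, Set.mem_insert_iff, Set.mem_singleton_iff]
        constructor
        · rintro ⟨h, h'⟩
          exact ⟨h, fun h'' => h' (Or.inr h'')⟩
        · rintro ⟨h, h'⟩
          refine ⟨h, ?_⟩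
          rintro (h'' | h'')
          · exact hpC (h'' ▸ h)
          · exact h' h''
      rw [hset]
      exact hYc
    · intro T hT hYT
      have hT' : Dbl T p q B N.S := hT
      have key := hY T (by
        intro s hs hsq
        by_cases hsp : s = p
        · rw [hsp]; exact hT'.1
        · exact (hT'.2 s hs hsp hsq).1 (hS s hs hsp)) hYT
      exact ⟨fun x hx => (hT'.1.reachable).trans (key.1 x hx), key.2⟩

/-- PROOF: induction on `k` with `step_sound`; for `k = 0` there is nothing to show:
`w ∈ CC G u w`, so its `ncard` is positive. -/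
theorem val_sound [Finite V] {d : Dec V} (hd : GoodDec G d) (k : ℕ) :
    SoundTab G k (val G d k) := by
  induction k with
  | zero =>
    intro u w hsm
    exfalso
    have h1 : 0 < (CC G u w).ncard :=
      (Set.ncard_pos (Set.toFinite _)).2 ⟨w, self_mem_comp _ w⟩
    have h2 := hsm.2.2
    omega
  | succ k ih => exact step_sound hd ih

end Pool.Agent.Spanner3
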