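import Pool.Agent.Lib_MP_b5064f_t3.SpannerIff
import Pool.Agent.Lib_MP_b5064f_t3.StepSound
import Pool.Agent.Lib_MP_b5064f_t3.FinalSound
import Pool.Agent.Lib_MP_b5064f_t3.FinalComp

set_option autoImplicit false

/-!
# The dynamic program decides TREE 3-SPANNER
-/

namespace Pool.Agent.Spanner3

variable {V : Type} {G : SimpleGraph V} {r : V → ℕ}

theorem main_abstract [Finite V] (hr : IsPEO G r) (hG : G.Connected) (h2 : ∃ x y : V, x ≠ y)
    {d : Dec V} (hd : GoodDec G d) {k : ℕ} (hk : Nat.card V ≤ k + 1) :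
    Pool.Agent.Spanner.HasTreeSpanner G 3 ↔ Feas G d (val G d k) := by
  rw [good_iff hG h2]
  constructor
  · rintro ⟨T, hT⟩
    exact feas_comp hr hG h2 hd.1 hT hk (val_comp hr hG h2 hd hT k)
  · exact feas_sound hd.1 hk (val_sound hd k)

end Pool.Agent.Spanner3
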