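import Pool.Agent.Lib_MP_b5064f_t3.Defs

set_option autoImplicit false

/-!
# Piece TREETOP: connected sets in a rooted tree
-/

namespace Pool.Agent.Spanner3

variable {V : Type} {G : SimpleGraph V}

/-- PROOF: let `e : V ≃ Fin n` and `M` a bound for `f`; take `r v = (M - f v) * n + e v`. -/
theorem exists_rank [Finite V] (f : V → ℕ) :
    ∃ r : V → ℕ, Function.Injective r ∧ ∀ v x, r v < r x → f x ≤ f v := by
  obtain ⟨n, ⟨e⟩⟩ := Finite.exists_equiv_fin V
  obtain ⟨M, hM⟩ : ∃ M, ∀ v, f v ≤ M := by
    obtain ⟨M, hM⟩ := (Set.finite_range f).bddAbove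
    exact ⟨M, fun v => hM ⟨v, rfl⟩⟩
  refine ⟨fun v => (M - f v) * n + e v, ?_, ?_⟩
  · intro v x h
    have h' : (M - f v) * n + (e v : ℕ) = (M - f x) * n + (e x : ℕ) := h
    have hmod : ((M - f v) * n + (e v : ℕ)) % n = ((M - f x) * n + (e x : ℕ)) % n := by rw [h']
    rw [mul_comm, Nat.mul_add_mod, mul_comm, Nat.mul_add_mod, Nat.mod_eq_of_lt (e v).isLt,
      Nat.mod_eq_of_lt (e x).isLt] at hmod
    exact e.injective (Fin.ext hmod)
  · intro v x h
    have h' : (M - f v) * n + (e v : ℕ) < (M - f x) * n + (e x : ℕ) := h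
    by_contra hc
    push Not at hc
    have h1 : M - f x + 1 ≤ M - f v := by have := hM v; have := hM x; omega
    have h2 : (M - f x + 1) * n ≤ (M - f v) * n := Nat.mul_le_mul_right n h1
    have h3 := (e x).isLt
    have h4 : (M - f x + 1) * n = (M - f x) * n + n := by ring
    omega

/-- `A` is connected in `H` by walks inside `A`. -/
def WalkConn {W : Type} (H : SimpleGraph W) (A : Set W) : Prop :=
  ∀ x ∈ A, ∀ y ∈ A, ∃ w : H.Walk x y, ∀ z ∈ w.support, z ∈ A

/-- In a tree the path between two elements of a connected set stays in the set. PROOF: the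
`bypass`/`toPath` of the walk inside `A` is a path whose support is contained in that of the walk
(`Walk.support_bypass_subset`), and paths are unique. -/
theorem path_in {W : Type} {H : SimpleGraph W} (hH : H.IsTree) {A : Set W} (hA : WalkConn H A)
    {x y : W} (hx : x ∈ A) (hy : y ∈ A) (p : H.Walk x y) (hp : p.IsPath) :
    ∀ z ∈ p.support, z ∈ A := by
  classical
  obtain ⟨w, hw⟩ := hA x hx y hy
  have h : p = w.bypass := by
    have := hH.isAcyclic.path_unique ⟨p, hp⟩ ⟨w.bypass, w.bypass_isPath⟩
    exact congrArg Subtype.val this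
  intro z hz
  rw [h] at hz
  exact hw z (w.support_bypass_subset_support hz)

/-- The top vertex `t` of a connected set `A` (nearest to the root `ρ`) is on the path from every
`w ∈ A` to the root. PROOF: let `P1` be the path from `w` to `t` (inside `A` by `path_in`) and
`P2` a shortest path from `t` to `ρ`; the vertices of `P2` other than `t` are closer to `ρ` than
`t`, so they are not in `A`; so `P1.append P2` is a path (`Walk.IsPath` of append: supports meet
only in `t`), and it is the path from `w` to `ρ`. -/
theorem top_on_path {W : Type} {H : SimpleGraph W} (hH : H.IsTree) {A : Set W}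
    (hA : WalkConn H A) {ρ t w : W} (ht : t ∈ A) (hmin : ∀ z ∈ A, H.dist ρ t ≤ H.dist ρ z)
    (hw : w ∈ A) (Q : H.Walk w ρ) (hQ : Q.IsPath) : t ∈ Q.support := by
  classical
  obtain ⟨P1, hP1, -⟩ := hH.existsUnique_path w t
  obtain ⟨P2, hP2, hl⟩ := hH.connected.exists_path_of_dist t ρ
  have hfar : ∀ z ∈ P2.support, z ≠ t → z ∉ A := by
    intro z hz hzt hzA
    have h1 : H.dist ρ z ≤ (P2.dropUntil z hz).length := by
      rw [SimpleGraph.dist_comm]
      exact SimpleGraph.dist_le _
    have h2 : (P2.takeUntil z hz).length + (P2.dropUntil z hz).length = P2.length := by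
      rw [← SimpleGraph.Walk.length_append, SimpleGraph.Walk.take_spec]
    have h3 : 0 < (P2.takeUntil z hz).length := by
      rcases Nat.eq_zero_or_pos (P2.takeUntil z hz).length with h | h
      · exact absurd (SimpleGraph.Walk.eq_of_length_eq_zero h) (Ne.symm hzt)
      · exact h
    have h4 := hmin z hzA
    rw [SimpleGraph.dist_comm] at hl
    omega
  have hpath : (P1.append P2).IsPath := by
    rw [SimpleGraph.Walk.isPath_def, SimpleGraph.Walk.support_append, List.nodup_append']
    have hnd := hP2.support_nodup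
    rw [← SimpleGraph.Walk.cons_tail_support P2, List.nodup_cons] at hnd
    refine ⟨hP1.support_nodup, hnd.2, ?_⟩
    intro z hz1 hz2
    have hz3 : z ∈ P2.support := List.mem_of_mem_tail hz2
    have hzt : z ≠ t := by
      rintro rfl
      exact hnd.1 hz2
    exact hfar z hz3 hzt (path_in hH hA hw ht P1 hP1 z hz1)
  have h : Q = P1.append P2 := by
    have := hH.isAcyclic.path_unique ⟨Q, hQ⟩ ⟨P1.append P2, hpath⟩
    exact congrArg Subtype.val this
  rw [h, SimpleGraph.Walk.mem_support_append_iff]
  exact Or.inl P1.end_mem_support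

/-- PROOF. Let `Q` be the path from the common vertex `w` to `ρ`. `a` and `b` are on `Q` by
`top_on_path`. The part of `Q` from `w` to `b` (`Q.takeUntil b`) is a path from `w ∈ B` to
`b ∈ B`, so it is inside `B` (`path_in`). `a` is on `Q`; if `a` is not on that part, then it is on
the rest, the path from `b` to `ρ`, and `a ≠ b`, so `a` is closer to `ρ` than `b` (subpaths of
paths in a tree are shortest): contradiction with `H.dist ρ b ≤ H.dist ρ a`. -/
theorem top_mem {W : Type} {H : SimpleGraph W} (hH : H.IsTree) {A B : Set W}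
    (hA : WalkConn H A) (hB : WalkConn H B) {ρ a b w : W} (ha : a ∈ A)
    (hamin : ∀ z ∈ A, H.dist ρ a ≤ H.dist ρ z) (hb : b ∈ B)
    (hbmin : ∀ z ∈ B, H.dist ρ b ≤ H.dist ρ z) (hwA : w ∈ A) (hwB : w ∈ B)
    (hab : H.dist ρ b ≤ H.dist ρ a) : a ∈ B := by
  classical
  obtain ⟨Q, hQ, -⟩ := hH.existsUnique_path w ρ
  have haQ := top_on_path hH hA ha hamin hwA Q hQ
  have hbQ := top_on_path hH hB hb hbmin hwB Q hQ
  by_cases h1 : a ∈ (Q.takeUntil b hbQ).support
  · exact path_in hH hB hwB hb (Q.takeUntil b hbQ) (hQ.takeUntil hbQ) a h1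
  · have h2 : a ∈ (Q.dropUntil b hbQ).support := by
      have h3 : a ∈ ((Q.takeUntil b hbQ).append (Q.dropUntil b hbQ)).support := by
        rw [SimpleGraph.Walk.take_spec]
        exact haQ
      rw [SimpleGraph.Walk.mem_support_append_iff] at h3
      exact h3.resolve_left h1
    by_cases hab' : a = b
    · rw [hab']
      exact hb
    exfalso
    set R := Q.dropUntil b hbQ with hR
    have hRp : R.IsPath := hQ.dropUntil hbQ
    have hlen : R.length = H.dist ρ b := by
      obtain ⟨P2, hP2, hl⟩ := hH.connected.exists_path_of_dist b ρ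
      have : R = P2 := by
        have := hH.isAcyclic.path_unique ⟨R, hRp⟩ ⟨P2, hP2⟩
        exact congrArg Subtype.val this
      rw [this, hl, SimpleGraph.dist_comm]
    have h4 : H.dist ρ a ≤ (R.dropUntil a h2).length := by
      rw [SimpleGraph.dist_comm]
      exact SimpleGraph.dist_le _
    have h5 : (R.takeUntil a h2).length + (R.dropUntil a h2).length = R.length := by
      rw [← SimpleGraph.Walk.length_append, SimpleGraph.Walk.take_spec]
    have h6 : 0 < (R.takeUntil a h2).length := by
      rcases Nat.eq_zero_or_pos (R.takeUntil a h2).length with h | h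
      · exact absurd (SimpleGraph.Walk.eq_of_length_eq_zero h) (Ne.symm hab')
      · exact h
    omega

end Pool.Agent.Spanner3
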