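import Pool.Agent.Lib_MP_b5064f_lc.Defs
import Pool.Agent.Lib_MP_b5064f_t3.TreeTop

set_option autoImplicit false

/-!
# Piece PATHPEO: path graphs have a perfect elimination ordering
-/

namespace Pool.Agent.Spanner3

variable {V : Type} {G : SimpleGraph V}

theorem pathpeo_conn {W : Type} {H : SimpleGraph W} {a b : W} (P : H.Walk a b) :
    WalkConn H {w | w ∈ P.support} := by
  classical
  intro x hx y hy
  refine ⟨(P.takeUntil x hx).reverse.append (P.takeUntil y hy), fun z hz => ?_⟩
  rw [SimpleGraph.Walk.mem_support_append_iff] at hz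
  rcases hz with hz | hz
  · rw [SimpleGraph.Walk.support_reverse, List.mem_reverse] at hz
    exact P.support_takeUntil_subset_support hx hz
  · exact P.support_takeUntil_subset_support hy hz

/-- PROOF. If `V` is empty take `r = 0`. Otherwise the host tree `H` on `W` has a vertex `ρ`. The
set `A v` of the vertices of the path `P v` is `WalkConn` (`takeUntil`/`dropUntil`, or
`Walk.toSubgraph_connected`) and finite, not empty; let `top v` be an element of `A v` nearest to
`ρ`, and let `r` be the rank of `exists_rank` for `f v = H.dist ρ (top v)`. If `x`, `y` are later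
neighbours of `v` then `f x ≤ f v`, `f y ≤ f v`, so `top v ∈ A x` and `top v ∈ A y` by `top_mem`,
so `x` and `y` are adjacent. -/
theorem path_peo [Finite V] (h : Pool.Agent.Spanner.IsPathGraph G) : ∃ r, IsPEO G r := by
  obtain ⟨W, _, H, a, b, P, hH, hP, hadj⟩ := h
  rcases isEmpty_or_nonempty V with hV | ⟨⟨v0⟩⟩
  · exact ⟨fun _ => 0, fun x => (hV.false x).elim, fun v => (hV.false v).elim⟩
  have hex : ∀ v, ∃ t, t ∈ {w | w ∈ (P v).support} ∧
      ∀ z ∈ {w | w ∈ (P v).support}, H.dist (a v0) t ≤ H.dist (a v0) z := by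
    intro v
    obtain ⟨t, ht, hmin⟩ := Set.exists_min_image {w | w ∈ (P v).support}
      (fun z => H.dist (a v0) z) (Set.toFinite _) ⟨a v, (P v).start_mem_support⟩
    exact ⟨t, ht, hmin⟩
  choose top htop hmin using hex
  obtain ⟨r, hr, hrf⟩ := exists_rank (fun v => H.dist (a v0) (top v))
  refine ⟨r, hr, fun v x y hvx hvy hx hy hxy => ?_⟩
  have key : ∀ x, G.Adj v x → r v < r x → top v ∈ (P x).support := by
    intro x hvx hx
    obtain ⟨_, w, hw1, hw2⟩ := (hadj v x).1 hvx
    exact top_mem hH (pathpeo_conn (P v)) (pathpeo_conn (P x)) (htop v) (hmin v) (htop x)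
      (hmin x) hw1 hw2 (hrf v x hx)
  exact (hadj x y).2 ⟨hxy, top v, key x hvx hx, key y hvy hy⟩

end Pool.Agent.Spanner3
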