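import Pool.Agent.Lib_MP_b5064f_t3.Defs

set_option autoImplicit false

/-!
# Graphs with a perfect elimination ordering are chordal
-/

namespace Pool.Agent.Spanner3

variable {V : Type} {G : SimpleGraph V} {r : V → ℕ}

theorem mem_edges_getVert {u v : V} (w : G.Walk u v) {e : Sym2 V} (he : e ∈ w.edges) :
    ∃ i, i < w.length ∧ e = s(w.getVert i, w.getVert (i + 1)) := by
  induction w with
  | nil => simp at he
  | cons h p ih =>
    rw [SimpleGraph.Walk.edges_cons, List.mem_cons] at he
    rcases he with rfl | he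
    · exact ⟨0, by simp, by simp⟩
    · obtain ⟨i, hi, rfl⟩ := ih he
      exact ⟨i + 1, by simpa using hi, by simp⟩

theorem peo_chordal (hr : IsPEO G r) : IsChordal G := by
  classical
  intro v c hc h4
  obtain ⟨m, hm, hmin⟩ : ∃ m ∈ c.support, ∀ z ∈ c.support, r m ≤ r z := by
    obtain ⟨m, hm, h⟩ := Finset.exists_min_image c.support.toFinset r ⟨v, by simp⟩
    exact ⟨m, by simpa using hm, fun z hz => h z (by simpa using hz)⟩
  set c' := c.rotate m hm with hc'def
  have hc' : c'.IsCycle := hc.rotate hm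
  have hlen : c'.length = c.length := by
    rw [hc'def, SimpleGraph.Walk.length_rotate]
  have hsup : ∀ z, z ∈ c'.support → z ∈ c.support := by
    intro z hz
    rw [hc'def] at hz
    exact (SimpleGraph.Walk.mem_support_rotate_iff c m hm).1 hz
  have hedge : ∀ e, e ∈ c.edges → e ∈ c'.edges := by
    intro e he
    rw [hc'def]
    exact (SimpleGraph.Walk.rotate_edges c m hm).mem_iff.2 he
  set x := c'.getVert 1 with hx
  set y := c'.getVert (c'.length - 1) with hy
  have hinj := hc'.getVert_injOn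
  have h0 : c'.getVert 0 = m := c'.getVert_zero
  have hl : c'.getVert c'.length = m := c'.getVert_length
  have hmx : G.Adj m x := by
    have := c'.adj_getVert_succ (i := 0) (by omega)
    rwa [h0] at this
  have hmy : G.Adj m y := by
    have := c'.adj_getVert_succ (i := c'.length - 1) (by omega)
    rw [show c'.length - 1 + 1 = c'.length by omega, hl] at this
    exact this.symm
  have hxy : x ≠ y := by
    intro h
    have := hinj (show (1 : ℕ) ∈ {i | 1 ≤ i ∧ i ≤ c'.length} from ⟨le_rfl, by omega⟩)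
      (show c'.length - 1 ∈ {i | 1 ≤ i ∧ i ≤ c'.length} from ⟨by omega, by omega⟩) h
    omega
  have hxs : x ∈ c.support := hsup x (c'.getVert_mem_support 1)
  have hys : y ∈ c.support := hsup y (c'.getVert_mem_support _)
  have hrx : r m < r x := lt_of_le_of_ne (hmin x hxs) (fun h => hmx.ne (hr.1 h))
  have hry : r m < r y := lt_of_le_of_ne (hmin y hys) (fun h => hmy.ne (hr.1 h))
  refine ⟨x, hxs, y, hys, hr.2 m x y hmx hmy hrx hry hxy, fun he => ?_⟩
  obtain ⟨i, hi, h⟩ := mem_edges_getVert c' (hedge _ he)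
  rw [Sym2.eq_iff] at h
  rcases h with ⟨h1, h2⟩ | ⟨h1, h2⟩
  · rcases Nat.eq_zero_or_pos i with rfl | hpos
    · rw [h0] at h1
      exact hmx.ne h1.symm
    · have e1 := hinj (show (1 : ℕ) ∈ {i | 1 ≤ i ∧ i ≤ c'.length} from ⟨le_rfl, by omega⟩)
        (show i ∈ {i | 1 ≤ i ∧ i ≤ c'.length} from ⟨by omega, by omega⟩) h1
      have e2 := hinj (show c'.length - 1 ∈ {i | 1 ≤ i ∧ i ≤ c'.length} from
        ⟨by omega, by omega⟩)
        (show i + 1 ∈ {i | 1 ≤ i ∧ i ≤ c'.length} from ⟨by omega, by omega⟩) h2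
      omega
  · have e1 := hinj (show (1 : ℕ) ∈ {i | 1 ≤ i ∧ i ≤ c'.length} from ⟨le_rfl, by omega⟩)
      (show i + 1 ∈ {i | 1 ≤ i ∧ i ≤ c'.length} from ⟨by omega, by omega⟩) h1
    have e2 : i = 0 := by omega
    subst e2
    rw [h0] at h2
    exact hmy.ne h2.symm

end Pool.Agent.Spanner3
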