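import Pool.Agent.Lib_MP_b5064f_lc.NPMem
import Pool.Agent.Lib_MP_b5064f_t3.Main
import Pool.Agent.Lib_MP_b5064f_t3.EquivStep
import Pool.Agent.Lib_MP_b5064f_t3.FPStep
import Pool.Agent.Lib_MP_b5064f_t3.PathPeo
import Pool.Agent.Lib_MP_b5064f_t3.ChordalPeo
import Pool.Agent.Lib_MP_b5064f_t3.PeoChordal
import Pool.Agent.Lib_MP_b5064f_t3.FPElim

set_option autoImplicit false

/-!
# TREE 3-SPANNER is polynomial on chordal graphs
-/

namespace Pool.Agent.Spanner3

open Pool.Agent.PartSep Pool.Agent.PartSep.TM Pool.Agent.PartSep.TM.Rep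
open Pool.Agent.Lib_MP_8cd8c6_lc
open Pool.Agent.Spanner
open N487b59b3

/-- the algorithm on matrices -/
def algM (n : ℕ) (a : ℕ → ℕ → Bool) : Bool :=
  decide (0 < n) && (connB n a && (chordB n a && algB n a))

/-- the algorithm on bit strings -/
noncomputable def algW (w : List Bool) : Bool :=
  valid (w.map bs) && algM (rows (w.map bs)) (ent (w.map bs))

open Classical in
/-- The decision problem TREE `t`-SPANNER on chordal graphs: is the given string the code of a
chordal graph which has a tree `t`-spanner? -/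
noncomputable def chordalTreeSpanner (t : ℕ) : List Bool → Bool := fun w =>
  decide (∃ (n : ℕ) (G : SimpleGraph (Fin n)), w = graphCode G ∧ IsChordal G ∧
    HasTreeSpanner G t)

theorem isPolyTime_algW : N68a2faeb.IsPolyTime algW := by
  have hw : FP (fun z : List Sym => (splitB z).flatMap (fun s => s)) :=
    FP.flatMapS (FP.splitB FP.id) (g := fun y : List Sym × List Sym => y.2) FP.snd
  have hr := fp_rows hw
  refine FP.toTM2 (αΓ := Bool) (βΓ := Bool) bs sb bs sb_bs
    (fp_bs (FP.and (fp_valid hw) (FP.and (FP.natLt (FP.const 0) hr) (FP.and (fp_connB hw)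
      (FP.and (fp_chordB hw) (fp_algB hw)))))) (fun x => ?_)
  change [bs (valid ((splitB ((bitEncode x).map bs)).flatMap (fun s => s)) &&
    algM (rows ((splitB ((bitEncode x).map bs)).flatMap (fun s => s)))
    (ent ((splitB ((bitEncode x).map bs)).flatMap (fun s => s))))] = [bs (algW x)]
  rw [splitB_bits, flatMap_id_single]
  rfl

theorem treeSpanner_one {G : SimpleGraph (Fin 1)} (t : ℕ) : HasTreeSpanner G t := by
  refine ⟨G, le_rfl, ⟨⟨fun x y => ?_⟩, fun v c hc => ?_⟩, fun x y => ?_⟩
  · rw [Subsingleton.elim x y]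
  · have := hc.three_le_length
    cases c with
    | nil => simp at this
    | cons h p => exact absurd h (by rw [Subsingleton.elim v _]; exact SimpleGraph.irrefl _)
  · rw [Subsingleton.elim x y]; simp

theorem connected_of_spanner {V : Type} {G : SimpleGraph V} {t : ℕ} (h : HasTreeSpanner G t) :
    G.Connected := by
  obtain ⟨T, hTG, hT, _⟩ := h
  exact hT.1.mono hTG

theorem algM_iff {n : ℕ} {a : ℕ → ℕ → Bool} {G : SimpleGraph (Fin n)} (ha : Mat a G) :
    algM n a = true ↔ IsChordal G ∧ HasTreeSpanner G 3 := by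
  have key : ∀ (hpos : 0 < n) (r : Fin n → ℕ), IsPEO G r → G.Connected →
      (algB n a = true ↔ HasTreeSpanner G 3) := by
    intro hpos r hr hG
    rw [algB_iff ha]
    by_cases h1 : n = 1
    · subst h1
      simp only [true_or, true_iff]
      exact treeSpanner_one 3
    · have h2 : ∃ x y : Fin n, x ≠ y :=
        ⟨⟨0, hpos⟩, ⟨1, by omega⟩, by simp⟩
      rw [main_abstract hr hG h2 (goodDec ha hr hpos) (k := n) (by simp)]
      simp [h1]
  unfold algM
  rw [Bool.and_eq_true, Bool.and_eq_true, Bool.and_eq_true, decide_eq_true_eq, chordB_iff ha]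
  constructor
  · rintro ⟨hpos, h1, ⟨r, hr⟩, h3⟩
    exact ⟨peo_chordal hr, (key hpos r hr ((connB_iff ha hpos).1 h1)).1 h3⟩
  · rintro ⟨h1, h2⟩
    have hG := connected_of_spanner h2
    obtain ⟨v⟩ := hG.nonempty
    obtain ⟨r, hr⟩ := chordal_peo h1
    exact ⟨v.pos, (connB_iff ha v.pos).2 hG, ⟨r, hr⟩, (key v.pos r hr hG).2 h2⟩

theorem algW_eq : algW = chordalTreeSpanner 3 := by
  classical
  funext w
  have h0 : chordalTreeSpanner 3 w = true ↔ ∃ (n : ℕ) (G : SimpleGraph (Fin n)),
      w = graphCode G ∧ IsChordal G ∧ HasTreeSpanner G 3 := by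
    unfold chordalTreeSpanner
    simp
  rw [Bool.eq_iff_iff, h0]
  unfold algW
  rw [Bool.and_eq_true]
  constructor
  · rintro ⟨h1, h2⟩
    obtain ⟨G, hw, hG⟩ := exists_graph h1
    exact ⟨_, G, hw, (algM_iff (fun i j => (hG i j).symm)).1 h2⟩
  · rintro ⟨n, G, rfl, h⟩
    have ha : Mat (ent ((graphCode G).map bs)) G := fun i j => (ent_encode G i j).symm
    have hn : rows ((graphCode G).map bs) = n := rows_encode G
    exact ⟨valid_encode G, by rw [hn]; exact (algM_iff ha).2 h⟩

theorem chordalTreeSpanner_mem_P : chordalTreeSpanner 3 ∈ N68a2faeb.P := by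
  rw [← algW_eq]
  exact isPolyTime_algW

theorem chordalTreeSpanner_graphCode {t n : ℕ} {G : SimpleGraph (Fin n)} (h : IsChordal G) :
    chordalTreeSpanner t (graphCode G) = true ↔ HasTreeSpanner G t := by
  classical
  unfold chordalTreeSpanner
  rw [decide_eq_true_eq]
  constructor
  · rintro ⟨m, H, h1, _, h3⟩
    exact (graphCode_inj h1 (fun _ G => HasTreeSpanner G t)).2 h3
  · exact fun h' => ⟨n, G, rfl, h, h'⟩

end Pool.Agent.Spanner3
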