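import Pool.Agent.Lib_MP_b5064f_t3.ListSets

set_option autoImplicit false

/-!
# Piece GROW: greedy maximal cliques
-/

namespace Pool.Agent.Spanner3

open Relation

variable {n : ℕ} {a : ℕ → ℕ → Bool} {G : SimpleGraph (Fin n)}

/-- one step of the greedy extension -/
def growStep (a : ℕ → ℕ → Bool) (Q : List ℕ) (v : ℕ) : List ℕ :=
  if Q.all (fun x => a x v) then v :: Q else Q

theorem growL_eq (Q : List ℕ) : growL n a Q = (List.range n).foldl (growStep a) Q := rfl

theorem grow_fold_lt (L : List ℕ) (hL : ∀ x ∈ L, x < n) {Q : List ℕ} (hQ : ∀ x ∈ Q, x < n) :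
    ∀ x ∈ L.foldl (growStep a) Q, x < n := by
  induction L generalizing Q with
  | nil => exact hQ
  | cons v L ih =>
    rw [List.foldl_cons]
    apply ih (fun x hx => hL x (List.mem_cons_of_mem _ hx))
    intro x hx
    unfold growStep at hx
    split_ifs at hx with h
    · rcases List.mem_cons.1 hx with h1 | h1
      · exact h1 ▸ hL v (by simp)
      · exact hQ x h1
    · exact hQ x hx

theorem grow_step_sub {Q : List ℕ} {v x : ℕ} (hx : x ∈ Q) : x ∈ growStep a Q v := by
  unfold growStep
  split_ifs
  · exact List.mem_cons_of_mem _ hx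
  · exact hx

theorem grow_fold_sub (L : List ℕ) {Q : List ℕ} :
    ∀ x ∈ Q, x ∈ L.foldl (growStep a) Q := by
  induction L generalizing Q with
  | nil => exact fun x hx => hx
  | cons v L ih =>
    intro x hx
    rw [List.foldl_cons]
    exact ih x (grow_step_sub hx)

theorem grow_fold_clique (ha : Mat a G) (L : List ℕ) (hL : ∀ x ∈ L, x < n) {Q : List ℕ}
    (hc : ∀ x y : Fin n, (x : ℕ) ∈ Q → (y : ℕ) ∈ Q → x ≠ y → G.Adj x y) :
    ∀ x y : Fin n, (x : ℕ) ∈ L.foldl (growStep a) Q → (y : ℕ) ∈ L.foldl (growStep a) Q →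
      x ≠ y → G.Adj x y := by
  induction L generalizing Q with
  | nil => exact hc
  | cons v L ih =>
    rw [List.foldl_cons]
    apply ih (fun x hx => hL x (List.mem_cons_of_mem _ hx))
    unfold growStep
    split_ifs with h
    · rw [List.all_eq_true] at h
      have hv : v < n := hL v (by simp)
      have key : ∀ x : Fin n, (x : ℕ) ∈ Q → G.Adj x ⟨v, hv⟩ :=
        fun x hx => (ha x ⟨v, hv⟩).1 (h x hx)
      intro x y hx hy hxy
      rcases List.mem_cons.1 hx with h1 | h1 <;> rcases List.mem_cons.1 hy with h2 | h2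
      · exact absurd (Fin.ext (h1.trans h2.symm)) hxy
      · have : x = ⟨v, hv⟩ := Fin.ext h1
        rw [this]
        exact (key y h2).symm
      · have : y = ⟨v, hv⟩ := Fin.ext h2
        rw [this]
        exact key x h1
      · exact hc x y h1 h2 hxy
    · exact hc

theorem grow_fold_max (L : List ℕ) {Q : List ℕ} {z : ℕ} (hz : z ∈ L)
    (hn : z ∉ L.foldl (growStep a) Q) : ∃ x ∈ L.foldl (growStep a) Q, a x z = false := by
  induction L generalizing Q with
  | nil => exact absurd hz (by simp)
  | cons v L ih =>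
    rw [List.foldl_cons] at hn ⊢
    rcases List.mem_cons.1 hz with h1 | h1
    · subst h1
      by_cases h : Q.all (fun x => a x z) = true
      · exfalso
        apply hn
        apply grow_fold_sub
        unfold growStep
        rw [if_pos h]
        simp
      · rw [List.all_eq_true] at h
        push Not at h
        obtain ⟨x, hx, hxz⟩ := h
        exact ⟨x, grow_fold_sub L x (grow_step_sub hx), Bool.eq_false_iff.2 hxz⟩
    · exact ih h1 hn

/-- PROOF: induction along the fold. -/
theorem growL_lt {Q : List ℕ} (hQ : ∀ x ∈ Q, x < n) : ∀ x ∈ growL n a Q, x < n := by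
  rw [growL_eq]
  exact grow_fold_lt _ (fun x hx => List.mem_range.1 hx) hQ

theorem subset_growL {Q : List ℕ} : ∀ x ∈ Q, x ∈ growL n a Q := by
  rw [growL_eq]
  exact grow_fold_sub _

/-- Greedy extension gives a maximal clique. PROOF: clique: induction along the fold (the added
`v` is adjacent to all previous elements, `a` is symmetric on indices `< n` since `G.Adj` is).
Maximal: let `z ∉ growL`; when the fold treats `z` (split `List.range n` at `z`), `z` was not
added, so some element `x` of the current list `Q' ⊆ growL` has `a x z = false`. -/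
theorem growL_max (ha : Mat a G) {Q : List ℕ} (hQ : ∀ x ∈ Q, x < n)
    (hc : ∀ x ∈ (setL Q : Set (Fin n)), ∀ y ∈ (setL Q : Set (Fin n)), x ≠ y → G.Adj x y) :
    MaxCl G (setL (growL n a Q)) := by
  constructor
  · intro x hx y hy hxy
    refine grow_fold_clique ha (List.range n) (fun x hx => List.mem_range.1 hx) (Q := Q) ?_ x y
      hx hy hxy
    exact fun x y hx hy => hc x hx y hy
  · intro z hz
    obtain ⟨x, hx, hxz⟩ := grow_fold_max (a := a) (List.range n) (Q := Q)
      (List.mem_range.2 z.isLt) hz
    have hxn : x < n := growL_lt hQ x hx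
    refine ⟨⟨x, hxn⟩, hx, fun h => ?_⟩
    have := (ha ⟨x, hxn⟩ z).2 h.symm
    simp only at this
    rw [hxz] at this
    exact absurd this (by simp)

theorem KL_lt (ha : Mat a G) (u w : Fin n) : ∀ x ∈ KL n a u w, x < n := by
  unfold KL
  apply growL_lt
  intro x hx
  rcases List.mem_cons.1 hx with h1 | h1
  · rw [h1]
    unfold w0L
    apply fstL_lt (lt_of_le_of_lt (Nat.zero_le _) u.isLt)
    intro y hy
    exact (lrep_C ha u w).1 y (List.mem_filter.1 hy).1
  · exact (lrep_S ha u w).1 x h1

end Pool.Agent.Spanner3
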