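import Pool.Agent.Lib_MP_b5064f_t3.PeoSep

set_option autoImplicit false

/-!
# Piece NODES: components
-/

namespace Pool.Agent.Spanner3

open Relation

variable {V : Type} {G : SimpleGraph V} {r : V → ℕ}

theorem self_mem_comp (X : Set V) (w : V) : w ∈ comp G X w := ReflTransGen.refl

/-- PROOF: induction on the chain. -/
theorem not_mem_of_comp {X : Set V} {w x : V} (hw : w ∉ X) (hx : x ∈ comp G X w) : x ∉ X := by
  have hx' : ReflTransGen (fun a b => G.Adj a b ∧ b ∉ X) w x := hx
  cases hx' with
  | refl => exact hw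
  | tail _ h => exact h.2

theorem nodes_rev {X : Set V} {w x : V} (hw : w ∉ X) (hx : x ∈ comp G X w) :
    w ∈ comp G X x := by
  have hx' : ReflTransGen (fun a b => G.Adj a b ∧ b ∉ X) w x := hx
  induction hx' with
  | refl => exact ReflTransGen.refl
  | tail h1 h2 ih => exact ReflTransGen.head ⟨h2.1.symm, not_mem_of_comp hw h1⟩ (ih h1)

/-- A component is closed under the edges of `G - X`. -/
theorem comp_step {X : Set V} {w x y : V} (hx : x ∈ comp G X w) (hxy : G.Adj x y) (hy : y ∉ X) :
    y ∈ comp G X w := ReflTransGen.tail hx ⟨hxy, hy⟩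

/-- PROOF: a chain from `w` to `x` in `G - X` can be reversed (all its vertices, `w` included, are
outside `X`): induction. Then both inclusions by transitivity. -/
theorem comp_eq {X : Set V} {w x : V} (hw : w ∉ X) (hx : x ∈ comp G X w) :
    comp G X x = comp G X w := by
  ext y
  constructor
  · intro hy
    exact ReflTransGen.trans hx hy
  · intro hy
    exact ReflTransGen.trans (nodes_rev hw hx) hy

/-- PROOF: from `comp_eq`: `y ∈ comp G X w = comp G X x`, and all vertices of the chain from `x`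
to `y` are in `comp G X x = comp G X w`. -/
theorem comp_conn {X : Set V} {w : V} (hw : w ∉ X) : ConnIn G (comp G X w) := by
  intro x hx y hy
  rw [← comp_eq hw hx] at hy
  have hy' : ReflTransGen (fun a b => G.Adj a b ∧ b ∉ X) x y := hy
  induction hy' with
  | refl => exact ReflTransGen.refl
  | tail h1 h2 ih =>
    refine ReflTransGen.tail (ih h1) ⟨h2.1, ?_⟩
    rw [← comp_eq hw hx]
    exact hy

theorem nodes_notin {u w : V} (huw : u ≠ w) (h : ¬ G.Adj u w) :
    w ∉ {x | x = u ∨ G.Adj u x} := by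
  rintro (h1 | h1)
  · exact huw h1.symm
  · exact h h1

theorem nodes_adj {u w x : V} (huw : u ≠ w) (h : ¬ G.Adj u w) (hx : x ∈ SS G u w) :
    G.Adj u x := by
  obtain ⟨hx1, c, hc, hcx⟩ := hx
  have hcX := not_mem_of_comp (nodes_notin huw h) hc
  by_contra hux
  apply hx1
  refine comp_step hc hcx ?_
  rintro (h1 | h1)
  · apply hcX
    right
    rw [← h1]
    exact hcx.symm
  · exact hux h1

/-- Separators are cliques. PROOF: `peo_sep` with `C = CC G u w` (connected by `comp_conn`;
`u ∉ C` and `u` is not adjacent to `C` by `not_mem_of_comp`). An element `x` of `SS G u w` is not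
in `C` and has a neighbour in `C`; it is adjacent to `u`: otherwise (`x = u` is impossible, since
`u` has no neighbour in `C`) it would be in `C` by `comp_step`. -/
theorem SS_clique [Finite V] (hr : IsPEO G r) {u w : V} (huw : u ≠ w) (h : ¬ G.Adj u w) :
    ∀ x ∈ SS G u w, ∀ y ∈ SS G u w, x ≠ y → G.Adj x y := by
  intro x hx y hy hxy
  have hw := nodes_notin huw h
  refine peo_sep hr (CC G u w) (comp_conn hw) (u := u) ?_ hx.1 hy.1 hxy (nodes_adj huw h hx)
    (nodes_adj huw h hy) ?_ ?_ ?_
  · intro hu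
    exact not_mem_of_comp hw hu (Or.inl rfl)
  · intro c hc hadj
    exact not_mem_of_comp hw hc (Or.inr hadj)
  · obtain ⟨_, c, hc, hcx⟩ := hx
    exact ⟨c, hc, hcx.symm⟩
  · obtain ⟨_, c, hc, hcx⟩ := hy
    exact ⟨c, hc, hcx.symm⟩

/-- PROOF: `peo_full` with `C = CC G u w` and `S = SS G u w`. -/
theorem exists_full [Finite V] (hr : IsPEO G r) {u w : V} (huw : u ≠ w) (h : ¬ G.Adj u w) :
    ∃ w0 ∈ CC G u w, ∀ s ∈ SS G u w, G.Adj s w0 := by
  refine peo_full hr (CC G u w) (SS G u w) (comp_conn (nodes_notin huw h))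
    ⟨w, self_mem_comp _ w⟩ (SS_clique hr huw h) (fun x hx => hx.1) ?_
  rintro x ⟨_, c, hc, hcx⟩
  exact ⟨c, hc, hcx.symm⟩

/-- PROOF: otherwise every element of `K` is in `nb G (comp G K v)`, so it is not in the component
and has a neighbour in it; by `peo_full` (with `S = K`) there is `z` in the component, so
`z ∉ K` (`not_mem_of_comp`), adjacent to all of `K`, contradicting the maximality of `K`. -/
theorem exists_out [Finite V] (hr : IsPEO G r) {K : Set V} (hK : MaxCl G K) {v : V}
    (hv : v ∉ K) : ∃ o ∈ K, o ∉ nb G (comp G K v) := by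
  by_contra hcon
  push Not at hcon
  obtain ⟨z, hz, hadj⟩ := peo_full hr (comp G K v) K (comp_conn hv) ⟨v, self_mem_comp _ v⟩ hK.1
    (fun x hx => (hcon x hx).1) (fun x hx => by
      obtain ⟨_, c, hc, hcx⟩ := hcon x hx
      exact ⟨c, hc, hcx.symm⟩)
  obtain ⟨x, hx, hnx⟩ := hK.2 z (not_mem_of_comp hv hz)
  exact hnx (hadj x hx).symm

end Pool.Agent.Spanner3
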