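import Pool.Agent.Lib_MP_b5064f_t3.Reach
import Pool.Agent.Lib_MP_b5064f_t3.Nodes

set_option autoImplicit false

/-!
# Piece LISTSETS: the lists of the algorithm represent the sets of the theory
-/

namespace Pool.Agent.Spanner3

open Relation

/-- The list `l` represents the set `A`. -/
def LRep {n : ℕ} (l : List ℕ) (A : Set (Fin n)) : Prop :=
  (∀ x ∈ l, x < n) ∧ ∀ i : Fin n, (i : ℕ) ∈ l ↔ i ∈ A

/-- The set represented by a list. -/
def setL {n : ℕ} (l : List ℕ) : Set (Fin n) := {i | (i : ℕ) ∈ l}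

theorem lrep_setL {n : ℕ} {l : List ℕ} (h : ∀ x ∈ l, x < n) :
    LRep l (setL l : Set (Fin n)) := ⟨h, fun _ => Iff.rfl⟩

/-- `a` is the adjacency matrix of `G`. -/
def Mat {n : ℕ} (a : ℕ → ℕ → Bool) (G : SimpleGraph (Fin n)) : Prop :=
  ∀ i j : Fin n, a i j = true ↔ G.Adj i j

variable {n : ℕ} {a : ℕ → ℕ → Bool} {G : SimpleGraph (Fin n)}

theorem lrep_comp (ha : Mat a G) {X : List ℕ} {A : Set (Fin n)} (hX : LRep X A) (w : Fin n) :
    LRep (compL n a X w) (comp G A w) := by
  have hS : ∀ x ∈ [(w : ℕ)], x < n := by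
    intro x hx
    rw [List.mem_singleton] at hx
    subst hx
    exact w.isLt
  refine ⟨reachL_lt hS, fun i => ?_⟩
  unfold compL
  rw [mem_reachL_fin (R := fun i j : Fin n => G.Adj i j ∧ j ∉ A) ?_ hS]
  · constructor
    · rintro ⟨j, hj, hji⟩
      rw [List.mem_singleton] at hj
      have : j = w := Fin.ext hj
      subst this
      exact hji
    · intro h
      exact ⟨w, List.mem_singleton.2 rfl, h⟩
  · intro i j
    rw [Bool.and_eq_true, ha i j, Bool.not_eq_true', ← hX.2 j, Bool.eq_false_iff, Ne, mm_iff]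

theorem lrep_nb (ha : Mat a G) {C : List ℕ} {A : Set (Fin n)} (hC : LRep C A) :
    LRep (nbL n a C) (nb G A) := by
  refine ⟨?_, fun i => ?_⟩
  · intro x hx
    unfold nbL at hx
    exact List.mem_range.1 (List.mem_filter.1 hx).1
  · unfold nbL nb
    rw [List.mem_filter, List.mem_range, Bool.and_eq_true, Bool.not_eq_true', Bool.eq_false_iff,
      Ne, mm_iff, hC.2 i, List.any_eq_true]
    constructor
    · rintro ⟨-, h1, c, hc, hci⟩
      have hc' := hC.1 c hc
      exact ⟨h1, ⟨c, hc'⟩, (hC.2 ⟨c, hc'⟩).1 hc, (ha ⟨c, hc'⟩ i).1 hci⟩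
    · rintro ⟨h1, c, hc, hci⟩
      exact ⟨i.isLt, h1, c, (hC.2 c).2 hc, (ha c i).2 hci⟩

theorem lrep_N (ha : Mat a G) (u : Fin n) :
    LRep (NL n a u) {x : Fin n | x = u ∨ G.Adj u x} := by
  refine ⟨?_, fun i => ?_⟩
  · intro x hx
    unfold NL at hx
    exact List.mem_range.1 (List.mem_filter.1 hx).1
  · unfold NL
    rw [List.mem_filter, List.mem_range, Bool.or_eq_true, decide_eq_true_iff, ha u i,
      Set.mem_setOf_eq]
    constructor
    · rintro ⟨-, h1 | h1⟩
      · exact Or.inl (Fin.ext h1)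
      · exact Or.inr h1
    · rintro (h1 | h1)
      · exact ⟨i.isLt, Or.inl (by rw [h1])⟩
      · exact ⟨i.isLt, Or.inr h1⟩

theorem lrep_C (ha : Mat a G) (u w : Fin n) : LRep (CL n a u w) (CC G u w) :=
  lrep_comp ha (lrep_N ha u) w

theorem lrep_S (ha : Mat a G) (u w : Fin n) : LRep (SL n a u w) (SS G u w) :=
  lrep_nb ha (lrep_C ha u w)

/-- PROOF: `l[0]?` is `none` or an element of `l`. -/
theorem fstL_lt (hn : 0 < n) {l : List ℕ} (h : ∀ x ∈ l, x < n) : fstL l < n := by
  cases l with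
  | nil => simpa [fstL] using hn
  | cons x l => simpa [fstL] using h x (by simp)

theorem fstL_mem {l : List ℕ} {x : ℕ} (h : x ∈ l) : fstL l ∈ l := by
  cases l with
  | nil => exact absurd h (by simp)
  | cons y l => simp [fstL]

end Pool.Agent.Spanner3
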