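import Pool.Agent.Lib_MP_b5064f_t3.Peo

set_option autoImplicit false

/-!
# Piece MEET: the covering edge of a maximal clique
-/

namespace Pool.Agent.Spanner3

variable {V : Type} {G T : SimpleGraph V} {r : V → ℕ}

/-- A covering edge has an end in the clique. PROOF: suppose `a, b ∉ K`. There are `x ∈ K` not
adjacent to `a` and `y ∈ K` not adjacent to `b` in `G` (`MaxCl`). `x ≠ a, b`, `y ≠ a, b` (they are
in `K`), so by `Cov` and `T ≤ G`, `x` is adjacent to `b` and `y` to `a`, in particular `x ≠ y`.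
Now `x b a y` is a 4-cycle of `G` (`x`, `y` are adjacent since `K` is a clique), so by `peo_c4`
`x` is adjacent to `a` or `b` to `y`, contradiction. -/
theorem cover_meets (hr : IsPEO G r) (hTG : T ≤ G) {K : Set V} (hK : MaxCl G K) {a b : V}
    (hab : T.Adj a b) (hc : Cov T a b K) : a ∈ K ∨ b ∈ K := by
  by_contra hcon
  push Not at hcon
  obtain ⟨ha, hb⟩ := hcon
  obtain ⟨x, hx, hax⟩ := hK.2 a ha
  obtain ⟨y, hy, hby⟩ := hK.2 b hb
  have hxa : x ≠ a := fun h => ha (h ▸ hx)
  have hxb : x ≠ b := fun h => hb (h ▸ hx)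
  have hya : y ≠ a := fun h => ha (h ▸ hy)
  have hyb : y ≠ b := fun h => hb (h ▸ hy)
  have h1 : T.Adj x b := by
    rcases hc x hx with h | h | h | h
    · exact absurd h hxa
    · exact absurd h hxb
    · exact absurd (hTG h).symm hax
    · exact h
  have h2 : T.Adj y a := by
    rcases hc y hy with h | h | h | h
    · exact absurd h hya
    · exact absurd h hyb
    · exact h
    · exact absurd (hTG h).symm hby
  have hxy : x ≠ y := fun h => hby (h ▸ (hTG h1).symm)
  rcases peo_c4 hr (hTG h1) (hTG hab.symm) (hTG h2.symm) (hK.1 y hy x hx hxy.symm) hxa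
    hyb.symm with h | h
  · exact hax h.symm
  · exact hby h

theorem meet_canon_aux {K : Set V} (h2 : ∃ x ∈ K, ∃ y ∈ K, x ≠ y) {a b : V} (hab : T.Adj a b)
    (hc : Cov T a b K) (ha : a ∈ K) :
    ∃ p q, T.Adj p q ∧ Cov T p q K ∧ (p ∈ K ∨ q ∈ K) ∧
      (q ∉ K → ∃ v ∈ K, v ≠ p ∧ T.Adj v q) ∧ (p ∉ K → ∃ v ∈ K, v ≠ q ∧ T.Adj v p) := by
  by_cases hb : b ∈ K
  · exact ⟨a, b, hab, hc, Or.inl ha, fun h => absurd hb h, fun h => absurd ha h⟩
  · by_cases hv : ∃ v ∈ K, v ≠ a ∧ T.Adj v b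
    · exact ⟨a, b, hab, hc, Or.inl ha, fun _ => hv, fun h => absurd ha h⟩
    · push Not at hv
      have hall : ∀ x ∈ K, x ≠ a → T.Adj x a := by
        intro x hx hxa
        rcases hc x hx with h | h | h | h
        · exact absurd h hxa
        · exact absurd (h ▸ hx) hb
        · exact h
        · exact absurd h (hv x hx hxa)
      obtain ⟨v, hvK, hva⟩ : ∃ v ∈ K, v ≠ a := by
        obtain ⟨x, hx, y, hy, hxy⟩ := h2
        by_cases hxa : x = a
        · exact ⟨y, hy, fun h => hxy (hxa.trans h.symm)⟩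
        · exact ⟨x, hx, hxa⟩
      refine ⟨a, v, (hall v hvK hva).symm, fun x hx => ?_, Or.inl ha, fun h => absurd hvK h,
        fun h => absurd ha h⟩
      by_cases hxa : x = a
      · exact Or.inl hxa
      · exact Or.inr (Or.inr (Or.inl (hall x hx hxa)))

/-- Canonical covering edge. PROOF: by `cover_meets` and symmetry `a ∈ K`. If `b ∈ K` take
`(a, b)`. If `b ∉ K` and some `v ∈ K`, `v ≠ a` is adjacent to `b` in `T`, take `(a, b)`. Otherwise
every element of `K` other than `a` is adjacent to `a` in `T` (`Cov`; it is not `b ∉ K`); choose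
`v ∈ K`, `v ≠ a` (`h2`): the edge `(a, v)` covers `K` and both ends are in `K`. -/
theorem canon (hr : IsPEO G r) (hTG : T ≤ G) {K : Set V} (hK : MaxCl G K)
    (h2 : ∃ x ∈ K, ∃ y ∈ K, x ≠ y) {a b : V} (hab : T.Adj a b) (hc : Cov T a b K) :
    ∃ p q, T.Adj p q ∧ Cov T p q K ∧ (p ∈ K ∨ q ∈ K) ∧
      (q ∉ K → ∃ v ∈ K, v ≠ p ∧ T.Adj v q) ∧ (p ∉ K → ∃ v ∈ K, v ≠ q ∧ T.Adj v p) := by
  rcases cover_meets hr hTG hK hab hc with ha | hb
  · exact meet_canon_aux h2 hab hc ha
  · refine meet_canon_aux h2 hab.symm (fun x hx => ?_) hb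
    rcases hc x hx with h | h | h | h
    · exact Or.inr (Or.inl h)
    · exact Or.inl h
    · exact Or.inr (Or.inr (Or.inr h))
    · exact Or.inr (Or.inr (Or.inl h))

/-- PROOF: `K` is not empty: otherwise every `z` gives a contradiction in `MaxCl`. Let `x ∈ K`.
`x` has a neighbour `y` (`G` is connected with at least two vertices, take the first step of a
walk to another vertex). If `K = {x}` then `y ∉ K` is adjacent to all elements of `K`,
contradicting the maximality. -/
theorem maxCl_two (hG : G.Connected) (h2 : ∃ x y : V, x ≠ y) {K : Set V} (hK : MaxCl G K) :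
    ∃ x ∈ K, ∃ y ∈ K, x ≠ y := by
  obtain ⟨x, hx⟩ : ∃ x, x ∈ K := by
    obtain ⟨z, _, _⟩ := h2
    by_cases hz : z ∈ K
    · exact ⟨z, hz⟩
    · obtain ⟨x, hx, _⟩ := hK.2 z hz
      exact ⟨x, hx⟩
  obtain ⟨z, hz⟩ : ∃ z, z ≠ x := by
    obtain ⟨a, b, hab⟩ := h2
    by_cases hax : a = x
    · exact ⟨b, fun h => hab (hax.trans h.symm)⟩
    · exact ⟨a, hax⟩
  obtain ⟨y, hxy⟩ : ∃ y, G.Adj x y := by
    obtain ⟨w⟩ := hG.preconnected x z
    cases w with
    | nil => exact absurd rfl hz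
    | cons h _ => exact ⟨_, h⟩
  by_contra hcon
  push Not at hcon
  have hy : y ∉ K := fun hy => hxy.ne (hcon x hx y hy)
  obtain ⟨x', hx', hn⟩ := hK.2 y hy
  rw [← hcon x hx x' hx'] at hn
  exact hn hxy.symm

end Pool.Agent.Spanner3
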