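import Pool.Agent.Lib_MP_b5064f_t3.Defs

set_option autoImplicit false

/-!
# Piece TREEFACTS: short cycles and covering edges in acyclic graphs
-/

namespace Pool.Agent.Spanner3

variable {V : Type} {T : SimpleGraph V}

/-- No triangle: otherwise `cons h1 (cons h2 (cons h3.symm nil))` is a cycle
(`Walk.IsCycle`, all distinct since adjacent). -/
theorem no_tri (hT : T.IsAcyclic) {a b c : V} (h1 : T.Adj a b) (h2 : T.Adj b c)
    (h3 : T.Adj a c) : False := by
  refine hT (.cons h1 (.cons h2 (.cons h3.symm .nil))) ?_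
  rw [SimpleGraph.Walk.cons_isCycle_iff]
  have e1 := h1.ne
  have e2 := h2.ne
  have e3 := h3.ne
  constructor
  · simp [SimpleGraph.Walk.cons_isPath_iff, e2, e3.symm, e1.symm]
  · simp [e1, e3, e2, e1.symm, e2.symm, e3.symm]

/-- Uniqueness of paths of length 3. PROOF: both `v a b w` and `v p q w` are paths of `T` (walks
`cons _ (cons _ (cons _ nil))`, `v ≠ w` follows from `no_tri`, or first show `v ≠ w`: otherwise
`v, a, b` is a triangle) from `v` to `w`; use `SimpleGraph.IsAcyclic.path_unique` (or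
`IsAcyclic` and an explicit cycle) and compare. -/
theorem path3_unique (hT : T.IsAcyclic) {v a b w p q : V} (h1 : T.Adj v a) (h2 : T.Adj a b)
    (h3 : T.Adj b w) (hvb : v ≠ b) (haw : a ≠ w) (k1 : T.Adj v p) (k2 : T.Adj p q)
    (k3 : T.Adj q w) (hvq : v ≠ q) (hpw : p ≠ w) : a = p ∧ b = q := by
  have hvw : v ≠ w := by
    rintro rfl
    exact no_tri hT h1 h2 h3.symm
  have P1 : (SimpleGraph.Walk.cons h1 (.cons h2 (.cons h3 .nil))).IsPath := by
    simp [SimpleGraph.Walk.cons_isPath_iff, h1.ne, h2.ne, h3.ne, hvb, haw, hvw]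
  have P2 : (SimpleGraph.Walk.cons k1 (.cons k2 (.cons k3 .nil))).IsPath := by
    simp [SimpleGraph.Walk.cons_isPath_iff, k1.ne, k2.ne, k3.ne, hvq, hpw, hvw]
  have := hT.path_unique ⟨_, P1⟩ ⟨_, P2⟩
  have h := congrArg (fun x : T.Path v w => (x : T.Walk v w).support) this
  simpa using h

/-- No 4-cycle. PROOF: explicit cycle `a b c d a`, or: the paths `a b c` and `a d c` from `a` to
`c` are both paths (`a ≠ c`), so equal by `path_unique`, so `b = d`. -/
theorem no_c4 (hT : T.IsAcyclic) {a b c d : V} (h1 : T.Adj a b) (h2 : T.Adj b c)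
    (h3 : T.Adj c d) (h4 : T.Adj d a) (hac : a ≠ c) (hbd : b ≠ d) : False := by
  have P1 : (SimpleGraph.Walk.cons h1 (.cons h2 .nil)).IsPath := by
    simp [SimpleGraph.Walk.cons_isPath_iff, h1.ne, h2.ne, hac]
  have P2 : (SimpleGraph.Walk.cons h4.symm (.cons h3.symm .nil)).IsPath := by
    simp [SimpleGraph.Walk.cons_isPath_iff, h4.ne.symm, h3.ne.symm, hac]
  have := hT.path_unique ⟨_, P1⟩ ⟨_, P2⟩
  have h := congrArg (fun x : T.Path a c => (x : T.Walk a c).support) this
  exact hbd (by simpa using h)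

/-- No closed walk of length 5. PROOF: if two of the five vertices coincide (`a = c`, `a = d`,
`b = d`, `b = e`, `c = e` are the only possibilities) there is a triangle (for instance `a = c`:
`a, d, e`); otherwise it is a cycle. Alternatively: the paths `a b c` and `a e d c`
(of lengths 2 and 3) from `a` to `c` contradict `path_unique`. -/
theorem no_c5 (hT : T.IsAcyclic) {a b c d e : V} (h1 : T.Adj a b) (h2 : T.Adj b c)
    (h3 : T.Adj c d) (h4 : T.Adj d e) (h5 : T.Adj e a) : False := by
  have hac : a ≠ c := by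
    rintro rfl
    exact no_tri hT h3 h4 h5.symm
  have had : a ≠ d := by
    rintro rfl
    exact no_tri hT h1 h2 h3.symm
  have hce : c ≠ e := by
    rintro rfl
    exact no_tri hT h1 h2 h5.symm
  have P1 : (SimpleGraph.Walk.cons h1 (.cons h2 .nil)).IsPath := by
    simp [SimpleGraph.Walk.cons_isPath_iff, h1.ne, h2.ne, hac]
  have P2 : (SimpleGraph.Walk.cons h5.symm (.cons h4.symm (.cons h3.symm .nil))).IsPath := by
    simp [SimpleGraph.Walk.cons_isPath_iff, h5.ne.symm, h4.ne.symm, h3.ne.symm, hac, had,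
      hce.symm]
  have := hT.path_unique ⟨_, P1⟩ ⟨_, P2⟩
  have h := congrArg (fun x : T.Path a c => (x : T.Walk a c).length) this
  simp at h

/-- One half of `cov_two`. -/
theorem treefacts_cov_two_aux (hT : T.IsAcyclic) {s s' c a b : V} (hne : s ≠ s')
    (h1 : T.Adj s c) (h2 : T.Adj s' c) (hab : T.Adj a b) (hs : s = a ∨ T.Adj s a)
    (hs' : s' = a ∨ s' = b ∨ T.Adj s' a ∨ T.Adj s' b) : c = a ∨ c = b := by
  by_contra hc
  push Not at hc
  obtain ⟨hca, hcb⟩ := hc
  rcases hs with rfl | hs
  · rcases hs' with rfl | rfl | hs' | hs'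
    · exact hne rfl
    · exact no_tri hT hab h2 h1
    · exact no_tri hT hs'.symm h2 h1
    · exact no_c4 hT hab hs'.symm h2 h1.symm (fun h => hne h) (fun h => hcb h.symm) |>.elim
  · rcases hs' with rfl | rfl | hs' | hs'
    · exact no_tri hT hs h2 h1
    · exact no_c4 hT hs hab h2 h1.symm hne (fun h => hca h.symm)
    · exact no_c4 hT hs hs'.symm h2 h1.symm hne (fun h => hca h.symm)
    · exact no_c5 hT hs hab hs'.symm h2 h1.symm

/-- If `s ≠ s'` are both adjacent to `c` and both are covered by the edge `ab` then `c` is an end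
of `ab`. PROOF: suppose `c ≠ a` and `c ≠ b` and go through the 16 cases. `s = a`: `s' = a` is
impossible; `s' = b`: triangle `a b c`; `s'` adjacent to `a = s`: triangle `s s' c`; `s'`
adjacent to `b`: 4-cycle `a b s' c` (`a = s ≠ s'`, `b ≠ c`). `s = b`: symmetric. `s` adjacent to
`a`: `s' = a`: triangle `s s' c`; `s' = b`: 4-cycle `s a s' c`; `s'` adjacent to `a`: 4-cycle
`s a s' c`; `s'` adjacent to `b`: closed walk `s a b s' c` of length 5. `s` adjacent to `b`:
symmetric (it is convenient to prove a lemma under the assumption `s = a` or `s` adjacent to `a`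
and to apply it twice). -/
theorem cov_two (hT : T.IsAcyclic) {s s' c a b : V} (hne : s ≠ s') (h1 : T.Adj s c)
    (h2 : T.Adj s' c) (hab : T.Adj a b) (hs : s = a ∨ s = b ∨ T.Adj s a ∨ T.Adj s b)
    (hs' : s' = a ∨ s' = b ∨ T.Adj s' a ∨ T.Adj s' b) : c = a ∨ c = b := by
  rcases hs with hs | hs | hs | hs
  · exact treefacts_cov_two_aux hT hne h1 h2 hab (Or.inl hs) hs'
  · exact (treefacts_cov_two_aux hT hne h1 h2 hab.symm (Or.inl hs) (by tauto)).symm
  · exact treefacts_cov_two_aux hT hne h1 h2 hab (Or.inr hs) hs'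
  · exact (treefacts_cov_two_aux hT hne h1 h2 hab.symm (Or.inr hs) (by tauto)).symm

/-- One half of `cov_far`. -/
theorem treefacts_cov_far_aux (hT : T.IsAcyclic) {p q v v' a b : V} (hpq : T.Adj p q)
    (h1 : T.Adj v p) (h2 : T.Adj v' q) (hvq : v ≠ q) (hvp : v' ≠ p) (hab : T.Adj a b)
    (hv : v = a ∨ T.Adj v a)
    (hv' : v' = a ∨ v' = b ∨ T.Adj v' a ∨ T.Adj v' b) :
    a = p ∧ b = q := by
  have hne : v ≠ v' := by
    rintro rfl
    exact no_tri hT h1 hpq h2
  have hnadj : ¬ T.Adj v v' := fun h => no_c4 hT h1 hpq h2.symm h.symm hvq hvp.symm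
  have hnc : ∀ z, T.Adj v z → ¬ T.Adj v' z := fun z hz hz' =>
    no_c5 hT h1 hpq h2.symm hz' hz.symm
  rcases hv with rfl | hv
  · rcases hv' with rfl | rfl | hv' | hv'
    · exact absurd rfl hne
    · exact absurd hab hnadj
    · exact absurd hv'.symm hnadj
    · exact absurd hv' (hnc _ hab)
  · rcases hv' with rfl | rfl | hv' | hv'
    · exact absurd hv hnadj
    · exact absurd hab.symm (hnc _ hv)
    · exact absurd hv' (hnc _ hv)
    · have hvb : v ≠ b := by
        rintro rfl
        exact hnadj hv'.symm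
      have hav' : a ≠ v' := by
        rintro rfl
        exact hnadj hv
      exact path3_unique hT hv hab hv'.symm hvb hav' h1 hpq h2.symm hvq hvp.symm

/-- If `v p q v'` is a path and `v`, `v'` are covered by the edge `ab` then `ab = pq`.
PROOF: `v` and `v'` are not adjacent (4-cycle `v p q v'`), have no common neighbour (`no_c5`) and
are different (triangle). Up to exchanging `a` and `b`, `v = a` or `v` adjacent to `a`.
`v = a`: `v' = a` no, `v' = b` no (adjacent), `v'` adjacent to `a = v` no, `v'` adjacent to `b`: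
`b` is a common neighbour, no. `v` adjacent to `a`: `v' = a` no (adjacent); `v' = b`: `a` is a
common neighbour, no; `v'` adjacent to `a`: no; `v'` adjacent to `b`: `v a b v'` is a path
(`v ≠ b` since `v`, `v'` are not adjacent, likewise `a ≠ v'`), so `a = p` and `b = q` by
`path3_unique`. -/
theorem cov_far (hT : T.IsAcyclic) {p q v v' a b : V} (hpq : T.Adj p q) (h1 : T.Adj v p)
    (h2 : T.Adj v' q) (hvq : v ≠ q) (hvp : v' ≠ p) (hab : T.Adj a b)
    (hv : v = a ∨ v = b ∨ T.Adj v a ∨ T.Adj v b)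
    (hv' : v' = a ∨ v' = b ∨ T.Adj v' a ∨ T.Adj v' b) :
    (a = p ∧ b = q) ∨ (a = q ∧ b = p) := by
  rcases hv with hv | hv | hv | hv
  · exact Or.inl (treefacts_cov_far_aux hT hpq h1 h2 hvq hvp hab (Or.inl hv) hv')
  · exact Or.inr (treefacts_cov_far_aux hT hpq h1 h2 hvq hvp hab.symm (Or.inl hv)
      (by tauto)).symm
  · exact Or.inl (treefacts_cov_far_aux hT hpq h1 h2 hvq hvp hab (Or.inr hv) hv')
  · exact Or.inr (treefacts_cov_far_aux hT hpq h1 h2 hvq hvp hab.symm (Or.inr hv)
      (by tauto)).symm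

end Pool.Agent.Spanner3
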