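import Pool.Agent.Lib_MP_b5064f_t3.Child
import Pool.Agent.Lib_MP_b5064f_t3.TreeFacts

set_option autoImplicit false

/-!
# Piece NODECOMP: the labelling of a good tree is closed under `Dr`
-/

namespace Pool.Agent.Spanner3

open Relation

variable {V : Type} {G T : SimpleGraph V}

/-- PROOF. Let `Dr x y` and `BT x`.
First clause: `x = q`, `y ∈ K`, `y ≠ p, q`, `y` not adjacent to `p` in `G`: by `Cov`, `y` is
adjacent in `T` to `p` (impossible, `T ≤ G`) or to `q`: `BT y`.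
Second clause: `x ∈ K`, `x ≠ p, q`, `x` not adjacent to `q` in `G`: but `BT x` gives
`T.Adj x q`, contradiction.
Third clause: a child `v ∈ C \ K`, `o = N.o v`, `D = CC G o v = comp G K v ⊆ C \ K`
(`child_eq`, `child_sub`), `SS G o v ⊆ K` (`child_nb`), `Small G k o v` (`child_small`). Apply
`CompTab`: `Cov T p q (SS G o v)` clear; not both `p, q ∈ D` by `h1`; if `q ∈ D` then `q ∈ C \ K`,
so by `hq` there is `s ∈ K`, `s ≠ p`, `T.Adj s q`, and `s ∈ SS G o v` since `s ∉ D` (`s ∈ K`) is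
adjacent to `q ∈ D`; the same for `p` with `hp`. So the labelling `BT T p q` respects
`t o v p q x y`. -/
theorem node_comp [Finite V] {N : Node V} (hN : GoodNode G N) (hTG : T ≤ G) {k : ℕ} {t : Tab V}
    (hk : N.C.ncard ≤ k + 1) (ht : CompTab G T k t) {p q : V} (hpq : T.Adj p q)
    (hcov : Cov T p q N.K) (h1 : p ∈ N.K ∨ q ∈ N.K ∨ p ∉ N.C ∨ q ∉ N.C)
    (hq : q ∈ N.C → q ∉ N.K → ∃ s ∈ N.K, s ≠ p ∧ T.Adj s q)
    (hp : p ∈ N.C → p ∉ N.K → ∃ s ∈ N.K, s ≠ q ∧ T.Adj s p) :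
    ∀ x y, Dr G t N p q x y → BT T p q x → BT T p q y := by
  intro x y hD hB
  rcases hD with ⟨_, hyK, hyp, hyq, hadj⟩ | ⟨hxK, hxp, hxq, hadj, _⟩ | ⟨v, hv, hvK, hx, hy, hr⟩
  · rcases hcov y hyK with h | h | h | h
    · exact absurd h hyp
    · exact absurd h hyq
    · exact absurd (hTG h.symm) hadj
    · exact Or.inr ⟨hyp, h⟩
  · rcases hB with h | ⟨_, h⟩
    · exact absurd h hxq
    · exact absurd (hTG h.symm) hadj
  · have hmem : ∀ z, z ∈ CC G (N.o v) v → z ∈ N.C ∧ z ∉ N.K := by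
      intro z hz
      rw [child_eq hN hv hvK] at hz
      exact child_sub hN hv hvK hz
    have hss : ∀ s c, s ∈ N.K → c ∈ CC G (N.o v) v → T.Adj s c → s ∈ SS G (N.o v) v := by
      intro s c hs hc hsc
      exact ⟨fun h => (hmem s h).2 hs, c, hc, hTG hsc.symm⟩
    refine ht (N.o v) v (child_small hN hv hvK hk) p q hpq
      (fun s hs => hcov s (child_nb hN hv hvK hs)) ?_ ?_ ?_ x y hx hy hr hB
    · by_contra hcon
      push Not at hcon
      obtain ⟨hp1, hp2⟩ := hmem p hcon.1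
      obtain ⟨hq1, hq2⟩ := hmem q hcon.2
      rcases h1 with h | h | h | h
      · exact hp2 h
      · exact hq2 h
      · exact h hp1
      · exact h hq1
    · intro hqD
      obtain ⟨hq1, hq2⟩ := hmem q hqD
      obtain ⟨s, hs, hsp, hsq⟩ := hq hq1 hq2
      exact ⟨s, hss s q hs hqD hsq, hsp, hsq⟩
    · intro hpD
      obtain ⟨hp1, hp2⟩ := hmem p hpD
      obtain ⟨s, hs, hsq, hsp⟩ := hp hp1 hp2
      exact ⟨s, hss s p hs hpD hsp, hsq, hsp⟩

end Pool.Agent.Spanner3
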