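import Pool.Agent.Lib_MP_b5064f_t3.Child

set_option autoImplicit false

/-!
# Piece NODESOUND: gluing the children of a node
-/

namespace Pool.Agent.Spanner3

open Relation

variable {V : Type} {G : SimpleGraph V}

/-- one child -/
theorem nodeSound_one [Finite V] {N : Node V} (hN : GoodNode G N) {k : ℕ} {t : Tab V}
    (hk : N.C.ncard ≤ k + 1) (ht : SoundTab G k t) {p q : V} {B : V → Prop} (hpq : p ≠ q)
    (h1 : p ∈ N.K ∨ q ∈ N.K ∨ p ∉ N.C ∨ q ∉ N.C)
    (h2 : G.Adj p q ∨ (p ∉ N.C ∧ q ∉ N.C)) (hq : B q) (hp : ¬ B p)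
    (hB : ∀ x y, Dr G t N p q x y → B x → B y) {v : V} (hv : v ∈ N.C) (hvK : v ∉ N.K) :
    Ext G (comp G N.K v) ((comp G N.K v \ {p, q}).ncard) (fun T => Dbl T p q B N.K) p := by
  have e := child_eq hN hv hvK
  have h3 : p ∉ CC G (N.o v) v ∨ q ∉ CC G (N.o v) v := by
    rw [e]
    rcases h1 with h | h | h | h
    · exact Or.inl fun hx => (child_sub hN hv hvK hx).2 h
    · exact Or.inr fun hx => (child_sub hN hv hvK hx).2 h
    · exact Or.inl fun hx => h (child_sub hN hv hvK hx).1
    · exact Or.inr fun hx => h (child_sub hN hv hvK hx).1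
  have h4 : G.Adj p q ∨ (p ∉ CC G (N.o v) v ∧ q ∉ CC G (N.o v) v) := by
    rw [e]
    rcases h2 with h | ⟨h, h'⟩
    · exact Or.inl h
    · exact Or.inr ⟨fun hx => h (child_sub hN hv hvK hx).1,
        fun hx => h' (child_sub hN hv hvK hx).1⟩
  have h5 := ht (N.o v) v (child_small hN hv hvK hk) p q B hpq h3 h4 hq hp ?_
  · rw [e] at h5
    obtain ⟨Y, hY1, hY2, hY3⟩ := h5
    refine ⟨Y, hY1, hY2, fun T hT hTY => hY3 T ⟨hT.1, fun x hx => hT.2 x ?_⟩ hTY⟩
    exact child_nb hN hv hvK hx
  · intro x y hx hy hxy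
    exact hB x y (Or.inr (Or.inr ⟨v, hv, hvK, hx, hy, hxy⟩))

/-- a union of children, induction -/
theorem nodeSound_many [Finite V] {N : Node V} {p q : V} {B : V → Prop}
    (h : ∀ v ∈ N.C, v ∉ N.K → Ext G (comp G N.K v) ((comp G N.K v \ {p, q}).ncard)
      (fun T => Dbl T p q B N.K) p) (n : ℕ) :
    ∀ A : Set V, A.ncard ≤ n → (∀ x ∈ A, x ∈ N.C ∧ x ∉ N.K ∧ ∀ y ∈ comp G N.K x, y ∈ A) →
      Ext G A ((A \ {p, q}).ncard) (fun T => Dbl T p q B N.K) p := by
  classical
  induction n with
  | zero =>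
    intro A hA _
    have h0 : A = ∅ := (Set.ncard_eq_zero (Set.toFinite A)).mp (Nat.le_zero.mp hA)
    refine ⟨∅, by simp, by simp, ?_⟩
    intro T _ _
    rw [h0]
    refine ⟨fun x hx => absurd hx (Set.notMem_empty x), ?_⟩
    rintro K' _ ⟨x, _, hx⟩
    exact absurd hx (Set.notMem_empty x)
  | succ n ih =>
    intro A hA hcl
    rcases A.eq_empty_or_nonempty with h0 | ⟨v, hv⟩
    · refine ⟨∅, by simp, by simp, ?_⟩
      intro T _ _
      rw [h0]
      refine ⟨fun x hx => absurd hx (Set.notMem_empty x), ?_⟩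
      rintro K' _ ⟨x, _, hx⟩
      exact absurd hx (Set.notMem_empty x)
    · obtain ⟨hvC, hvK, hvD⟩ := hcl v hv
      set D := comp G N.K v with hD
      have hvv : v ∈ D := self_mem_comp _ _
      have hDA : D ⊆ A := hvD
      have hlt : (A \ D).ncard < A.ncard :=
        Set.ncard_lt_ncard ⟨Set.sdiff_subset, fun hsub => (hsub hv).2 hvv⟩ (Set.toFinite A)
      obtain ⟨Y1, hY11, hY12, hY13⟩ := h v hvC hvK
      have hcl2 : ∀ x ∈ A \ D, x ∈ N.C ∧ x ∉ N.K ∧ ∀ y ∈ comp G N.K x, y ∈ A \ D := by
        rintro x ⟨hx, hxD⟩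
        obtain ⟨hxC, hxK, hxc⟩ := hcl x hx
        refine ⟨hxC, hxK, fun y hy => ⟨hxc y hy, fun hyD => hxD ?_⟩⟩
        have e1 := comp_eq hvK hyD
        have e2 := comp_eq hxK hy
        rw [hD, ← e1, e2]
        exact self_mem_comp _ _
      obtain ⟨Y2, hY21, hY22, hY23⟩ := ih (A \ D) (by omega) hcl2
      · refine ⟨Y1 ∪ Y2, ?_, ?_, ?_⟩
        · intro e he
          rcases Finset.mem_union.mp he with he | he
          · exact hY11 e he
          · exact hY21 e he
        · have h3 : (A \ {p, q}) = (D \ {p, q}) ∪ ((A \ D) \ {p, q}) := by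
            ext x
            constructor
            · rintro ⟨hx1, hx2⟩
              by_cases hxD : x ∈ D
              · exact Or.inl ⟨hxD, hx2⟩
              · exact Or.inr ⟨⟨hx1, hxD⟩, hx2⟩
            · rintro (⟨hx1, hx2⟩ | ⟨⟨hx1, _⟩, hx2⟩)
              · exact ⟨hDA hx1, hx2⟩
              · exact ⟨hx1, hx2⟩
          have h4 : (A \ {p, q}).ncard = (D \ {p, q}).ncard + ((A \ D) \ {p, q}).ncard := by
            rw [h3]
            apply Set.ncard_union_eq _ (Set.toFinite _) (Set.toFinite _)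
            rw [Set.disjoint_left]
            rintro x ⟨hx1, _⟩ ⟨⟨_, hx2⟩, _⟩
            exact hx2 hx1
          rw [h4]
          exact (Finset.card_union_le _ _).trans (Nat.add_le_add hY12 hY22)
        · intro T hT hTY
          obtain ⟨a1, a2⟩ := hY13 T hT fun e he => hTY e (Finset.mem_union_left _ he)
          obtain ⟨b1, b2⟩ := hY23 T hT fun e he => hTY e (Finset.mem_union_right _ he)
          refine ⟨?_, ?_⟩
          · intro x hx
            by_cases hxD : x ∈ D
            · exact a1 x hxD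
            · exact b1 x ⟨hx, hxD⟩
          · rintro K' hK' ⟨x, hxK, hx⟩
            by_cases hxD : x ∈ D
            · exact a2 K' hK' ⟨x, hxK, hxD⟩
            · exact b2 K' hK' ⟨x, hxK, hx, hxD⟩

/-- PROOF. For every `v ∈ C \ K` let `D v = comp G K v`, `o = N.o v`; `CC G o v = D v`
(`child_eq`), `SS G o v ⊆ K` (`child_nb`), `D v ⊆ C \ K` (`child_sub`), `Small G k o v`
(`child_small`). `SoundTab` at `(o, v)` with `p, q, B` applies: `p ∉ D v` or `q ∉ D v` by `h1`
(`D v` is disjoint from `K` and contained in `C`); `G.Adj p q` or both outside `D v` by `h2`; `Lab`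
by `hB` (third clause of `Dr`). So there is `Yv ⊆ E(G)` with at most `(D v \ {p, q}).ncard`
elements such that every `T` with `Dbl T p q B K` (so `Dbl T p q B (SS G o v)`) containing `Yv`
connects `p` to all of `D v` and covers all maximal cliques which meet `D v`.
Choose one representative per component: for instance let `rep v` be a chosen element of `D v`
depending only on the set `D v` (`Classical.choose` of the nonemptiness of `D v`, using that
`D (rep v) = D v` by `comp_eq`), and let `Y` be the union of `Y (rep v)` over the finite set `R` of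
representatives (`Finset.biUnion`). Its cardinality is at most the sum over `R` of
`(D v \ {p, q}).ncard`, and the sets `D v \ {p, q}`, `v ∈ R`, are pairwise disjoint subsets of
`(C \ K) \ {p, q}` (two components which meet are equal by `comp_eq`, and then the
representatives are equal). (Alternative: strong induction over the finite set of components still
to be treated: for a set `A ⊆ C \ K` which is a union of components find `Y` with
`Y.card ≤ (A \ {p, q}).ncard` good for all of `A`; take `v ∈ A`, remove `D v`, and use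
`Set.ncard` of a disjoint union.)
Let `T` satisfy `Dbl T p q B K` and contain `Y`. Every `x ∈ C \ K` is in `D x`, so reachable
from `p`. Every `x ∈ C ∩ K` is `p`, or `q` (adjacent to `p`), or adjacent to `p` or to `q` by
`Dbl`. Let `K'` be a maximal clique with an element in `C`. If `K'` meets `C \ K` in `x`, it meets
`D x`, so it is covered. Otherwise `K' ⊆ K`: an element `y` of `K'` is in `C`, hence in `K`, or
it is adjacent to the element `c ∈ K' ∩ C` (or equal), so it is in `C ∪ S` by `clos`, in `S ⊆ K`.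
Then `K' = K` (if `z ∈ K \ K'`, maximality of `K'` gives `x ∈ K'` not adjacent to `z`, but
`x, z ∈ K`, `x ≠ z`). `K` is covered by `pq`: `Dbl T p q B K`. -/
theorem node_sound [Finite V] {N : Node V} (hN : GoodNode G N) {k : ℕ} {t : Tab V}
    (hk : N.C.ncard ≤ k + 1) (ht : SoundTab G k t) {p q : V} {B : V → Prop} (hpq : p ≠ q)
    (h1 : p ∈ N.K ∨ q ∈ N.K ∨ p ∉ N.C ∨ q ∉ N.C)
    (h2 : G.Adj p q ∨ (p ∉ N.C ∧ q ∉ N.C)) (hq : B q) (hp : ¬ B p)
    (hB : ∀ x y, Dr G t N p q x y → B x → B y) :
    Ext G N.C (((N.C \ N.K) \ {p, q}).ncard) (fun T => Dbl T p q B N.K) p := by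
  obtain ⟨Y, hY1, hY2, hY3⟩ := nodeSound_many
    (fun v hv hvK => nodeSound_one hN hk ht hpq h1 h2 hq hp hB hv hvK)
    (N.C \ N.K).ncard (N.C \ N.K) le_rfl
    (fun x hx => ⟨hx.1, hx.2, fun y hy => child_sub hN hx.1 hx.2 hy⟩)
  refine ⟨Y, hY1, hY2, fun T hT hTY => ?_⟩
  obtain ⟨a1, a2⟩ := hY3 T hT hTY
  have hcov : ∀ x ∈ N.K, x = p ∨ x = q ∨ T.Adj x p ∨ T.Adj x q := by
    intro x hx
    by_cases hxp : x = p
    · exact Or.inl hxp
    by_cases hxq : x = q
    · exact Or.inr (Or.inl hxq)
    by_cases hBx : B x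
    · exact Or.inr (Or.inr (Or.inr ((hT.2 x hx hxp hxq).1 hBx)))
    · exact Or.inr (Or.inr (Or.inl ((hT.2 x hx hxp hxq).2 hBx)))
  refine ⟨?_, ?_⟩
  · intro x hx
    by_cases hxK : x ∈ N.K
    · rcases hcov x hxK with h | h | h | h
      · subst h
        exact SimpleGraph.Reachable.refl _
      · subst h
        exact hT.1.reachable
      · exact h.symm.reachable
      · exact hT.1.reachable.trans h.symm.reachable
    · exact a1 x ⟨hx, hxK⟩
  · rintro K' hK' ⟨c, hcK, hc⟩
    by_cases hm : ∃ x ∈ K', x ∈ N.C \ N.K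
    · exact a2 K' hK' hm
    · have hsub : ∀ y ∈ K', y ∈ N.K := by
        intro y hy
        have h3 : y ∈ N.C ∨ y ∈ N.S := by
          by_cases hyc : y = c
          · subst hyc
            exact Or.inl hc
          · exact hN.clos c hc y (hK'.1 c hcK y hy (Ne.symm hyc))
        rcases h3 with h3 | h3
        · by_contra hyK
          exact hm ⟨y, hy, h3, hyK⟩
        · exact hN.SK y h3
      have hsub2 : ∀ z ∈ N.K, z ∈ K' := by
        intro z hz
        by_contra hzK
        obtain ⟨x, hx, hzx⟩ := hK'.2 z hzK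
        apply hzx
        apply hN.maxcl.1 z hz x (hsub x hx)
        rintro rfl
        exact hzK hx
      exact ⟨p, q, hT.1, fun x hx => hcov x (hsub x hx)⟩

end Pool.Agent.Spanner3
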