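import Pool.Agent.Lib_MP_b5064f_t3.Defs

set_option autoImplicit false

/-!
# Piece PEO: consequences of a perfect elimination ordering
-/

namespace Pool.Agent.Spanner3

open Relation

variable {V : Type} {G : SimpleGraph V} {r : V → ℕ}

/-- `C` is connected in itself. -/
def ConnIn (G : SimpleGraph V) (C : Set V) : Prop :=
  ∀ x ∈ C, ∀ y ∈ C, ReflTransGen (fun a b => G.Adj a b ∧ b ∈ C) x y

/-- No induced 4-cycle. PROOF: the vertex of smallest rank among `a, b, c, d` (four cases; `r` is
injective, so its two neighbours in the cycle have larger rank) has two adjacent neighbours. -/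
theorem peo_c4 (hr : IsPEO G r) {a b c d : V} (h1 : G.Adj a b) (h2 : G.Adj b c) (h3 : G.Adj c d)
    (h4 : G.Adj d a) (hac : a ≠ c) (hbd : b ≠ d) : G.Adj a c ∨ G.Adj b d := by
  have hinj := hr.1
  have e1 : r a ≠ r b := fun h => h1.ne (hinj h)
  have e2 : r b ≠ r c := fun h => h2.ne (hinj h)
  have e3 : r c ≠ r d := fun h => h3.ne (hinj h)
  have e4 : r d ≠ r a := fun h => h4.ne (hinj h)
  by_cases c1 : r a < r b ∧ r a < r d
  · exact Or.inr (hr.2 a b d h1 h4.symm c1.1 c1.2 hbd)
  by_cases c2 : r b < r a ∧ r b < r c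
  · exact Or.inl (hr.2 b a c h1.symm h2 c2.1 c2.2 hac)
  by_cases c3 : r c < r b ∧ r c < r d
  · exact Or.inr (hr.2 c b d h2.symm h3 c3.1 c3.2 hbd)
  by_cases c4 : r d < r c ∧ r d < r a
  · exact Or.inl (hr.2 d a c h4 h3.symm c4.2 c4.1 hac)
  omega

/-- Removing the vertex of smallest rank from a connected set leaves a connected set. PROOF: fix
`x, y ∈ C \ {m}`. Claim, by induction on the chain from `x` to `z` in `C` (appending at the end):
if `z ≠ m` then there is a chain from `x` to `z` in `C \ {m}`, and if `z = m` then there is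
`z' ∈ C \ {m}` adjacent to `m` with a chain from `x` to `z'` in `C \ {m}`. Step `z → z''`: if both
are different from `m` append; if `z'' = m` take `z' = z`; if `z = m` then `z'` and `z''` are
neighbours of `m` of larger rank, so equal or adjacent; append. -/
theorem conn_remove (hr : IsPEO G r) {C : Set V} (hC : ConnIn G C) {m : V} (hm : m ∈ C)
    (hmin : ∀ c ∈ C, r m ≤ r c) : ConnIn G (C \ {m}) := by
  have hlt : ∀ c ∈ C, c ≠ m → r m < r c := by
    intro c hc hcm
    rcases lt_or_eq_of_le (hmin c hc) with h | h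
    · exact h
    · exact absurd (hr.1 h).symm hcm
  intro x hx y hy
  have claim : ∀ z, ReflTransGen (fun a b => G.Adj a b ∧ b ∈ C) x z →
      (z ≠ m → ReflTransGen (fun a b => G.Adj a b ∧ b ∈ C \ {m}) x z) ∧
      (z = m → ∃ z', z' ∈ C \ {m} ∧ G.Adj z' m ∧
        ReflTransGen (fun a b => G.Adj a b ∧ b ∈ C \ {m}) x z') := by
    intro z hz
    induction hz with
    | refl =>
      refine ⟨fun _ => ReflTransGen.refl, fun h => ?_⟩
      exact absurd h hx.2
    | @tail b c hxb hbc ih =>
      by_cases hb : b = m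
      · obtain ⟨z', hz', hadj, hch⟩ := ih.2 hb
        refine ⟨fun hc => ?_, fun hc => ?_⟩
        · by_cases hzc : z' = c
          · rw [← hzc]; exact hch
          · have hcC : c ∈ C \ {m} := ⟨hbc.2, hc⟩
            have h1 : G.Adj m c := hb ▸ hbc.1
            have h2 : G.Adj z' c := hr.2 m z' c hadj.symm h1 (hlt z' hz'.1 hz'.2)
              (hlt c hcC.1 hc) hzc
            exact hch.tail ⟨h2, hcC⟩
        · exfalso
          have := hbc.1
          rw [hb, hc] at this
          exact G.loopless.irrefl _ this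
      · refine ⟨fun hc => (ih.1 hb).tail ⟨hbc.1, hbc.2, hc⟩, fun hc => ?_⟩
        have hch := ih.1 hb
        refine ⟨b, ⟨?_, hb⟩, hc ▸ hbc.1, hch⟩
        rcases ReflTransGen.cases_tail hch with h | ⟨c', _, h'⟩
        · rw [h]; exact hx.1
        · exact h'.2.1
  exact (claim y (hC x hx.1 y hy.1)).1 hy.2

/-- In a connected set with a second element every element has a neighbour. PROOF: take the first
step of the chain from `m` to `c` (`ReflTransGen.cases_head`). -/
theorem conn_nbr {C : Set V} (hC : ConnIn G C) {m c : V} (hm : m ∈ C) (hc : c ∈ C)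
    (hne : m ≠ c) : ∃ m' ∈ C, G.Adj m m' := by
  rcases ReflTransGen.cases_head (hC m hm c hc) with h | ⟨c', h, _⟩
  · exact absurd h hne
  · exact ⟨c', h.2, h.1⟩

end Pool.Agent.Spanner3
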