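import Pool.Agent.Lib_MP_b5064f_t3.Peo

set_option autoImplicit false

/-!
# Piece PEOSEP: separators are cliques and have full vertices
-/

namespace Pool.Agent.Spanner3

open Relation

variable {V : Type} {G : SimpleGraph V} {r : V → ℕ}

private theorem peosep_lt (hr : IsPEO G r) {A : Set V} {m b : V} (hmin : ∀ b ∈ A, r m ≤ r b)
    (hb : b ∈ A) (hne : m ≠ b) : r m < r b :=
  lt_of_le_of_ne (hmin b hb) fun h => hne (hr.1 h)

/-- moving a neighbour in `C` to a neighbour in `C \ {m}` -/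
private theorem peosep_move (hr : IsPEO G r) {C : Set V} {m m' x : V} (hm' : m' ∈ C)
    (hmm : G.Adj m m') (hx : x ∉ C) (h1 : r m < r x) (h2 : r m < r m')
    (hxC : ∃ c ∈ C, G.Adj x c) : ∃ c ∈ C \ {m}, G.Adj x c := by
  obtain ⟨c, hc, hxc⟩ := hxC
  by_cases hcm : c = m
  · subst hcm
    refine ⟨m', ⟨hm', hmm.ne'⟩, ?_⟩
    exact hr.2 c x m' hxc.symm hmm h1 h2 fun h => hx (h ▸ hm')
  · exact ⟨c, ⟨hc, hcm⟩, hxc⟩

private theorem peosep_card [Finite V] {C : Set V} {m : V} (hm : m ∈ C) :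
    (C \ {m}).ncard < C.ncard :=
  Set.ncard_lt_ncard (Set.sdiff_singleton_ssubset.2 hm) (Set.toFinite C)

/-- Separators are cliques. PROOF: induction on `C.ncard`. Let `m` be the vertex of smallest rank
in `C ∪ {u, x, y}`. If `m = u`: `x` and `y` are later neighbours of `u`, so adjacent. If `m = x`:
`u` and a neighbour `c ∈ C` of `x` are later neighbours of `x`, so adjacent, contradiction.
`m = y`: the same. If `m ∈ C` and `C = {m}`: `x`, `y` are later neighbours of `m`, so adjacent.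
Otherwise `m` has a neighbour `m' ∈ C` (`conn_nbr`); `C \ {m}` is connected (`conn_remove`) and
`x` has a neighbour in it: its neighbour `c ∈ C` if `c ≠ m`, and `m'` if `c = m` (`x`, `m'` are
later neighbours of `m`, and `x ≠ m'`); the same for `y`. Use the induction hypothesis. -/
theorem peo_sep [Finite V] (hr : IsPEO G r) (C : Set V) (hC : ConnIn G C) {u x y : V}
    (hu : u ∉ C) (hx : x ∉ C) (hy : y ∉ C) (hxy : x ≠ y) (hux : G.Adj u x) (huy : G.Adj u y)
    (huC : ∀ c ∈ C, ¬ G.Adj u c) (hxC : ∃ c ∈ C, G.Adj x c) (hyC : ∃ c ∈ C, G.Adj y c) :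
    G.Adj x y := by
  induction h : C.ncard using Nat.strong_induction_on generalizing C with
  | _ n ih =>
  obtain ⟨m, hm, hmin⟩ := Set.exists_min_image (C ∪ {u, x, y}) r (Set.toFinite _)
    ⟨u, Or.inr (Or.inl rfl)⟩
  have hu' : u ∈ C ∪ {u, x, y} := Or.inr (Or.inl rfl)
  have hx' : x ∈ C ∪ {u, x, y} := Or.inr (Or.inr (Or.inl rfl))
  have hy' : y ∈ C ∪ {u, x, y} := Or.inr (Or.inr (Or.inr rfl))
  rcases hm with hm | hm | hm | hm
  · have hmx : r m < r x := peosep_lt hr hmin hx' fun h => hx (h ▸ hm)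
    have hmy : r m < r y := peosep_lt hr hmin hy' fun h => hy (h ▸ hm)
    by_cases hs : ∃ c ∈ C, m ≠ c
    · obtain ⟨c, hc, hne⟩ := hs
      obtain ⟨m', hm', hmm⟩ := conn_nbr hC hm hc hne
      have hlt : r m < r m' := peosep_lt hr hmin (Or.inl hm') hmm.ne
      refine ih _ (h ▸ peosep_card hm) (C \ {m})
        (conn_remove hr hC hm fun c hc => hmin c (Or.inl hc)) (fun h => hu h.1)
        (fun h => hx h.1) (fun h => hy h.1) (fun c hc => huC c hc.1) ?_ ?_ rfl
      · exact peosep_move hr hm' hmm hx hmx hlt hxC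
      · exact peosep_move hr hm' hmm hy hmy hlt hyC
    · push Not at hs
      obtain ⟨c, hc, hxc⟩ := hxC
      obtain ⟨c', hc', hyc⟩ := hyC
      rw [← hs c hc] at hxc
      rw [← hs c' hc'] at hyc
      exact hr.2 m x y hxc.symm hyc.symm hmx hmy hxy
  · subst hm
    exact hr.2 m x y hux huy (peosep_lt hr hmin hx' hux.ne) (peosep_lt hr hmin hy' huy.ne) hxy
  · subst hm
    obtain ⟨c, hc, hxc⟩ := hxC
    exact (huC c hc (hr.2 m u c hux.symm hxc (peosep_lt hr hmin hu' hux.ne')
      (peosep_lt hr hmin (Or.inl hc) hxc.ne) fun h => hu (h ▸ hc))).elim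
  · have hm : m = y := hm
    subst hm
    obtain ⟨c, hc, hyc⟩ := hyC
    exact (huC c hc (hr.2 m u c huy.symm hyc (peosep_lt hr hmin hu' huy.ne')
      (peosep_lt hr hmin (Or.inl hc) hyc.ne) fun h => hu (h ▸ hc))).elim

/-- A clique each of whose vertices has a neighbour in the connected set `C` has a common
neighbour in `C`. PROOF: induction on `C.ncard`. If `S` is empty take any element of `C`.
Otherwise let `m` be the vertex of smallest rank in `C ∪ S`. If `m ∈ S`, let `w ∈ C` be a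
neighbour of `m`; every other `s ∈ S` is also a later neighbour of `m`, so adjacent to `w`. If
`m ∈ C` and `C = {m}`: `m` is adjacent to all of `S`. Otherwise `m` has a neighbour `m' ∈ C`,
`C \ {m}` is connected, and every `s ∈ S` has a neighbour in `C \ {m}`: its neighbour `c ∈ C` if
`c ≠ m`, and `m'` otherwise. -/
theorem peo_full [Finite V] (hr : IsPEO G r) (C S : Set V) (hC : ConnIn G C) (hne : C.Nonempty)
    (hS : ∀ x ∈ S, ∀ y ∈ S, x ≠ y → G.Adj x y) (hd : ∀ x ∈ S, x ∉ C)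
    (hn : ∀ x ∈ S, ∃ c ∈ C, G.Adj x c) : ∃ w ∈ C, ∀ s ∈ S, G.Adj s w := by
  induction h : C.ncard using Nat.strong_induction_on generalizing C with
  | _ n ih =>
  obtain ⟨m, hm, hmin⟩ := Set.exists_min_image (C ∪ S) r (Set.toFinite _) (hne.mono
    Set.subset_union_left)
  rcases hm with hm | hm
  · by_cases hs : ∃ c ∈ C, m ≠ c
    · obtain ⟨c, hc, hne'⟩ := hs
      obtain ⟨m', hm', hmm⟩ := conn_nbr hC hm hc hne'
      have hlt : r m < r m' := peosep_lt hr hmin (Or.inl hm') hmm.ne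
      obtain ⟨w, hw, hw'⟩ := ih _ (h ▸ peosep_card hm) (C \ {m})
        (conn_remove hr hC hm fun c hc => hmin c (Or.inl hc)) ⟨c, hc, hne'.symm⟩
        (fun x hx h => hd x hx h.1) (fun x hx => peosep_move hr hm' hmm (hd x hx)
          (peosep_lt hr hmin (Or.inr hx) fun h => hd x hx (h ▸ hm)) hlt (hn x hx)) rfl
      exact ⟨w, hw.1, hw'⟩
    · push Not at hs
      refine ⟨m, hm, fun s hsS => ?_⟩
      obtain ⟨c, hc, hsc⟩ := hn s hsS
      rwa [← hs c hc] at hsc
  · obtain ⟨w, hw, hmw⟩ := hn m hm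
    refine ⟨w, hw, fun s hsS => ?_⟩
    by_cases hsm : m = s
    · exact hsm ▸ hmw
    · exact hr.2 m s w (hS m hm s hsS hsm) hmw (peosep_lt hr hmin (Or.inr hsS) hsm)
        (peosep_lt hr hmin (Or.inl hw) hmw.ne) fun h => hd s hsS (h ▸ hw)

end Pool.Agent.Spanner3
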