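import Pool.Agent.Lib_MP_b5064f_t3.AlgDefs

set_option autoImplicit false

/-!
# Piece REACH: the search computes reachability
-/

namespace Pool.Agent.Spanner3

open Relation

theorem mm_iff {x : ℕ} {l : List ℕ} : mm x l = true ↔ x ∈ l := by
  simp [mm]

theorem mem_stepL {n : ℕ} {D : ℕ → ℕ → Bool} {S : List ℕ} {y : ℕ} :
    y ∈ stepL n D S ↔ y < n ∧ (y ∈ S ∨ ∃ x ∈ S, D x y = true) := by
  simp [stepL, mm_iff, List.mem_filter, List.any_eq_true]

theorem reach_iter_lt {n : ℕ} {D : ℕ → ℕ → Bool} {S : List ℕ} (hS : ∀ x ∈ S, x < n) (k : ℕ) :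
    ∀ y ∈ (stepL n D)^[k] S, y < n := by
  cases k with
  | zero => exact hS
  | succ k =>
    intro y hy
    rw [Function.iterate_succ_apply', mem_stepL] at hy
    exact hy.1

theorem reach_iter_mono {n : ℕ} {D : ℕ → ℕ → Bool} {S : List ℕ} (hS : ∀ x ∈ S, x < n) (k : ℕ) :
    ∀ y ∈ (stepL n D)^[k] S, y ∈ (stepL n D)^[k + 1] S := by
  intro y hy
  rw [Function.iterate_succ_apply', mem_stepL]
  exact ⟨reach_iter_lt hS k y hy, Or.inl hy⟩

theorem reach_iter_start {n : ℕ} {D : ℕ → ℕ → Bool} {S : List ℕ} (hS : ∀ x ∈ S, x < n) (k : ℕ) :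
    ∀ y ∈ S, y ∈ (stepL n D)^[k] S := by
  induction k with
  | zero => exact fun y hy => hy
  | succ k ih => exact fun y hy => reach_iter_mono hS k y (ih y hy)

theorem reach_stable {n : ℕ} {D : ℕ → ℕ → Bool} {S : List ℕ} (hS : ∀ x ∈ S, x < n) (k : ℕ) :
    (∀ y ∈ (stepL n D)^[k + 1] S, y ∈ (stepL n D)^[k] S) ∨
      k + 1 ≤ ((Finset.range n).filter (fun y => y ∈ (stepL n D)^[k + 1] S)).card := by
  have key : ∀ j : ℕ, ¬ (∀ y ∈ (stepL n D)^[j + 1] S, y ∈ (stepL n D)^[j] S) →
      ((Finset.range n).filter (fun y => y ∈ (stepL n D)^[j] S)).card <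
        ((Finset.range n).filter (fun y => y ∈ (stepL n D)^[j + 1] S)).card := by
    intro j hj
    push Not at hj
    obtain ⟨y, hy1, hy2⟩ := hj
    apply Finset.card_lt_card
    rw [Finset.ssubset_iff_of_subset]
    · refine ⟨y, ?_, ?_⟩
      · rw [Finset.mem_filter, Finset.mem_range]
        exact ⟨reach_iter_lt hS _ y hy1, hy1⟩
      · rw [Finset.mem_filter]
        exact fun h => hy2 h.2
    · intro z hz
      rw [Finset.mem_filter] at hz ⊢
      exact ⟨hz.1, reach_iter_mono hS j z hz.2⟩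
  induction k with
  | zero =>
    by_cases h : ∀ y ∈ (stepL n D)^[0 + 1] S, y ∈ (stepL n D)^[0] S
    · exact Or.inl h
    · right
      have := key 0 h
      omega
  | succ k ih =>
    rcases ih with ih | ih
    · left
      intro y hy
      rw [Function.iterate_succ_apply', mem_stepL] at hy
      rw [Function.iterate_succ_apply', mem_stepL]
      refine ⟨hy.1, ?_⟩
      rcases hy.2 with h | ⟨x, hx, hxy⟩
      · exact Or.inl (ih y h)
      · exact Or.inr ⟨x, ih x hx, hxy⟩
    · by_cases h : ∀ y ∈ (stepL n D)^[k + 1 + 1] S, y ∈ (stepL n D)^[k + 1] S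
      · exact Or.inl h
      · right
        have := key (k + 1) h
        omega

theorem reach_closed {n : ℕ} {D : ℕ → ℕ → Bool} {S : List ℕ} (hS : ∀ x ∈ S, x < n) :
    ∀ y ∈ (stepL n D)^[n + 1] S, y ∈ (stepL n D)^[n] S := by
  rcases reach_stable (D := D) hS n with h | h
  · exact h
  · exfalso
    have h1 := Finset.card_filter_le (Finset.range n) (fun y => y ∈ (stepL n D)^[n + 1] S)
    rw [Finset.card_range] at h1
    omega

/-- PROOF: (→) induction on the number of steps. (←) Let `A k = {y < n | y ∈ (stepL n D)^[k] S}`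
(a finite set, `Finset` of `Fin n` or a `Finset ℕ` inside `Finset.range n`). `A k ⊆ A (k + 1)`.
If `A k = A (k + 1)` then `A` is constant from `k` on (the next set depends only on the elements:
`mem_stepL`). If `A n ≠ A (n + 1)` then all the inclusions up to there are strict and
`A (n + 1)` has at least `n + 1` elements, impossible. So `A n` is closed under the steps
`D a b`, `b < n`, and contains `S`. -/
theorem mem_reachL {n : ℕ} {D : ℕ → ℕ → Bool} {S : List ℕ} (hS : ∀ x ∈ S, x < n) {y : ℕ} :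
    y ∈ reachL n D S ↔ ∃ x ∈ S, ReflTransGen (fun a b => D a b = true ∧ b < n) x y := by
  unfold reachL
  constructor
  · have h : ∀ k : ℕ, ∀ y ∈ (stepL n D)^[k] S,
        ∃ x ∈ S, ReflTransGen (fun a b => D a b = true ∧ b < n) x y := by
      intro k
      induction k with
      | zero => exact fun y hy => ⟨y, hy, ReflTransGen.refl⟩
      | succ k ih =>
        intro y hy
        rw [Function.iterate_succ_apply', mem_stepL] at hy
        rcases hy.2 with h | ⟨x, hx, hxy⟩
        · exact ih y h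
        · obtain ⟨z, hz, hzx⟩ := ih x hx
          exact ⟨z, hz, hzx.tail ⟨hxy, hy.1⟩⟩
    exact h n y
  · rintro ⟨x, hx, hxy⟩
    induction hxy with
    | refl => exact reach_iter_start hS n x hx
    | tail _ hab ih =>
      apply reach_closed hS
      rw [Function.iterate_succ_apply', mem_stepL]
      exact ⟨hab.2, Or.inr ⟨_, ih, hab.1⟩⟩

theorem reachL_lt {n : ℕ} {D : ℕ → ℕ → Bool} {S : List ℕ} (hS : ∀ x ∈ S, x < n) :
    ∀ y ∈ reachL n D S, y < n := reach_iter_lt hS n

/-- The version for `Fin n`. PROOF: from `mem_reachL`; a chain in `ℕ` from `x < n` with all its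
further elements `< n` is the same as a chain in `Fin n` (induction in both directions). -/
theorem mem_reachL_fin {n : ℕ} {D : ℕ → ℕ → Bool} {R : Fin n → Fin n → Prop} {S : List ℕ}
    (hD : ∀ i j : Fin n, D i j = true ↔ R i j) (hS : ∀ x ∈ S, x < n) {j : Fin n} :
    (j : ℕ) ∈ reachL n D S ↔ ∃ i : Fin n, (i : ℕ) ∈ S ∧ ReflTransGen R i j := by
  rw [mem_reachL hS]
  constructor
  · rintro ⟨x, hx, hxy⟩
    have h : ∀ y : ℕ, ReflTransGen (fun a b => D a b = true ∧ b < n) x y →
        ∃ hy : y < n, ReflTransGen R ⟨x, hS x hx⟩ ⟨y, hy⟩ := by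
      intro y hy
      induction hy with
      | refl => exact ⟨hS x hx, ReflTransGen.refl⟩
      | tail _ hab ih =>
        obtain ⟨ha, hxa⟩ := ih
        exact ⟨hab.2, hxa.tail ((hD ⟨_, ha⟩ ⟨_, hab.2⟩).1 hab.1)⟩
    obtain ⟨_, h2⟩ := h j hxy
    exact ⟨⟨x, hS x hx⟩, hx, h2⟩
  · rintro ⟨i, hi, hij⟩
    refine ⟨i, hi, ?_⟩
    induction hij with
    | refl => exact ReflTransGen.refl
    | tail _ hab ih => exact ih.tail ⟨(hD _ _).2 hab, Fin.isLt _⟩

end Pool.Agent.Spanner3
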