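import Pool.Agent.Lib_MP_b5064f_t3.Defs

set_option autoImplicit false

/-!
# Piece TREEHULL: sets of diameter at most 3 in a tree are covered by an edge
-/

namespace Pool.Agent.Spanner3

variable {V : Type} {T : SimpleGraph V}

/-- The distances of two adjacent vertices to `z` differ by exactly one. PROOF: let `P` be the
path from `z` to `a` (unique, of length `T.dist z a`). If `b ∉ P.support` then `P` followed by the
edge `ab` is a path to `b`, so `dist z b = dist z a + 1` (in a tree every path is shortest:
`IsTree` and `existsUnique_path`, `IsAcyclic.path_unique`,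
`SimpleGraph.Connected.exists_walk_length_eq_dist`). If `b ∈ P.support` then the part of `P` up to
`b` followed by the edge `ba` is a path (a ∉ the part, because `P` is a path), so it is `P` and
`dist z a = dist z b + 1`. -/
theorem dist_adj (hT : T.IsTree) (z : V) {a b : V} (hab : T.Adj a b) :
    T.dist z b = T.dist z a + 1 ∨ T.dist z a = T.dist z b + 1 :=
  (hT.dist_eq_dist_add_one_of_adj z hab).symm

/-- A vertex has at most one neighbour which is closer to `z`. PROOF: take the paths `z → a` and
`z → b` of lengths `dist z v - 1`; `v` is not on them (all their vertices are at distance less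
than `dist z v` from `z`), so followed by the edges `av`, `bv` they are paths from `z` to `v`;
they are equal, and so are their last but one vertices (`Walk.penultimate`). -/
theorem closer_unique (hT : T.IsTree) (z : V) {v a b : V} (ha : T.Adj v a) (hb : T.Adj v b)
    (h1 : T.dist z v = T.dist z a + 1) (h2 : T.dist z v = T.dist z b + 1) : a = b := by
  classical
  obtain ⟨p, hp, hp'⟩ := hT.connected.exists_path_of_dist z a
  obtain ⟨q, hq, hq'⟩ := hT.connected.exists_path_of_dist z b
  have hp2 : (p.concat ha.symm).IsPath := by
    apply SimpleGraph.Walk.isPath_of_length_eq_dist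
    rw [SimpleGraph.Walk.length_concat, hp', h1]
  have hq2 : (q.concat hb.symm).IsPath := by
    apply SimpleGraph.Walk.isPath_of_length_eq_dist
    rw [SimpleGraph.Walk.length_concat, hq', h2]
  have h3 : p.concat ha.symm = q.concat hb.symm :=
    (hT.existsUnique_path z v).unique hp2 hq2
  have h4 := congrArg SimpleGraph.Walk.penultimate h3
  simpa using h4

theorem treeHull_le_one (hT : T.IsTree) {z a : V} (h : T.dist z a ≤ 1) : z = a ∨ T.Adj z a := by
  rcases Nat.le_one_iff_eq_zero_or_eq_one.mp h with h | h
  · exact Or.inl (hT.connected.dist_eq_zero_iff.mp h)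
  · exact Or.inr (SimpleGraph.dist_eq_one_iff_adj.mp h)

theorem treeHull_path3 (hT : T.IsTree) {x y : V} (h : T.dist x y = 3) :
    ∃ a b, T.Adj x a ∧ T.Adj a b ∧ T.Adj b y := by
  obtain ⟨p, hp⟩ := hT.connected.exists_walk_length_eq_dist x y
  rw [h] at hp
  match p, hp with
  | .cons h1 (.cons h2 (.cons h3 .nil)), _ => exact ⟨_, _, h1, h2, h3⟩

theorem treeHull_path2 (hT : T.IsTree) {x y : V} (h : T.dist x y = 2) :
    ∃ a, T.Adj x a ∧ T.Adj a y := by
  obtain ⟨p, hp⟩ := hT.connected.exists_walk_length_eq_dist x y
  rw [h] at hp
  match p, hp with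
  | .cons h1 (.cons h2 .nil), _ => exact ⟨_, h1, h2⟩

/-- PROOF. There is an edge since `T` is connected with at least two vertices; this settles the
case that all elements of `K` are equal (choose an edge at that element) or `K` is empty.
Case 1: there are `x, y ∈ K` at distance 3; let `x a b y` be the path. Claim: `ab` covers `K`.
Let `z ∈ K` and let `f = T.dist z`. By `dist_adj` the values of `f` along `x a b y` change by one
in each step, and by `closer_unique` there is no interior local maximum. So: either `f` decreases
along all three edges: `f y = f x - 3 ≤ 0`, `z = y`, attached to `b`; or it increases along all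
three edges: `z = x`; or it decreases on `xa` and increases on `ab`, `by`: `f a = f y - 2 ≤ 1`; or
it decreases on `xa`, `ab` and increases on `by`: `f b = f x - 2 ≤ 1`. (`f ≤ 1` means equal or
adjacent.)
Case 2: no pair at distance 3 but `x, y ∈ K` at distance 2, path `x a y`. Claim: the edge `xa`
covers `K`: decreasing twice: `f y ≤ 0`, `z = y` adjacent to `a`; increasing twice: `z = x`;
decreasing and increasing: `f a = f x - 1 ≤ 1`.
Case 3: all distances at most 1, and `x ≠ y` in `K`: `x`, `y` adjacent and the edge `xy` covers
`K` (every `z ∈ K` is equal or adjacent to `x`). -/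
theorem tree_hull (hT : T.IsTree) (h2 : ∃ x y : V, x ≠ y) {K : Set V}
    (hK : ∀ x ∈ K, ∀ y ∈ K, T.dist x y ≤ 3) : ∃ a b, T.Adj a b ∧ Cov T a b K := by
  by_cases h3 : ∃ x ∈ K, ∃ y ∈ K, T.dist x y = 3
  · obtain ⟨x, hx, y, hy, hxy⟩ := h3
    obtain ⟨a, b, hxa, hab, hby⟩ := treeHull_path3 hT hxy
    have hxb : x ≠ b := by
      rintro rfl
      rw [SimpleGraph.dist_eq_one_iff_adj.mpr hby] at hxy
      omega
    have hay : a ≠ y := by
      rintro rfl
      rw [SimpleGraph.dist_eq_one_iff_adj.mpr hxa] at hxy
      omega
    refine ⟨a, b, hab, fun z hz => ?_⟩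
    have e1 := dist_adj hT z hxa
    have e2 := dist_adj hT z hab
    have e3 := dist_adj hT z hby
    have e4 : ¬ (T.dist z a = T.dist z x + 1 ∧ T.dist z a = T.dist z b + 1) := fun h =>
      hxb (closer_unique hT z hxa.symm hab h.1 h.2)
    have e5 : ¬ (T.dist z b = T.dist z a + 1 ∧ T.dist z b = T.dist z y + 1) := fun h =>
      hay (closer_unique hT z hab.symm hby h.1 h.2)
    have e6 := hK z hz x hx
    have e7 := hK z hz y hy
    have e8 : T.dist z y = 0 ∨ T.dist z x = 0 ∨ T.dist z a ≤ 1 ∨ T.dist z b ≤ 1 := by omega
    rcases e8 with h | h | h | h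
    · have := hT.connected.dist_eq_zero_iff.mp h
      subst this
      exact Or.inr (Or.inr (Or.inr hby.symm))
    · have := hT.connected.dist_eq_zero_iff.mp h
      subst this
      exact Or.inr (Or.inr (Or.inl hxa))
    · rcases treeHull_le_one hT h with h | h
      · exact Or.inl h
      · exact Or.inr (Or.inr (Or.inl h))
    · rcases treeHull_le_one hT h with h | h
      · exact Or.inr (Or.inl h)
      · exact Or.inr (Or.inr (Or.inr h))
  · have hK2 : ∀ x ∈ K, ∀ y ∈ K, T.dist x y ≤ 2 := by
      intro x hx y hy
      have h4 := hK x hx y hy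
      have h5 : T.dist x y ≠ 3 := fun h => h3 ⟨x, hx, y, hy, h⟩
      omega
    by_cases h2' : ∃ x ∈ K, ∃ y ∈ K, T.dist x y = 2
    · obtain ⟨x, hx, y, hy, hxy⟩ := h2'
      obtain ⟨a, hxa, hay⟩ := treeHull_path2 hT hxy
      have hne : x ≠ y := by
        rintro rfl
        rw [SimpleGraph.dist_self] at hxy
        omega
      refine ⟨x, a, hxa, fun z hz => ?_⟩
      have e1 := dist_adj hT z hxa
      have e2 := dist_adj hT z hay
      have e4 : ¬ (T.dist z a = T.dist z x + 1 ∧ T.dist z a = T.dist z y + 1) := fun h =>
        hne (closer_unique hT z hxa.symm hay h.1 h.2)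
      have e6 := hK2 z hz x hx
      have e7 := hK2 z hz y hy
      have e8 : T.dist z y = 0 ∨ T.dist z x = 0 ∨ T.dist z a ≤ 1 := by omega
      rcases e8 with h | h | h
      · have := hT.connected.dist_eq_zero_iff.mp h
        subst this
        exact Or.inr (Or.inr (Or.inr hay.symm))
      · exact Or.inl (hT.connected.dist_eq_zero_iff.mp h)
      · rcases treeHull_le_one hT h with h | h
        · exact Or.inr (Or.inl h)
        · exact Or.inr (Or.inr (Or.inr h))
    · have hK1 : ∀ x ∈ K, ∀ y ∈ K, T.dist x y ≤ 1 := by
        intro x hx y hy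
        have h4 := hK2 x hx y hy
        have h5 : T.dist x y ≠ 2 := fun h => h2' ⟨x, hx, y, hy, h⟩
        omega
      by_cases h1 : ∃ x ∈ K, ∃ y ∈ K, x ≠ y
      · obtain ⟨x, hx, y, hy, hne⟩ := h1
        have hxy : T.Adj x y := by
          rcases treeHull_le_one hT (hK1 x hx y hy) with h | h
          · exact absurd h hne
          · exact h
        refine ⟨x, y, hxy, fun z hz => ?_⟩
        rcases treeHull_le_one hT (hK1 z hz x hx) with h | h
        · exact Or.inl h
        · exact Or.inr (Or.inr (Or.inl h))
      · -- at most one element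
        have hnt : Nontrivial V := by
          obtain ⟨x, y, hxy⟩ := h2
          exact ⟨x, y, hxy⟩
        rcases K.eq_empty_or_nonempty with h0 | ⟨x, hx⟩
        · obtain ⟨x, _⟩ := h2
          obtain ⟨y, hy⟩ := hT.connected.preconnected.exists_adj_of_nontrivial x
          refine ⟨x, y, hy, ?_⟩
          intro z hz
          rw [h0] at hz
          exact absurd hz (Set.notMem_empty z)
        · obtain ⟨y, hy⟩ := hT.connected.preconnected.exists_adj_of_nontrivial x
          refine ⟨x, y, hy, ?_⟩
          intro z hz
          left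
          by_contra hne
          exact h1 ⟨z, hz, x, hx, hne⟩

end Pool.Agent.Spanner3
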