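import Pool.Agent.Lib_MP_b5064f_lc.Defs
import Pool.Agent.Lib_MP_b5064f_t3.TreeHull

set_option autoImplicit false

/-!
# Piece SPANNERIFF: tree 3-spanners and covered maximal cliques
-/

namespace Pool.Agent.Spanner3

variable {V : Type} {G : SimpleGraph V}

/-- Every clique of a finite graph is contained in a maximal clique. PROOF: among the finitely
many sets `K ⊇ A` which are cliques take one with the largest `ncard` (for instance
`Set.Finite.exists_maximalFor` or strong induction on `Nat.card V - A.ncard`): if `z ∉ K` is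
adjacent to all elements of `K` then `insert z K` is a larger clique. -/
theorem exists_maxCl [Finite V] {A : Set V} (hA : ∀ x ∈ A, ∀ y ∈ A, x ≠ y → G.Adj x y) :
    ∃ K, MaxCl G K ∧ A ⊆ K := by
  classical
  let P : Type := {K : Set V // (∀ x ∈ K, ∀ y ∈ K, x ≠ y → G.Adj x y) ∧ A ⊆ K}
  haveI : Nonempty P := ⟨⟨A, hA, subset_rfl⟩⟩
  obtain ⟨K, hK⟩ := Finite.exists_max (fun K : P => K.1.ncard)
  refine ⟨K.1, ⟨K.2.1, ?_⟩, K.2.2⟩
  intro z hz
  by_contra hcon
  push Not at hcon
  have hins : (∀ x ∈ insert z K.1, ∀ y ∈ insert z K.1, x ≠ y → G.Adj x y) ∧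
      A ⊆ insert z K.1 := by
    refine ⟨?_, K.2.2.trans (Set.subset_insert _ _)⟩
    rintro x (rfl | hx) y (rfl | hy) hxy
    · exact absurd rfl hxy
    · exact hcon y hy
    · exact (hcon x hx).symm
    · exact K.2.1 x hx y hy hxy
  have h1 := hK ⟨insert z K.1, hins⟩
  have h2 : (insert z K.1).ncard = K.1.ncard + 1 := Set.ncard_insert_of_notMem hz (Set.toFinite _)
  have h1' : (insert z K.1).ncard ≤ K.1.ncard := h1
  omega

theorem spannerIff_walk {T : SimpleGraph V} (hT : T.Connected)
    (h : ∀ x y, G.Adj x y → T.dist x y ≤ 3) {x y : V} (w : G.Walk x y) :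
    T.dist x y ≤ 3 * w.length := by
  induction w with
  | nil => simp
  | cons hadj w ih =>
    rw [SimpleGraph.Walk.length_cons]
    have h1 := h _ _ hadj
    have h2 := hT.dist_triangle (u := _) (v := _) (w := _) |>.trans (Nat.add_le_add h1 ih)
    omega

theorem spannerIff_cov {T : SimpleGraph V} {a b x : V}
    (h : x = a ∨ x = b ∨ T.Adj x a ∨ T.Adj x b) : T.dist x a ≤ 1 ∨ T.dist x b ≤ 1 := by
  rcases h with rfl | rfl | h | h
  · left; simp
  · right; simp
  · left; rw [SimpleGraph.dist_eq_one_iff_adj.mpr h]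
  · right; rw [SimpleGraph.dist_eq_one_iff_adj.mpr h]

/-- PROOF. (→) Let `T` be a tree 3-spanner and `K` a maximal clique: for `x, y ∈ K`,
`G.dist x y ≤ 1`, so `T.dist x y ≤ 3`, and `tree_hull` gives the covering edge.
(←) Let `T` be good. If `G.Adj x y`, extend `{x, y}` to a maximal clique by `exists_maxCl` and let
`ab` be the covering edge; there is a walk of length at most 3 from `x` to `y` in `T` (at most one
edge from `x` to `{a, b}`, the edge `ab`, at most one edge to `y`), so `T.dist x y ≤ 3`. For
arbitrary `x`, `y` take a shortest walk of `G` (`hG`) and use the triangle inequality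
(`T.Connected.dist_triangle`) by induction on the walk: `T.dist x y ≤ 3 * w.length`. -/
theorem good_iff [Finite V] (hG : G.Connected) (h2 : ∃ x y : V, x ≠ y) :
    Pool.Agent.Spanner.HasTreeSpanner G 3 ↔ ∃ T, Good G T := by
  constructor
  · rintro ⟨T, hTG, hT, hd⟩
    refine ⟨T, hTG, hT, ?_⟩
    intro K hK _
    refine tree_hull hT h2 ?_
    intro x hx y hy
    by_cases hxy : x = y
    · rw [hxy]; simp
    · have h1 := hd x y
      rw [SimpleGraph.dist_eq_one_iff_adj.mpr (hK.1 x hx y hy hxy)] at h1
      exact h1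
  · rintro ⟨T, hTG, hT, hcov⟩
    refine ⟨T, hTG, hT, ?_⟩
    have hTc : T.Connected := hT.connected
    have hadj : ∀ x y, G.Adj x y → T.dist x y ≤ 3 := by
      intro x y hxy
      obtain ⟨K, hK, hsub⟩ := exists_maxCl (G := G) (A := {x, y}) (by
        rintro a (rfl | rfl) b (rfl | rfl) hab
        · exact absurd rfl hab
        · exact hxy
        · exact hxy.symm
        · exact absurd rfl hab)
      have hxK : x ∈ K := hsub (by simp)
      have hyK : y ∈ K := hsub (by simp)
      obtain ⟨a, b, hab, hc⟩ := hcov K hK ⟨x, hxK, Set.mem_univ _⟩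
      have hx := spannerIff_cov (hc x hxK)
      have hy := spannerIff_cov (hc y hyK)
      have hab1 : T.dist a b = 1 := SimpleGraph.dist_eq_one_iff_adj.mpr hab
      have hba1 : T.dist b a = 1 := SimpleGraph.dist_eq_one_iff_adj.mpr hab.symm
      have t1 := hTc.dist_triangle (u := x) (v := a) (w := y)
      have t2 := hTc.dist_triangle (u := x) (v := b) (w := y)
      have t3 := hTc.dist_triangle (u := a) (v := b) (w := y)
      have t4 := hTc.dist_triangle (u := b) (v := a) (w := y)
      have e1 : T.dist y a = T.dist a y := SimpleGraph.dist_comm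
      have e2 : T.dist y b = T.dist b y := SimpleGraph.dist_comm
      omega
    intro x y
    obtain ⟨w, hw⟩ := hG.exists_walk_length_eq_dist x y
    rw [← hw]
    exact spannerIff_walk hTc hadj w

end Pool.Agent.Spanner3
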