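import Pool.Agent.Lib_MP_b5064f_t3.StarInComp

set_option autoImplicit false

/-!
# Piece STARCOMP: a good tree gives feasible stars
-/

namespace Pool.Agent.Spanner3

open Relation

variable {V : Type} {G T : SimpleGraph V} {r : V → ℕ}

/-- PROOF. If `c ∈ S ∪ C`: `starIn_comp`. Otherwise, if `S` has exactly one element `s`:
`starIn_comp` for `s` (`hs` for `s` is vacuous, `s ∉ C` by `disj`). Otherwise there are `s ≠ s'` in
`S` (`hne`), both adjacent to `c` in `T` (`c ∉ S`). Let `ab` be a `T`-edge covering `K`; by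
`cov_two`, `c` is one of its ends; let `z` be the other one. `z ∈ K` or `c ∈ K` by `cover_meets`,
and `c ∉ K` (`K_sub`), so `z ∈ K`; `z ∉ C` (`clos`, since `z` is adjacent to `c ∉ S ∪ C`), so
`z ∈ S`. Now `Sat G t N z c (S \ {z}) (K \ S)` by `sat_iff` with `B = BT T z c`, closed under `Dr`
by `node_comp` (`p = z`, `q = c`; `c ∉ C`, `z ∉ C`). On `one`: `x ∈ S`, `x ≠ z`: `T.Adj x c`. On
`zero`: `x ∈ K`, `x ∉ S`, so `x ∈ C`; `x ≠ c`, and `T.Adj x c` would give `c ∈ S ∪ C`. -/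
theorem star_comp [Finite V] (hr : IsPEO G r) {N : Node V} (hN : GoodNode G N) (hTG : T ≤ G)
    (hT : T.IsAcyclic) (hcov : CovAll G T Set.univ) (h2 : ∃ x ∈ N.K, ∃ y ∈ N.K, x ≠ y) {k : ℕ}
    {t : Tab V} (hk : N.C.ncard ≤ k + 1) (ht : CompTab G T k t) (hne : ∃ s, s ∈ N.S) {c : V}
    (hs : ∀ s ∈ N.S, s ≠ c → T.Adj s c)
    (hc2 : c ∈ N.C → ∃ s ∈ N.S, ∃ s' ∈ N.S, s ≠ s') : StarS G t N c := by
  classical
  by_cases hc : c ∈ N.S ∨ c ∈ N.C
  · exact Or.inl ⟨hc, starIn_comp hr hN hTG hT hcov h2 hk ht hc hs hc2⟩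
  · have hcS : c ∉ N.S := fun h => hc (Or.inl h)
    have hcC : c ∉ N.C := fun h => hc (Or.inr h)
    refine Or.inr ⟨hcS, hcC, ?_⟩
    obtain ⟨s0, hs0⟩ := hne
    by_cases h1 : ∀ s' ∈ N.S, s' = s0
    · left
      refine ⟨s0, hs0, h1, starIn_comp hr hN hTG hT hcov h2 hk ht (Or.inl hs0) ?_ ?_⟩
      · intro s hs' hne'
        exact absurd (h1 s hs') hne'
      · intro hC
        exact absurd hC (hN.disj s0 hs0)
    · have h1' : ∃ s' ∈ N.S, s' ≠ s0 := by
        by_contra hcon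
        exact h1 fun s' hs' => by
          by_contra hne'
          exact hcon ⟨s', hs', hne'⟩
      obtain ⟨s1, hs1, hne1⟩ := h1'
      right
      have hs0c : T.Adj s0 c := hs s0 hs0 (by rintro rfl; exact hcS hs0)
      have hs1c : T.Adj s1 c := hs s1 hs1 (by rintro rfl; exact hcS hs1)
      have hcK : c ∉ N.K := fun h => (K_sub hN h).elim hcS hcC
      obtain ⟨c0, hc0K, -⟩ := hN.meet
      obtain ⟨a, b, hab, hcovab⟩ := hcov N.K hN.maxcl ⟨c0, hc0K, Set.mem_univ _⟩
      have hz : ∃ z, T.Adj z c ∧ Cov T z c N.K := by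
        rcases cov_two hT hne1.symm hs0c hs1c hab (hcovab s0 (hN.SK s0 hs0))
          (hcovab s1 (hN.SK s1 hs1)) with h | h
        · subst h
          refine ⟨b, hab.symm, fun x hx => ?_⟩
          rcases hcovab x hx with h | h | h | h
          · exact Or.inr (Or.inl h)
          · exact Or.inl h
          · exact Or.inr (Or.inr (Or.inr h))
          · exact Or.inr (Or.inr (Or.inl h))
        · subst h
          exact ⟨a, hab, hcovab⟩
      obtain ⟨z, hzc, hzcov⟩ := hz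
      have hzK : z ∈ N.K := (cover_meets hr hTG hN.maxcl hzc hzcov).resolve_right hcK
      have hzC : z ∉ N.C := fun h => (hN.clos z h c (hTG hzc)).elim hcC hcS
      have hzS : z ∈ N.S := (K_sub hN hzK).resolve_right hzC
      refine ⟨z, hzS, sat_iff.2 ⟨BT T z c, Or.inl rfl, ?_, ?_, ?_, ?_⟩⟩
      · rintro (h | ⟨h, -⟩)
        · exact hzc.ne h
        · exact h rfl
      · rintro x ⟨hxS, hxz⟩
        exact Or.inr ⟨hxz, hs x hxS (by rintro rfl; exact hcS hxS)⟩
      · rintro x ⟨hxK, hxS⟩ (h | ⟨-, h⟩)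
        · exact hcK (h ▸ hxK)
        · have hxC : x ∈ N.C := (K_sub hN hxK).resolve_left hxS
          exact (hN.clos x hxC c (hTG h)).elim hcC hcS
      · exact node_comp hN hTG hk ht hzc hzcov (Or.inl hzK) (fun h => absurd h hcC)
          (fun h => absurd h hzC)

end Pool.Agent.Spanner3
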