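import Pool.Agent.Lib_MP_b5064f_t3.NodeComp
import Pool.Agent.Lib_MP_b5064f_t3.Meet
import Pool.Agent.Lib_MP_b5064f_t3.SatLemmas

set_option autoImplicit false

/-!
# Piece STARINCOMP: a good tree gives feasible inner stars
-/

namespace Pool.Agent.Spanner3

open Relation

variable {V : Type} {G T : SimpleGraph V} {r : V → ℕ}

private theorem starincomp_mem {N : Node V} (hN : GoodNode G N) (hTG : T ≤ G)
    (hT : T.IsAcyclic) {p q c : V} (hpq : T.Adj p q) (hKor : p ∈ N.K ∨ q ∈ N.K)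
    (hqK : q ∉ N.K → ∃ v ∈ N.K, v ≠ p ∧ T.Adj v q) (hc : c ∈ N.S ∨ c ∈ N.C)
    (hs : ∀ s ∈ N.S, s ≠ c → T.Adj s c) : q ∈ N.S ∨ q ∈ N.C := by
  by_cases hq : q ∈ N.K
  · exact K_sub hN hq
  have hp : p ∈ N.K := hKor.resolve_right hq
  obtain ⟨v, hv, hvp, hvq⟩ := hqK hq
  by_contra hcon
  have hout : ∀ z ∈ N.K, T.Adj z q → z ∈ N.S := by
    intro z hz hzq
    rcases K_sub hN hz with h | h
    · exact h
    · exact (hcon ((hN.clos z h q (hTG hzq)).symm)).elim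
  have hpS := hout p hp hpq
  have hvS := hout v hv hvq
  have hcq : c ≠ q := by
    rintro rfl
    exact hcon hc
  by_cases h1 : p = c
  · subst h1
    exact no_tri hT (hs v hvS hvp) hpq hvq
  by_cases h2 : v = c
  · subst h2
    exact no_tri hT (hs p hpS h1) hvq hpq
  · exact no_c4 hT (hs p hpS h1) (hs v hvS h2).symm hvq hpq.symm hvp.symm hcq

private theorem starincomp_third {N : Node V} (hN : GoodNode G N)
    (hT : T.IsAcyclic) {p q c : V} (hpq : T.Adj p q) (hcov : Cov T p q N.K)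
    (hc : c ∈ N.S ∨ c ∈ N.C) (hs : ∀ s ∈ N.S, s ≠ c → T.Adj s c)
    (hc2 : c ∈ N.C → ∃ s ∈ N.S, ∃ s' ∈ N.S, s ≠ s') :
    c = p ∨ c = q ∨ (c ∈ N.K ∧ ∀ s ∈ N.S, s ≠ c → s = p ∨ s = q) := by
  by_cases hcp : c = p
  · exact Or.inl hcp
  by_cases hcq : c = q
  · exact Or.inr (Or.inl hcq)
  refine Or.inr (Or.inr ?_)
  have hA : ∀ s ∈ N.S, ∀ s' ∈ N.S, s ≠ c → s' ≠ c → s = s' := by
    intro s h1 s' h2 h3 h4
    by_contra hne
    rcases cov_two hT hne (hs s h1 h3) (hs s' h2 h4) hpq (hcov s (hN.SK s h1))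
      (hcov s' (hN.SK s' h2)) with h | h
    · exact hcp h
    · exact hcq h
  have hcS : c ∈ N.S := by
    rcases hc with h | h
    · exact h
    · obtain ⟨s, h1, s', h2, hne⟩ := hc2 h
      exact (hne (hA s h1 s' h2 (fun e => hN.disj s h1 (e ▸ h))
        fun e => hN.disj s' h2 (e ▸ h))).elim
  have hcK : c ∈ N.K := hN.SK c hcS
  refine ⟨hcK, fun s hsS hsc => ?_⟩
  by_contra hcon
  push Not at hcon
  have e1 := hs s hsS hsc
  have e2 : T.Adj s p ∨ T.Adj s q := by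
    rcases hcov s (hN.SK s hsS) with h | h | h | h
    · exact (hcon.1 h).elim
    · exact (hcon.2 h).elim
    · exact Or.inl h
    · exact Or.inr h
  have e3 : T.Adj c p ∨ T.Adj c q := by
    rcases hcov c hcK with h | h | h | h
    · exact (hcp h).elim
    · exact (hcq h).elim
    · exact Or.inl h
    · exact Or.inr h
  rcases e2 with e2 | e2 <;> rcases e3 with e3 | e3
  · exact no_tri hT e1 e3 e2
  · exact no_c4 hT e2 hpq e3.symm e1.symm hcon.2 fun h => hcp h.symm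
  · exact no_c4 hT e2 hpq.symm e3.symm e1.symm hcon.1 fun h => hcq h.symm
  · exact no_tri hT e1 e3 e2

/-- PROOF. By `CovAll` (`K` is a maximal clique) and `canon` take a canonical covering edge `pq` of
`K = N.K`: `T.Adj p q`, `Cov T p q K`, `p ∈ K ∨ q ∈ K`, `q ∉ K → ∃ v ∈ K, v ≠ p ∧ T.Adj v q`,
`p ∉ K → ∃ v ∈ K, v ≠ q ∧ T.Adj v p`. Use it in `StarIn`.
(1) `q ∈ S ∪ C`: if `q ∈ K` by `K_sub`. Otherwise `p ∈ K` and there is `v ∈ K`, `v ≠ p`,
`T.Adj v q`. Suppose `q ∉ S ∪ C`. Then `p ∉ C` and `v ∉ C` (`clos`, they are adjacent to `q`), so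
`p, v ∈ S` by `K_sub`. `c ≠ q` since `c ∈ S ∪ C`. If `c = p`: `T.Adj v p`, triangle `v p q`. If
`c = v`: `T.Adj p v`, triangle. Otherwise `p c v q` is a 4-cycle of `T` (`no_c4`, `p ≠ v`,
`c ≠ q`). The same for `p`.
(2) third condition: suppose `c ≠ p`, `c ≠ q`. There are no two different elements `s, s'` of
`S \ {c}`: otherwise `c ∈ {p, q}` by `cov_two` (`s, s' ∈ S ⊆ K` are covered by `pq`). So `c ∉ C`
(if `c ∈ C` the two different elements of `S` given by `hc2` are different from `c`), so `c ∈ S`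
and `c ∈ K`. Let `s ∈ S`, `s ≠ c`, and suppose `s ≠ p, q`. `T.Adj s c`, and both `s` and `c` are
adjacent in `T` to `p` or to `q`: triangle (same end) or 4-cycle `s p q c` / `s q p c`
(`no_c4`: `s ≠ q`, `p ≠ c` etc.).
(3) `Sat`: by `sat_iff` with `B = BT T p q`: `B q`, `¬ B p` (`p ≠ q`) and closed under `Dr` by
`node_comp`. On `one`: `c = q`, `x ∈ S`, `x ≠ p, q`: `T.Adj x q` by `hs`, so `B x`; or `x = c`,
`c ≠ p, q`, `q ∈ S`: `T.Adj q c`. On `zero`: `c = p`, `x ∈ S`, `x ≠ p, q`: `T.Adj x p`, and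
`T.Adj x q` would give a triangle; or `x = c ≠ p, q`, `p ∈ S`: `T.Adj p c`, and `T.Adj c q` would
give a triangle `c p q`. -/
theorem starIn_comp [Finite V] (hr : IsPEO G r) {N : Node V} (hN : GoodNode G N) (hTG : T ≤ G)
    (hT : T.IsAcyclic) (hcov : CovAll G T Set.univ) (h2 : ∃ x ∈ N.K, ∃ y ∈ N.K, x ≠ y) {k : ℕ}
    {t : Tab V} (hk : N.C.ncard ≤ k + 1) (ht : CompTab G T k t) {c : V}
    (hc : c ∈ N.S ∨ c ∈ N.C) (hs : ∀ s ∈ N.S, s ≠ c → T.Adj s c)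
    (hc2 : c ∈ N.C → ∃ s ∈ N.S, ∃ s' ∈ N.S, s ≠ s') : StarIn G t N c := by
  obtain ⟨a0, b0, hab0, hcov0⟩ := hcov N.K hN.maxcl (by
    obtain ⟨x, hx, _⟩ := hN.meet
    exact ⟨x, hx, trivial⟩)
  obtain ⟨p, q, hpq, hcpq, hKor, hqK, hpK⟩ := canon hr hTG hN.maxcl h2 hab0 hcov0
  have hq1 : q ∈ N.S ∨ q ∈ N.C := starincomp_mem hN hTG hT hpq hKor hqK hc hs
  have hp1 : p ∈ N.S ∨ p ∈ N.C := starincomp_mem hN hTG hT hpq.symm hKor.symm hpK hc hs
  refine ⟨p, q, hTG hpq, hp1, hq1, hKor, starincomp_third hN hT hpq hcpq hc hs hc2, ?_⟩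
  refine sat_iff.2 ⟨BT T p q, Or.inl rfl, ?_, ?_, ?_, ?_⟩
  · rintro (h | h)
    · exact hpq.ne h
    · exact h.1 rfl
  · rintro x (⟨rfl, hxS, hxp, hxq⟩ | ⟨hcp, hcq, rfl, hqS⟩)
    · exact Or.inr ⟨hxp, hs x hxS hxq⟩
    · exact Or.inr ⟨hcp, (hs q hqS fun h => hcq h.symm).symm⟩
  · rintro x (⟨rfl, hxS, hxp, hxq⟩ | ⟨hcp, hcq, rfl, hpS⟩) (h | h)
    · exact hxq h
    · exact no_tri hT (hs x hxS hxp) hpq h.2
    · exact hcq h
    · exact no_tri hT (hs p hpS fun h => hcp h.symm).symm hpq h.2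
  · exact node_comp hN hTG hk ht hpq hcpq (by tauto) (fun _ h => hqK h) (fun _ h => hpK h)

end Pool.Agent.Spanner3
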