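import Pool.Agent.Lib_MP_b5064f_t3.NodeSound
import Pool.Agent.Lib_MP_b5064f_t3.Attach
import Pool.Agent.Lib_MP_b5064f_t3.SatLemmas

set_option autoImplicit false

/-!
# Piece STARINSOUND: inner stars are realisable
-/

namespace Pool.Agent.Spanner3

open Relation

variable {V : Type} {G : SimpleGraph V}

/-- assembly -/
theorem starInSound_asm [Finite V] {N : Node V} (hN : GoodNode G N) {k : ℕ} {t : Tab V}
    (hk : N.C.ncard ≤ k + 1) (ht : SoundTab G k t) {p q : V} {B : V → Prop}
    (hpq : G.Adj p q) (hK : p ∈ N.K ∨ q ∈ N.K) (hq : B q) (hp : ¬ B p)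
    (hB : ∀ x y, Dr G t N p q x y → B x → B y) {hyp : SimpleGraph V → Prop} {c : V} {m : ℕ}
    (Y' : Finset (Sym2 V)) (hY' : ∀ e ∈ Y', e ∈ G.edgeSet)
    (hT : ∀ T : SimpleGraph V, hyp T → (∀ e ∈ Y', e ∈ T.edgeSet) →
      Dbl T p q B N.K ∧ T.Reachable c p)
    (hm : ((N.C \ N.K) \ {p, q}).ncard + Y'.card ≤ m) : Ext G N.C m hyp c := by
  classical
  obtain ⟨Y, hY1, hY2, hY3⟩ := node_sound hN hk ht hpq.ne
    (by rcases hK with h | h; exacts [Or.inl h, Or.inr (Or.inl h)]) (Or.inl hpq) hq hp hB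
  refine ⟨Y ∪ Y', ?_, ?_, ?_⟩
  · intro e he
    rcases Finset.mem_union.mp he with he | he
    · exact hY1 e he
    · exact hY' e he
  · have h1 := Finset.card_union_le Y Y'
    omega
  · intro T h1 h2
    obtain ⟨h3, h4⟩ := hT T h1 fun e he => h2 e (Finset.mem_union_right _ he)
    obtain ⟨h5, h6⟩ := hY3 T h3 fun e he => h2 e (Finset.mem_union_left _ he)
    exact ⟨fun x hx => h4.trans (h5 x hx), h6⟩

/-- counting disjoint parts -/
theorem starInSound_count [Finite V] {A1 A2 A3 E : Set V} (h1 : A1 ⊆ E) (h2 : A2 ⊆ E)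
    (h3 : A3 ⊆ E) (h12 : ∀ x ∈ A1, x ∉ A2) (h13 : ∀ x ∈ A1, x ∉ A3) (h23 : ∀ x ∈ A2, x ∉ A3) :
    A1.ncard + A2.ncard + A3.ncard ≤ E.ncard := by
  have e1 : (A1 ∪ A2).ncard = A1.ncard + A2.ncard :=
    Set.ncard_union_eq (Set.disjoint_left.mpr h12) (Set.toFinite _) (Set.toFinite _)
  have e2 : (A1 ∪ A2 ∪ A3).ncard = (A1 ∪ A2).ncard + A3.ncard := by
    apply Set.ncard_union_eq _ (Set.toFinite _) (Set.toFinite _)
    rw [Set.disjoint_left]
    rintro x (hx | hx)
    · exact h13 x hx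
    · exact h23 x hx
  rw [← e1, ← e2]
  exact Set.ncard_le_ncard (Set.union_subset (Set.union_subset h1 h2) h3) (Set.toFinite _)

/-- the case `c = q` -/
theorem starInSound_q [Finite V] {N : Node V} (hN : GoodNode G N) {k : ℕ} {t : Tab V}
    (hk : N.C.ncard ≤ k + 1) (ht : SoundTab G k t) {p q : V} {B : V → Prop}
    (hpq : G.Adj p q) (hpSC : p ∈ N.S ∨ p ∈ N.C) (hK : p ∈ N.K ∨ q ∈ N.K) (hq : B q)
    (hp : ¬ B p) (hB : ∀ x y, Dr G t N p q x y → B x → B y)
    (hone : ∀ x ∈ N.S, x ≠ p → x ≠ q → B x) :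
    Ext G N.C ((N.C \ {q}).ncard) (fun T => ∀ s ∈ N.S, s ≠ q → T.Adj s q) q := by
  classical
  obtain ⟨Ya, hYa1, hYa2, hYa3⟩ := attach (G := G) (p := p) (q := q) (B := B)
    ((N.K ∩ N.C) \ {p, q})
    (fun v hv hBv => (dr_adj hq hp hB hv.1.1 (fun h => hv.2 (Or.inl h))
      (fun h => hv.2 (Or.inr h))).1 hBv)
    (fun v hv hBv => (dr_adj hq hp hB hv.1.1 (fun h => hv.2 (Or.inl h))
      (fun h => hv.2 (Or.inr h))).2 hBv)
  apply starInSound_asm hN hk ht hpq hK hq hp hB
    (Ya ∪ (if p ∈ N.C then {s(p, q)} else ∅))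
  · intro e he
    rcases Finset.mem_union.mp he with he | he
    · exact hYa1 e he
    · split_ifs at he with h
      · rw [Finset.mem_singleton.mp he]
        exact hpq
      · exact absurd he (Finset.notMem_empty _)
  · intro T h1 h2
    have h3 : T.Adj p q := by
      by_cases h : p ∈ N.C
      · have := h2 s(p, q) (Finset.mem_union_right _ (by rw [if_pos h]; simp))
        exact this
      · exact h1 p (hpSC.resolve_right h) hpq.ne
    have h4 := hYa3 T fun e he => h2 e (Finset.mem_union_left _ he)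
    refine ⟨⟨h3, ?_⟩, h3.symm.reachable⟩
    intro v hv hvp hvq
    rcases K_sub hN hv with hS | hC
    · exact ⟨fun _ => h1 v hS hvq, fun h => absurd (hone v hS hvp hvq) h⟩
    · exact h4 v ⟨⟨hv, hC⟩, by
        rintro (h | h)
        · exact hvp h
        · exact hvq h⟩
  · have h1 := Finset.card_union_le Ya (if p ∈ N.C then {s(p, q)} else ∅)
    have h2 := starInSound_count (A1 := (N.C \ N.K) \ {p, q}) (A2 := (N.K ∩ N.C) \ {p, q})
      (A3 := {p} ∩ N.C) (E := N.C \ {q})
      (fun x hx => ⟨hx.1.1, fun h => hx.2 (Or.inr h)⟩)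
      (fun x hx => ⟨hx.1.2, fun h => hx.2 (Or.inr h)⟩)
      (fun x hx => ⟨hx.2, fun h => hpq.ne (hx.1.symm.trans h)⟩)
      (fun x hx hx' => hx.1.2 hx'.1.1)
      (fun x hx hx' => hx.2 (Or.inl hx'.1))
      (fun x hx hx' => hx.2 (Or.inl hx'.1))
    have h3 : (if p ∈ N.C then ({s(p, q)} : Finset (Sym2 V)) else ∅).card ≤
        ({p} ∩ N.C : Set V).ncard := by
      split_ifs with h
      · have : ({p} ∩ N.C : Set V) = {p} := by
          rw [Set.inter_eq_left]
          intro x hx
          rw [Set.mem_singleton_iff] at hx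
          rw [hx]
          exact h
        rw [this, Set.ncard_singleton, Finset.card_singleton]
      · simp
    omega

/-- the case `c = p` -/
theorem starInSound_p [Finite V] {N : Node V} (hN : GoodNode G N) {k : ℕ} {t : Tab V}
    (hk : N.C.ncard ≤ k + 1) (ht : SoundTab G k t) {p q : V} {B : V → Prop}
    (hpq : G.Adj p q) (hqSC : q ∈ N.S ∨ q ∈ N.C) (hK : p ∈ N.K ∨ q ∈ N.K) (hq : B q)
    (hp : ¬ B p) (hB : ∀ x y, Dr G t N p q x y → B x → B y)
    (hzero : ∀ x ∈ N.S, x ≠ p → x ≠ q → ¬ B x) :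
    Ext G N.C ((N.C \ {p}).ncard) (fun T => ∀ s ∈ N.S, s ≠ p → T.Adj s p) p := by
  classical
  obtain ⟨Ya, hYa1, hYa2, hYa3⟩ := attach (G := G) (p := p) (q := q) (B := B)
    ((N.K ∩ N.C) \ {p, q})
    (fun v hv hBv => (dr_adj hq hp hB hv.1.1 (fun h => hv.2 (Or.inl h))
      (fun h => hv.2 (Or.inr h))).1 hBv)
    (fun v hv hBv => (dr_adj hq hp hB hv.1.1 (fun h => hv.2 (Or.inl h))
      (fun h => hv.2 (Or.inr h))).2 hBv)
  apply starInSound_asm hN hk ht hpq hK hq hp hB
    (Ya ∪ (if q ∈ N.C then {s(p, q)} else ∅))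
  · intro e he
    rcases Finset.mem_union.mp he with he | he
    · exact hYa1 e he
    · split_ifs at he with h
      · rw [Finset.mem_singleton.mp he]
        exact hpq
      · exact absurd he (Finset.notMem_empty _)
  · intro T h1 h2
    have h3 : T.Adj p q := by
      by_cases h : q ∈ N.C
      · have := h2 s(p, q) (Finset.mem_union_right _ (by rw [if_pos h]; simp))
        exact this
      · exact (h1 q (hqSC.resolve_right h) hpq.ne').symm
    have h4 := hYa3 T fun e he => h2 e (Finset.mem_union_left _ he)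
    refine ⟨⟨h3, ?_⟩, SimpleGraph.Reachable.refl _⟩
    intro v hv hvp hvq
    rcases K_sub hN hv with hS | hC
    · exact ⟨fun h => absurd h (hzero v hS hvp hvq), fun _ => h1 v hS hvp⟩
    · exact h4 v ⟨⟨hv, hC⟩, by
        rintro (h | h)
        · exact hvp h
        · exact hvq h⟩
  · have h1 := Finset.card_union_le Ya (if q ∈ N.C then {s(p, q)} else ∅)
    have h2 := starInSound_count (A1 := (N.C \ N.K) \ {p, q}) (A2 := (N.K ∩ N.C) \ {p, q})
      (A3 := {q} ∩ N.C) (E := N.C \ {p})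
      (fun x hx => ⟨hx.1.1, fun h => hx.2 (Or.inl h)⟩)
      (fun x hx => ⟨hx.1.2, fun h => hx.2 (Or.inl h)⟩)
      (fun x hx => ⟨hx.2, fun h => hpq.ne' (hx.1.symm.trans h)⟩)
      (fun x hx hx' => hx.1.2 hx'.1.1)
      (fun x hx hx' => hx.2 (Or.inr hx'.1))
      (fun x hx hx' => hx.2 (Or.inr hx'.1))
    have h3 : (if q ∈ N.C then ({s(p, q)} : Finset (Sym2 V)) else ∅).card ≤
        ({q} ∩ N.C : Set V).ncard := by
      split_ifs with h
      · have : ({q} ∩ N.C : Set V) = {q} := by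
          rw [Set.inter_eq_left]
          intro x hx
          rw [Set.mem_singleton_iff] at hx
          rw [hx]
          exact h
        rw [this, Set.ncard_singleton, Finset.card_singleton]
      · simp
    omega

/-- the case `c ≠ p, q` -/
theorem starInSound_c [Finite V] {N : Node V} (hN : GoodNode G N) {k : ℕ} {t : Tab V}
    (hk : N.C.ncard ≤ k + 1) (ht : SoundTab G k t) {p q c : V} {B : V → Prop}
    (hpq : G.Adj p q) (hpSC : p ∈ N.S ∨ p ∈ N.C) (hqSC : q ∈ N.S ∨ q ∈ N.C)
    (hK : p ∈ N.K ∨ q ∈ N.K) (hq : B q)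
    (hp : ¬ B p) (hB : ∀ x y, Dr G t N p q x y → B x → B y) (hcp : c ≠ p) (hcq : c ≠ q)
    (hcK : c ∈ N.K) (hS : ∀ s ∈ N.S, s ≠ c → s = p ∨ s = q)
    (hone : q ∈ N.S → B c) (hzero : p ∈ N.S → ¬ B c) :
    Ext G N.C ((N.C \ {c}).ncard) (fun T => ∀ s ∈ N.S, s ≠ c → T.Adj s c) c := by
  classical
  have hadj : ∀ v ∈ N.K, v ≠ p → v ≠ q → (B v → G.Adj v q) ∧ (¬ B v → G.Adj v p) :=
    fun v hv h1 h2 => dr_adj hq hp hB hv h1 h2
  obtain ⟨Ya, hYa1, hYa2, hYa3⟩ := attach (G := G) (p := p) (q := q) (B := B)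
    ((N.K ∩ N.C) \ {p, q, c})
    (fun v hv hBv => (hadj v hv.1.1 (fun h => hv.2 (Or.inl h))
      (fun h => hv.2 (Or.inr (Or.inl h)))).1 hBv)
    (fun v hv hBv => (hadj v hv.1.1 (fun h => hv.2 (Or.inl h))
      (fun h => hv.2 (Or.inr (Or.inl h)))).2 hBv)
  obtain ⟨Yc, hYc1, hYc2, hYc3⟩ := attach (G := G) (p := p) (q := q) (B := B)
    ({x | x = c ∧ p ∉ N.S ∧ q ∉ N.S})
    (fun v hv hBv => (hadj v (hv.1 ▸ hcK) (hv.1 ▸ hcp) (hv.1 ▸ hcq)).1 hBv)
    (fun v hv hBv => (hadj v (hv.1 ▸ hcK) (hv.1 ▸ hcp) (hv.1 ▸ hcq)).2 hBv)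
  apply starInSound_asm hN hk ht hpq hK hq hp hB (Ya ∪ (Yc ∪ {s(p, q)}))
  · intro e he
    rcases Finset.mem_union.mp he with he | he
    · exact hYa1 e he
    · rcases Finset.mem_union.mp he with he | he
      · exact hYc1 e he
      · rw [Finset.mem_singleton.mp he]
        exact hpq
  · intro T h1 h2
    have h3 : T.Adj p q := h2 s(p, q) (Finset.mem_union_right _
      (Finset.mem_union_right _ (Finset.mem_singleton_self _)))
    have h4 := hYa3 T fun e he => h2 e (Finset.mem_union_left _ he)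
    have h5 := hYc3 T fun e he => h2 e (Finset.mem_union_right _ (Finset.mem_union_left _ he))
    have h6 : (B c → T.Adj c q) ∧ (¬ B c → T.Adj c p) := by
      by_cases hqS : q ∈ N.S
      · exact ⟨fun _ => (h1 q hqS hcq.symm).symm, fun h => absurd (hone hqS) h⟩
      · by_cases hpS : p ∈ N.S
        · exact ⟨fun h => absurd h (hzero hpS), fun _ => (h1 p hpS hcp.symm).symm⟩
        · exact h5 c ⟨rfl, hpS, hqS⟩
    refine ⟨⟨h3, ?_⟩, ?_⟩
    · intro v hv hvp hvq
      by_cases hvc : v = c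
      · rw [hvc]
        exact h6
      · have hvS : v ∉ N.S := fun h => by
          rcases hS v h hvc with h | h
          · exact hvp h
          · exact hvq h
        exact h4 v ⟨⟨hv, (K_sub hN hv).resolve_left hvS⟩, by
          rintro (h | h | h)
          · exact hvp h
          · exact hvq h
          · exact hvc h⟩
    · by_cases hBc : B c
      · exact (h6.1 hBc).reachable.trans h3.symm.reachable
      · exact (h6.2 hBc).reachable
  · have h1 := Finset.card_union_le Ya (Yc ∪ {s(p, q)})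
    have h1' := Finset.card_union_le Yc {s(p, q)}
    rw [Finset.card_singleton] at h1'
    have hcount : ∀ A3 : Set V, (∀ x ∈ A3, x ∈ N.C ∧ (x = p ∨ x = q)) →
        ((N.C \ N.K) \ {p, q}).ncard + ((N.K ∩ N.C) \ {p, q, c}).ncard + A3.ncard ≤
          (N.C \ {c}).ncard := by
      intro A3 hA3
      apply starInSound_count
      · exact fun x hx => ⟨hx.1.1, fun h => hx.1.2 (h.symm ▸ hcK)⟩
      · exact fun x hx => ⟨hx.1.2, fun h => hx.2 (Or.inr (Or.inr h))⟩
      · intro x hx
        refine ⟨(hA3 x hx).1, fun h => ?_⟩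
        rcases (hA3 x hx).2 with h' | h'
        · exact hcp (h.symm.trans h')
        · exact hcq (h.symm.trans h')
      · exact fun x hx hx' => hx.1.2 hx'.1.1
      · intro x hx hx'
        rcases (hA3 x hx').2 with h' | h'
        · exact hx.2 (Or.inl h')
        · exact hx.2 (Or.inr h')
      · intro x hx hx'
        rcases (hA3 x hx').2 with h' | h'
        · exact hx.2 (Or.inl h')
        · exact hx.2 (Or.inr (Or.inl h'))
    by_cases hqS : q ∈ N.S
    · have hpS : p ∉ N.S := fun h => hzero h (hone hqS)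
      have hYc0 : Yc.card ≤ 0 := by
        have : ({x | x = c ∧ p ∉ N.S ∧ q ∉ N.S} : Set V) = ∅ := by
          ext x
          constructor
          · rintro ⟨_, _, h⟩
            exact absurd hqS h
          · intro h
            exact absurd h (Set.notMem_empty x)
        rw [this] at hYc2
        simpa using hYc2
      have h2 := hcount {p} (by
        intro x hx
        rw [Set.mem_singleton_iff] at hx
        rw [hx]
        exact ⟨hpSC.resolve_left hpS, Or.inl rfl⟩)
      rw [Set.ncard_singleton] at h2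
      omega
    · by_cases hpS : p ∈ N.S
      · have hYc0 : Yc.card ≤ 0 := by
          have : ({x | x = c ∧ p ∉ N.S ∧ q ∉ N.S} : Set V) = ∅ := by
            ext x
            constructor
            · rintro ⟨_, h, _⟩
              exact absurd hpS h
            · intro h
              exact absurd h (Set.notMem_empty x)
          rw [this] at hYc2
          simpa using hYc2
        have h2 := hcount {q} (by
          intro x hx
          rw [Set.mem_singleton_iff] at hx
          rw [hx]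
          exact ⟨hqSC.resolve_left hqS, Or.inr rfl⟩)
        rw [Set.ncard_singleton] at h2
        omega
      · have hYc0 : Yc.card ≤ 1 := by
          refine hYc2.trans ?_
          have : ({x | x = c ∧ p ∉ N.S ∧ q ∉ N.S} : Set V) ⊆ {c} := fun x hx => hx.1
          have h3 := Set.ncard_le_ncard this (Set.toFinite _)
          rwa [Set.ncard_singleton] at h3
        have h2 := hcount {p, q} (by
          rintro x (hx | hx)
          · rw [hx]
            exact ⟨hpSC.resolve_left hpS, Or.inl rfl⟩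
          · rw [Set.mem_singleton_iff] at hx
            rw [hx]
            exact ⟨hqSC.resolve_left hqS, Or.inr rfl⟩)
        rw [Set.ncard_pair hpq.ne] at h2
        omega

/-- PROOF. `StarIn` gives `p, q` and by `sat_iff` a labelling `B` closed under `Dr` with `B q`,
`¬ B p`, true on `one` and false on `zero`. `node_sound` (`h2` from `G.Adj p q`) gives `Y0` with
at most `((C \ K) \ {p, q}).ncard` elements. Recall `K ⊆ S ∪ C` (`K_sub`), `S ∩ C = ∅`.
(a) `c = q`. Let `Y` be `Y0`, the edges of `attach` for `A = (K ∩ C) \ {p, q}`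
(`dr_adj`), and the edge `pq` if `p ∈ C`. The number is at most `(C \ {q}).ncard` (the three sets
`(C \ K) \ {p, q}`, `(K ∩ C) \ {p, q}`, `{p} ∩ C` are disjoint parts of `C \ {q}`; `p ≠ q`). Let
`T` satisfy the hypothesis and contain `Y`: `T.Adj p q` by the hypothesis if `p ∈ S`, else by `Y`.
`Dbl T p q B K`: `v ∈ K`, `v ≠ p, q`; if `v ∈ S` then `B v` (`one`) and `T.Adj v q`
(hypothesis); if `v ∈ C` by `Y`. So `p` is connected to all of `C`, hence so is `q`.
(b) `c = p`: symmetric (use `zero`).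
(c) `c ≠ p`, `c ≠ q`: `c ∈ K` and every `s ∈ S`, `s ≠ c` is `p` or `q`. Not both `p` and `q` are
in `S` (otherwise `c ∈ one ∩ zero`). Let `Y` be `Y0`, `attach` for `A = (K ∩ C) \ {p, q, c}`, the
edge `pq`, and, if neither `p` nor `q` is in `S`, also the edge from `c` to `q` (if `B c`) or to `p`
(if `¬ B c`) (`dr_adj`, or `attach` for `{c}`). Count: if exactly one of `p, q`
is in `S`, say `q ∈ S`, `p ∈ C` (then `q ∉ C`): at most
`((C \ K) \ {p,q}).ncard + ((K ∩ C) \ {p,q,c}).ncard + 1 ≤ (C \ {c}).ncard`, since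
`(C \ K) \ {p,q}`, `(K ∩ C) \ {p,q,c}` and `{p}` are disjoint parts of `C \ {c}` (`c ∈ K`). If none
is in `S`: `p, q ∈ C` and two more edges, `{p, q}` is a part of `C \ {c}` disjoint from the two
sets. Under the hypothesis and `Y ⊆ T`: `T.Adj p q`; `v ∈ K`, `v ≠ p, q`: if `v = c`: when
`q ∈ S`, `B c` (`one`) and `T.Adj q c` (hypothesis for `s = q ≠ c`); when `p ∈ S`, `¬ B c` and
`T.Adj p c`; when none, by `Y`. If `v ≠ c` then `v ∉ S` (else `v = p` or `v = q`), so `v ∈ C` and
`Y` attaches it. So `Dbl T p q B K`; `p` is connected to all of `C`, and `c` is adjacent to `p` or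
`q`. -/
theorem starIn_sound [Finite V] {N : Node V} (hN : GoodNode G N) {k : ℕ} {t : Tab V}
    (hk : N.C.ncard ≤ k + 1) (ht : SoundTab G k t) {c : V} (hc : c ∈ N.S ∨ c ∈ N.C)
    (h : StarIn G t N c) :
    Ext G N.C ((N.C \ {c}).ncard) (fun T => ∀ s ∈ N.S, s ≠ c → T.Adj s c) c := by
  obtain ⟨p, q, hpq, hpSC, hqSC, hK, hcc, hsat⟩ := h
  obtain ⟨B, hq, hp, hone, hzero, hB⟩ := sat_iff.mp hsat
  by_cases hcp : c = p
  · subst hcp
    exact starInSound_p hN hk ht hpq hqSC hK hq hp hB
      (fun x hx h1 h2 => hzero x (Or.inl ⟨rfl, hx, h1, h2⟩))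
  · by_cases hcq : c = q
    · subst hcq
      exact starInSound_q hN hk ht hpq hpSC hK hq hp hB
        (fun x hx h1 h2 => hone x (Or.inl ⟨rfl, hx, h1, h2⟩))
    · rcases hcc with h | h | ⟨hcK, hS⟩
      · exact absurd h hcp
      · exact absurd h hcq
      · exact starInSound_c hN hk ht hpq hpSC hqSC hK hq hp hB hcp hcq hcK hS
          (fun h => hone c (Or.inr ⟨hcp, hcq, rfl, h⟩))
          (fun h => hzero c (Or.inr ⟨hcp, hcq, rfl, h⟩))

end Pool.Agent.Spanner3
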