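import Pool.Agent.Lib_MP_b5064f_t3.StarInSound

set_option autoImplicit false

/-!
# Piece STARSOUND: stars are realisable
-/

namespace Pool.Agent.Spanner3

open Relation

variable {V : Type} {G : SimpleGraph V}

/-- PROOF. First alternative: `starIn_sound`. Second alternative, `c ∉ S ∪ C`:
(i) `S = {s}` and `StarIn s`: `starIn_sound` for `s` gives `Y` with at most `(C \ {s}).ncard`
`≤ C.ncard = (C \ {c}).ncard` elements (`c ∉ C`). Under the hypothesis for `c`, `T.Adj s c`
(`s ≠ c`); the hypothesis for `s` is vacuous (`s' = s` for all `s' ∈ S`). So `s` is connected to all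
of `C`, and `c` to `s`.
(ii) `z ∈ S` and `Sat G t N z c (S \ {z}) (K \ S)`: `B` from `sat_iff`. `node_sound` with `p = z`,
`q = c` (`z ≠ c`; `z ∈ S ⊆ K`; `z ∉ C` and `c ∉ C`) gives `Y0`. Let `Y` be `Y0` and the edges `vz`
for `v ∈ K ∩ C` (edges of `G`: `K` is a clique, `z ∈ K`, `z ∉ C`), `attach` with `B` false on
`K ∩ C` (`K ∩ C ⊆ K \ S`, `zero`). Number: at most `(C \ K).ncard + (C ∩ K).ncard = C.ncard`.
Under the hypothesis: `T.Adj z c`; `v ∈ K`, `v ≠ z, c`: if `v ∈ S`: `B v` and `T.Adj v c`; if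
`v ∈ C`: `¬ B v` and `T.Adj v z` by `Y`. So `Dbl T z c B K`, `z` is connected to `C`, so is `c`. -/
theorem star_sound [Finite V] {N : Node V} (hN : GoodNode G N) {k : ℕ} {t : Tab V}
    (hk : N.C.ncard ≤ k + 1) (ht : SoundTab G k t) {c : V} (h : StarS G t N c) :
    Ext G N.C ((N.C \ {c}).ncard) (fun T => ∀ s ∈ N.S, s ≠ c → T.Adj s c) c := by
  classical
  rcases h with ⟨hc, h⟩ | ⟨hcS, hcC, h⟩
  · exact starIn_sound hN hk ht hc h
  · have hCc : (N.C \ {c}) = N.C := Set.sdiff_singleton_eq_self hcC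
    rw [hCc]
    rcases h with ⟨s, hs, huniq, hstar⟩ | ⟨z, hz, hsat⟩
    · obtain ⟨Y, hY1, hY2, hY3⟩ := starIn_sound hN hk ht (Or.inl hs) hstar
      refine ⟨Y, hY1, ?_, ?_⟩
      · rwa [Set.sdiff_singleton_eq_self (hN.disj s hs)] at hY2
      · intro T hT hTY
        have hsc : T.Adj s c := hT s hs (fun h => hcS (h ▸ hs))
        obtain ⟨h1, h2⟩ := hY3 T (fun s' hs' hne => absurd (huniq s' hs') hne) hTY
        exact ⟨fun x hx => hsc.symm.reachable.trans (h1 x hx), h2⟩
    · obtain ⟨B, hBc, hBz, hone, hzero, hcl⟩ := sat_iff.1 hsat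
      have hzc : z ≠ c := fun h => hcS (h ▸ hz)
      have hzK : z ∈ N.K := hN.SK z hz
      have hzC : z ∉ N.C := hN.disj z hz
      obtain ⟨Y0, hY1, hY2, hY3⟩ := node_sound hN hk ht (p := z) (q := c) hzc (Or.inl hzK)
        (Or.inr ⟨hzC, hcC⟩) hBc hBz hcl
      obtain ⟨Y1, hZ1, hZ2, hZ3⟩ := attach (G := G) (p := z) (q := c) (B := fun _ => False)
        (N.C ∩ N.K) (fun v _ h => h.elim)
        (fun v hv _ => hN.maxcl.1 v hv.2 z hzK (fun h => hzC (h ▸ hv.1)))
      refine ⟨Y0 ∪ Y1, ?_, ?_, ?_⟩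
      · intro e he
        rcases Finset.mem_union.1 he with h | h
        · exact hY1 e h
        · exact hZ1 e h
      · have h1 : (Y0 ∪ Y1).card ≤ Y0.card + Y1.card := Finset.card_union_le _ _
        have h2 : ((N.C \ N.K) \ {z, c}).ncard ≤ (N.C \ N.K).ncard :=
          Set.ncard_le_ncard Set.sdiff_subset (Set.toFinite _)
        have h3 := Set.ncard_inter_add_ncard_sdiff_eq_ncard N.C N.K (Set.toFinite _)
        omega
      · intro T hT hTY
        have hTzc : T.Adj z c := hT z hz hzc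
        have hD : Dbl T z c B N.K := by
          refine ⟨hTzc, fun v hv hvz hvc => ?_⟩
          rcases K_sub hN hv with hvS | hvC
          · exact ⟨fun _ => hT v hvS hvc, fun h => absurd (hone v ⟨hvS, hvz⟩) h⟩
          · have hvS : v ∉ N.S := fun h => hN.disj v h hvC
            refine ⟨fun h => absurd h (hzero v ⟨hv, hvS⟩), fun _ => ?_⟩
            exact (hZ3 T (fun e he => hTY e (Finset.mem_union_right _ he)) v ⟨hvC, hv⟩).2
              (fun h => h)
        obtain ⟨h1, h2⟩ := hY3 T hD (fun e he => hTY e (Finset.mem_union_left _ he))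
        exact ⟨fun x hx => hTzc.symm.reachable.trans (h1 x hx), h2⟩

end Pool.Agent.Spanner3
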