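import Pool.Agent.Lib_MP_b5064f_t3.StarComp

set_option autoImplicit false

/-!
# Piece STEPCOMP: one step of the dynamic program is complete
-/

namespace Pool.Agent.Spanner3

open Relation

variable {V : Type} {G T : SimpleGraph V} {r : V → ℕ}

/-- PROOF. Let `Small G (k + 1) u w`, `N = node G d u w` (a good node), `C, S, K` its sets, and
`p, q` as in `CompTab`, `B = BT T p q`. Let `x, y ∈ S ∪ {p, q}` with `RS x y` and `B x`; to show:
`B y`.
Case A: `Cov T p q K`. By `node_comp` (`h1`: `p ∉ C ∨ q ∉ C`; `hq`, `hp` from the hypotheses of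
`CompTab` and `S ⊆ K`) `B` is closed under `Dr`. The first clause of `RS` gives a chain from `a`
(`a = q` or `a = x`, so `B a`) to `b` (`b = p` or `b = y`), so `B b`; `B p` is false (`p ≠ q`), so
`b = y` and `B y`.
Case B: `pq` does not cover `K`. Let `ab` be a covering `T`-edge of `K` (`CovAll`). There are no
`v, v' ∈ S \ {p, q}` with `T.Adj v p` and `T.Adj v' q`: otherwise `ab = pq` by `cov_far`, and `pq`
covers `K`.
B1: `T.Adj s q` for no `s ∈ S \ {p, q}`. So by `Cov T p q S` all `s ∈ S \ {p, q}` are adjacent to
`p` in `T`, and `B` is false on `S \ {q}` and on `p`. So `x = q`. If `y = q` we are done. Otherwise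
the first exception of `RS` holds, a contradiction: `q ∉ C`: if `q ∈ C` there is `s ∈ S`, `s ≠ p`,
`T.Adj s q`, and `s ≠ q` since `S ∩ C = ∅`: contradiction; `StarS G t N p` by `star_comp`: every
`s ∈ S`, `s ≠ p` is adjacent to `p` (`s = q`: `T.Adj p q`), and if `p ∈ C` then there is `s ∈ S`,
`s ≠ q` (hypothesis for `p ∈ C`) and `q ∈ S` (`q` is adjacent to `p ∈ C` and `q ∉ C`, `clos`).
B2: `T.Adj s p` for no `s ∈ S \ {p, q}`. Then all `s ∈ S \ {p, q}` are adjacent to `q`, `B` is true
on `S \ {p}` and on `q`. If `y ≠ p` we are done (`y = q` or `y ∈ S \ {p}`). If `y = p` then `x ≠ p`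
(since `B x`) and the second exception holds: `p ∉ C` and `StarS G t N q`, symmetric.
`star_comp` needs two elements of `K` (`maxCl_two`), `S` nonempty (`SS_nonempty`), `G` connected. -/
theorem step_comp [Finite V] (hr : IsPEO G r) (hG : G.Connected) (h2 : ∃ x y : V, x ≠ y)
    {d : Dec V} (hd : GoodDec G d) (hT : Good G T) {k : ℕ} {t : Tab V} (ht : CompTab G T k t) :
    CompTab G T (k + 1) (step G d t) := by
  intro u w hsm p q hpq hcov h1 hq hp x y hx hy hRS hBx
  have hN : GoodNode G (node G d u w) := hd.2 u w hsm.1 hsm.2.1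
  have hk : (node G d u w).C.ncard ≤ k + 1 := hsm.2.2
  have hne : ∃ s, s ∈ (node G d u w).S := SS_nonempty hG hsm.1 hsm.2.1
  have hcov' : Cov T p q (node G d u w).S := hcov
  have h1' : p ∉ (node G d u w).C ∨ q ∉ (node G d u w).C := h1
  have hq' : q ∈ (node G d u w).C → ∃ s ∈ (node G d u w).S, s ≠ p ∧ T.Adj s q := hq
  have hp' : p ∈ (node G d u w).C → ∃ s ∈ (node G d u w).S, s ≠ q ∧ T.Adj s p := hp
  have hx' : x = p ∨ x = q ∨ x ∈ (node G d u w).S := hx
  have hy' : y = p ∨ y = q ∨ y ∈ (node G d u w).S := hy
  have hRS' : RS G t (node G d u w) p q x y := hRS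
  clear hcov h1 hq hp hx hy hRS
  generalize node G d u w = N at *
  have hTG : T ≤ G := hT.1
  have hac : T.IsAcyclic := hT.2.1.isAcyclic
  have hBp : ¬ BT T p q p := by
    rintro (h | h)
    · exact hpq.ne h
    · exact h.1 rfl
  obtain ⟨⟨a, b, ha, hb, hch⟩, hex1, hex2⟩ := hRS'
  by_cases hc : Cov T p q N.K
  · have hcl := node_comp hN hTG hk ht hpq hc (Or.inr (Or.inr h1'))
      (fun h _ => by
        obtain ⟨s, hs, h3, h4⟩ := hq' h
        exact ⟨s, hN.SK s hs, h3, h4⟩)
      (fun h _ => by
        obtain ⟨s, hs, h3, h4⟩ := hp' h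
        exact ⟨s, hN.SK s hs, h3, h4⟩)
    have hBa : BT T p q a := by
      rcases ha with h | h
      · exact Or.inl h
      · rw [h]; exact hBx
    have hBb : BT T p q b := by
      clear hb
      induction hch with
      | refl => exact hBa
      | tail _ h4 ih => exact hcl _ _ h4 ih
    rcases hb with h | h
    · rw [h] at hBb; exact absurd hBb hBp
    · rw [h] at hBb; exact hBb
  · obtain ⟨z, hzK, -⟩ := hN.meet
    obtain ⟨a', b', hab, hcab⟩ := hT.2.2 N.K hN.maxcl ⟨z, hzK, Set.mem_univ z⟩
    have hno : ∀ v ∈ N.S, ∀ v' ∈ N.S, v ≠ q → v' ≠ p → T.Adj v p → T.Adj v' q → False := by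
      intro v hv v' hv' hvq hvp hvadj hvadj'
      rcases cov_far hac hpq hvadj hvadj' hvq hvp hab (hcab v (hN.SK v hv))
        (hcab v' (hN.SK v' hv')) with ⟨e1, e2⟩ | ⟨e1, e2⟩
      · apply hc
        rw [← e1, ← e2]
        exact hcab
      · apply hc
        intro s hs
        have := hcab s hs
        rw [e1, e2] at this
        rcases this with h | h | h | h
        · exact Or.inr (Or.inl h)
        · exact Or.inl h
        · exact Or.inr (Or.inr (Or.inr h))
        · exact Or.inr (Or.inr (Or.inl h))
    have hK2 := maxCl_two hG h2 hN.maxcl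
    by_cases hB1 : ∃ s ∈ N.S, s ≠ p ∧ s ≠ q ∧ T.Adj s q
    · obtain ⟨v', hv', hv'p, hv'q, hv'adj⟩ := hB1
      have hnp : ∀ s ∈ N.S, s ≠ p → s ≠ q → T.Adj s q := by
        intro s hs hsp hsq
        rcases hcov' s hs with h | h | h | h
        · exact absurd h hsp
        · exact absurd h hsq
        · exact (hno s hs v' hv' hsq hv'p h hv'adj).elim
        · exact h
      by_cases hyp : y = p
      · exfalso
        apply hex2
        have hpC : p ∉ N.C := by
          intro h
          obtain ⟨s, hs, hsq, hsadj⟩ := hp' h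
          exact hno s hs v' hv' hsq hv'p hsadj hv'adj
        refine ⟨hpC, ?_, hyp, ?_⟩
        · apply star_comp hr hN hTG hac hT.2.2 hK2 hk ht hne
          · intro s hs hsq
            by_cases hsp : s = p
            · rw [hsp]; exact hpq
            · exact hnp s hs hsp hsq
          · intro hqC
            obtain ⟨s, hs, hsp, hsadj⟩ := hq' hqC
            refine ⟨s, hs, p, ?_, hsp⟩
            rcases hN.clos q hqC p (hTG hpq.symm) with h | h
            · exact absurd h hpC
            · exact h
        · intro h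
          rw [h] at hBx
          exact hBp hBx
      · rcases hy' with h | h | h
        · exact absurd h hyp
        · exact Or.inl h
        · by_cases hyq : y = q
          · exact Or.inl hyq
          · exact Or.inr ⟨hyp, hnp y h hyp hyq⟩
    · have hnq : ∀ s ∈ N.S, s ≠ p → s ≠ q → T.Adj s p := by
        intro s hs hsp hsq
        rcases hcov' s hs with h | h | h | h
        · exact absurd h hsp
        · exact absurd h hsq
        · exact h
        · exact absurd ⟨s, hs, hsp, hsq, h⟩ hB1
      by_cases hyq : y = q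
      · exact Or.inl hyq
      · exfalso
        apply hex1
        have hqC : q ∉ N.C := by
          intro h
          obtain ⟨s, hs, hsp, hsadj⟩ := hq' h
          have hsq : s ≠ q := fun h' => hN.disj s hs (h' ▸ h)
          exact hB1 ⟨s, hs, hsp, hsq, hsadj⟩
        have hxq : x = q := by
          by_contra hxq
          rcases hBx with h | ⟨h, h'⟩
          · exact hxq h
          · rcases hx' with h3 | h3 | h3
            · exact h h3
            · exact hxq h3
            · exact hB1 ⟨x, h3, h, hxq, h'⟩
        refine ⟨hqC, ?_, hxq, hyq⟩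
        apply star_comp hr hN hTG hac hT.2.2 hK2 hk ht hne
        · intro s hs hsp
          by_cases hsq : s = q
          · rw [hsq]; exact hpq.symm
          · exact hnq s hs hsp hsq
        · intro hpC
          obtain ⟨s, hs, hsq, hsadj⟩ := hp' hpC
          refine ⟨s, hs, q, ?_, hsq⟩
          rcases hN.clos p hpC q (hTG hpq) with h | h
          · exact absurd h hqC
          · exact h

end Pool.Agent.Spanner3
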